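import Pool.Agent.N746.GR.Count

/-!
# From the grid to all product divisors
-/

set_option autoImplicit false

namespace Pool.Agent.N746.GR

open NumberField IsDedekindDomain Height Real Polynomial Pool.Agent.N757.RD Pool.Agent.N757.TL
open Pool.Agent.N746.RK Pool.Agent.N746.UR

variable {K : Type} [Field K] [NumberField K]

theorem W_gt_le (x : K) : W {v : HeightOneSpectrum (𝓞 K) | 1 < FinitePlace.mk v x} ≤ D x := by
  by_cases hx : x = 0
  · have : {v : HeightOneSpectrum (𝓞 K) | 1 < FinitePlace.mk v x} = ∅ := by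
      ext v
      simp only [Set.mem_ofPred_eq, Set.mem_empty_iff_false, iff_false, hx, map_zero]
      norm_num
    rw [this]
    unfold W
    simp [D_nonneg]
  · have : {v : HeightOneSpectrum (𝓞 K) | 1 < FinitePlace.mk v x} = lows x⁻¹ := by
      ext v
      have hv : 0 < FinitePlace.mk v x := FinitePlace.pos_iff.2 hx
      simp only [Set.mem_ofPred_eq, lows, map_inv₀]
      exact (inv_lt_one₀ hv).symm
    rw [this]
    have := W_lows_le (inv_ne_zero hx)
    rwa [D_inv] at this

/-- enlarging a divisor -/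
theorem VV_any {P : K[X]} (hP : Squarefree P) {e : ℕ} (he : e ≤ 1) {B : Dat K}
    (hB : ∀ y, B.P y → (B.S y).Finite)
    (hV : ∀ P' : K[X], Squarefree P' → 2 ≤ P'.natDegree → VV (dP P') B) : VV (dE P e) B := by
  have : Infinite K := inferInstance
  have hP0 : P ≠ 0 := hP.ne_zero
  have hroots : {x : K | P.eval x = 0}.Finite := by
    classical
    refine (P.roots.toFinset.finite_toSet).subset fun x hx => ?_
    rw [Finset.mem_coe, Multiset.mem_toFinset, mem_roots hP0]
    exact hx
  obtain ⟨a, ha⟩ := hroots.exists_notMem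
  obtain ⟨b, hb⟩ := (hroots.insert a).exists_notMem
  simp only [Set.mem_ofPred_eq, Set.mem_insert_iff, not_or] at ha hb
  obtain ⟨hba, hb⟩ := hb
  obtain ⟨R, hR⟩ : ∃ R : K[X], R = (X - C a) * (X - C b) := ⟨_, rfl⟩
  have hRd : R.natDegree = 2 := by
    rw [hR, natDegree_mul (X_sub_C_ne_zero a) (X_sub_C_ne_zero b), natDegree_X_sub_C,
      natDegree_X_sub_C]
  have hR0 : R ≠ 0 := by
    rintro rfl
    simp at hRd
  have hsq : Squarefree (P * R) := by
    rw [squarefree_mul_iff]
    have hpa : ∀ c : K, P.eval c ≠ 0 → IsRelPrime P (X - C c) := by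
      intro c hc
      refine (IsCoprime.isRelPrime ?_)
      refine ((irreducible_X_sub_C c).coprime_iff_not_dvd.2 fun h => hc ?_).symm
      exact dvd_iff_isRoot.1 h
    refine ⟨?_, hP, ?_⟩
    · rw [hR]
      exact (hpa a ha).mul_right (hpa b hb)
    · rw [hR, squarefree_mul_iff]
      refine ⟨IsCoprime.isRelPrime ?_, (irreducible_X_sub_C a).squarefree,
        (irreducible_X_sub_C b).squarefree⟩
      exact isCoprime_X_sub_C_of_isUnit_sub (sub_ne_zero.2 (Ne.symm hba)).isUnit
  have hdeg : (P * R).natDegree = P.natDegree + 2 := by rw [natDegree_mul hP0 hR0, hRd]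
  obtain ⟨C₁, hC₁, h1⟩ := D_eval_le 2 R hRd.le
  have hV' := hV (P * R) hsq (by omega)
  have he' : (e : ℝ) ≤ 1 := by exact_mod_cast he
  refine VV_less (A' := dP (P * R)) (r := 3 - e) (C := C₁) hB (fun x hx => fin_dE hx)
    (T := {x | R.eval x = 0}) ?_ ?_ hV'
  · classical
    refine (R.roots.toFinset.finite_toSet).subset fun x hx => ?_
    rw [Finset.mem_coe, Multiset.mem_toFinset, mem_roots hR0]
    exact hx
  intro x hx hxT
  have hRx : R.eval x ≠ 0 := hxT
  refine ⟨?_, ?_, {v | e = 0 ∧ 1 < FinitePlace.mk v x} ∪ lows (R.eval x), ?_, ?_, ?_⟩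
  · change (P * R).eval x ≠ 0
    rw [eval_mul]
    exact mul_ne_zero hx hRx
  · simp only [dE, dP, hdeg]
    push_cast
    nlinarith
  · exact ((finite_gt x).subset fun v hv => hv.2).union (finite_lows hRx)
  · rintro v (hv | hv)
    · by_cases h0 : e = 0
      · exact Or.inr (Or.inl ⟨h0, hv⟩)
      · exact Or.inl (Or.inl ⟨h0, hv⟩)
    · by_cases h4 : FinitePlace.mk v (P.eval x) < 1
      · exact Or.inl (Or.inr h4)
      · right; right
        change FinitePlace.mk v (R.eval x) < 1
        by_contra hcon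
        rw [eval_mul, map_mul] at hv
        have := one_le_mul_of_one_le_of_one_le (not_lt.1 h4) (not_lt.1 hcon)
        linarith
  · have g1 := W_lows_le hRx
    have g2 := h1 x
    push_cast at g2
    have g3 : W {v : HeightOneSpectrum (𝓞 K) | e = 0 ∧ 1 < FinitePlace.mk v x} ≤ (1 - e) * D x := by
      by_cases h0 : e = 0
      · refine (W_mono (fun v hv => hv.2) (finite_gt x)).trans ?_
        have := W_gt_le x
        rw [h0]
        push_cast
        linarith
      · have : {v : HeightOneSpectrum (𝓞 K) | e = 0 ∧ 1 < FinitePlace.mk v x} = ∅ := by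
          ext v
          simp [h0]
        rw [this]
        have h5 : 0 ≤ (1 - (e : ℝ)) * D x := mul_nonneg (by linarith) (D_nonneg x)
        refine le_trans ?_ h5
        unfold W
        simp
    have g4 := W_union ((finite_gt x).subset fun v (hv : e = 0 ∧ 1 < FinitePlace.mk v x) => hv.2)
      (finite_lows hRx)
    have g5 : W ({v : HeightOneSpectrum (𝓞 K) | e = 0 ∧ 1 < FinitePlace.mk v x} ∪
        lows (R.eval x)) ≤ (1 - e) * D x + (2 * D x + C₁) := by
      refine g4.trans ?_
      exact add_le_add g3 (g1.trans g2)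
    linarith

/-- From the grid to all product divisors. -/
theorem VV_grid {P Q : K[X]} (hP : Squarefree P) (hQ : Squarefree Q) {e e' : ℕ} (he : e ≤ 1)
    (he' : e' ≤ 1) (h : VV (dA K) (dA K)) : VV (dE P e) (dE Q e') := by
  refine VV_any hP he (fun y hy => fin_dE hy) fun P' hP' h2 => VV_swap ?_
  refine VV_any hQ he' (fun y hy => (fin_dP h2).fin y hy) fun Q' hQ' h2' => ?_
  exact VV_dom2 fin_dA (fin_dP h2) (dom_all K hQ' h2') (dom_all K hP' h2) h

/-- From one divisor to the grid. -/
theorem VV_back {n n' : ℕ} (hn : 2 ≤ n) (hn' : 2 ≤ n') {m m' : ℤ} (hm : Cong n m)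
    (hm' : Cong n' m') {z z' : K} (hz : z ≠ 0) (hz' : z' ≠ 0) (c c' : K) {P Q : K[X]} (hP : P ≠ 0)
    (hQ : Q ≠ 0) (hPd : ((X - C c) ^ n - C ((m : K) * z ^ n)) ∣ P)
    (hQd : ((X - C c') ^ n' - C ((m' : K) * z' ^ n')) ∣ Q) (h : VV (dE P 1) (dE Q 1)) :
    VV (dA K) (dA K) := by
  rw [dE_one, dE_one] at h
  have hd : 2 ≤ P.natDegree := by
    have h1 := natDegree_le_of_dvd hPd hP
    have h2 : ((X - C c) ^ n - C ((m : K) * z ^ n) : K[X]).natDegree = n := by
      rw [← root_comp, natDegree_comp, natDegree_X_sub_C, mul_one, natDegree_X_pow_sub_C]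
    omega
  exact VV_dom2 (fin_dP hd) fin_dA (dom_to hn hm hz c hP hPd) (dom_to hn' hm' hz' c' hQ hQd) h

end Pool.Agent.N746.GR
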