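import Pool.Agent.N746.UR.Basic
import Pool.Agent.N757.TL.Ht

/-!
# Maps of the projective line which transfer inequalities, with control on the primes
-/

set_option autoImplicit false

namespace Pool.Agent.N746.GR

open NumberField IsDedekindDomain Height Real Polynomial Pool.Agent.N757.RD Pool.Agent.N757.TL
open Pool.Agent.N746.RK

variable {K : Type} [Field K] [NumberField K]

/-- a set of points with a height and sets of primes -/
structure Dat (K : Type) [Field K] [NumberField K] where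
  /-- the points -/
  P : K → Prop
  /-- the height -/
  h : K → ℝ
  /-- the primes -/
  S : K → Set (HeightOneSpectrum (𝓞 K))

/-- a map which transfers the inequality -/
def Mapp (A A' : Dat K) : Prop :=
  ∃ (N C : ℝ) (F G : K[X]) (B : Set (HeightOneSpectrum (𝓞 K))), 1 ≤ N ∧ 0 ≤ C ∧ F ≠ 0 ∧ G ≠ 0 ∧
    F.natDegree ≠ G.natDegree ∧ B.Finite ∧
    (∀ x, G.eval x ≠ 0 → D (F.eval x / G.eval x) ≤ C * D x + C) ∧
    ∀ x, A.P x → A.h x ≤ C ∨ (G.eval x ≠ 0 ∧ A'.P (F.eval x / G.eval x) ∧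
      N * A.h x ≤ A'.h (F.eval x / G.eval x) + C ∧
      A.S x ⊆ A'.S (F.eval x / G.eval x) ∪ B ∧
      ∃ E, E.Finite ∧ A'.S (F.eval x / G.eval x) ⊆ A.S x ∪ E ∧ W E ≤ (N - 1) * A.h x + C)

omit [NumberField K] in
theorem ev (F : ℤ[X]) (x : K) : (F.map (Int.castRingHom K)).eval x = aeval x F := by
  rw [eval_map, ← algebraMap_int_eq, ← aeval_def]

theorem mapp_of {A A' : Dat K} (F G : ℤ[X]) (hF : F ≠ 0) (hG : G ≠ 0)
    (hd : F.natDegree ≠ G.natDegree) (N C : ℝ) (B : Set (HeightOneSpectrum (𝓞 K))) (hN : 1 ≤ N)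
    (hC : 0 ≤ C) (hB : B.Finite)
    (H : ∀ x, A.P x → A.h x ≤ C ∨ (aeval x G ≠ 0 ∧ A'.P (aeval x F / aeval x G) ∧
      N * A.h x ≤ A'.h (aeval x F / aeval x G) + C ∧
      A.S x ⊆ A'.S (aeval x F / aeval x G) ∪ B ∧
      ∃ E, E.Finite ∧ A'.S (aeval x F / aeval x G) ⊆ A.S x ∪ E ∧ W E ≤ (N - 1) * A.h x + C)) :
    Mapp A A' := by
  have hinj : Function.Injective (Int.castRingHom K) := (Int.castRingHom K).injective_int
  obtain ⟨C₀, hC₀, h⟩ := D_ratio_le (le_max_left F.natDegree G.natDegree)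
    (le_max_right F.natDegree G.natDegree)
  have hdg := dg_pos (K := K)
  refine ⟨N, C + 2 * (max F.natDegree G.natDegree : ℕ) + C₀ * dg K, F.map (Int.castRingHom K),
    G.map (Int.castRingHom K), B, hN, by positivity, (Polynomial.map_ne_zero_iff hinj).2 hF,
    (Polynomial.map_ne_zero_iff hinj).2 hG, ?_, hB, ?_, ?_⟩
  · rwa [natDegree_map_eq_of_injective hinj, natDegree_map_eq_of_injective hinj]
  · intro x hx
    rw [ev] at hx
    rw [ev, ev]
    have h1 := h K x hx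
    have h2 := D_nonneg x
    have h3 : 0 ≤ C * D x := mul_nonneg hC h2
    have h4 : 0 ≤ C₀ * dg K * D x := by positivity
    have h5 : (0 : ℝ) ≤ (max F.natDegree G.natDegree : ℕ) := Nat.cast_nonneg _
    nlinarith
  · intro x hx
    simp only [ev]
    have h5 : (0 : ℝ) ≤ (max F.natDegree G.natDegree : ℕ) := Nat.cast_nonneg _
    have h6 : 0 ≤ C₀ * dg K := by positivity
    rcases H x hx with h1 | ⟨h1, h2, h3, h4, E, hE, h7, h8⟩
    · left; linarith
    · right
      exact ⟨h1, h2, by linarith, h4, E, hE, h7, by linarith⟩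

/-- `0`, `1`, `∞` -/
noncomputable def dA (K : Type) [Field K] [NumberField K] : Dat K :=
  ⟨fun x => x ≠ 0 ∧ x ≠ 1, D, I⟩

/-- `∞` and the `n`-th roots of `k` -/
noncomputable def dR (n : ℕ) (k : K) : Dat K :=
  ⟨fun x => x ^ n ≠ k, fun x => ((n : ℝ) - 1) * D x, IR n k⟩

/-- `0`, `∞` and the `n`-th roots of `k` -/
noncomputable def dB (n : ℕ) (k : K) : Dat K :=
  ⟨fun x => x ≠ 0 ∧ x ^ n ≠ k, fun x => (n : ℝ) * D x, JR n k⟩

theorem bad_finite {n : ℤ} (hn : n ≠ 0) :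
    {p : HeightOneSpectrum (𝓞 K) | FinitePlace.mk p ((n : ℤ) : K) ≠ 1}.Finite :=
  finite_ne_one (by exact_mod_cast hn)

end Pool.Agent.N746.GR
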