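import Pool.Agent.N746.GR.Poly

/-!
# Belyi's theorem
-/

set_option autoImplicit false

namespace Pool.Agent.N746.GR

open NumberField IsDedekindDomain Height Real Polynomial Pool.Agent.N757.RD Pool.Agent.N757.TL
open Pool.Agent.N746.RK Pool.Agent.N746.UR

variable (K : Type) [Field K] [NumberField K]

theorem coprime_lin {S : Finset ℚ} : (S : Set ℚ).Pairwise
    (Function.onFun IsCoprime fun r => (X - C r : ℚ[X])) := by
  intro a _ b _ hab
  exact pairwise_coprime_X_sub_C Function.injective_id hab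

theorem squarefree_lin (S : Finset ℚ) : Squarefree (∏ r ∈ S, (X - C r : ℚ[X])) :=
  Finset.squarefree_prod_of_pairwise_isCoprime
    (fun _ ha _ hb hab => (coprime_lin ha hb hab).isRelPrime)
    fun r _ => (irreducible_X_sub_C r).squarefree

theorem natDegree_lin (S : Finset ℚ) : (∏ r ∈ S, (X - C r : ℚ[X])).natDegree = S.card := by
  rw [natDegree_prod_of_monic _ _ fun r _ => monic_X_sub_C r]
  simp

theorem dQ_three : dQ K (X * (X - 1) : ℚ[X]) = dA K := by
  unfold dQ
  rw [← dP_three]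
  simp

theorem lin_dvd_comp {S S' : Finset ℚ} {f : ℚ[X]} (h : ∀ s ∈ S, f.eval s ∈ S') :
    (∏ r ∈ S, (X - C r : ℚ[X])) ∣ (∏ r ∈ S', (X - C r : ℚ[X])).comp f := by
  refine Finset.prod_dvd_of_coprime coprime_lin fun s hs => ?_
  rw [prod_comp]
  refine dvd_trans ?_ (Finset.dvd_prod_of_mem _ (h s hs))
  rw [sub_comp, X_comp, C_comp]
  exact X_sub_C_dvd_sub_C_eval

theorem dom_two {a b : ℚ} (hab : a ≠ b) : Dom (dQ K (∏ r ∈ {a, b}, (X - C r : ℚ[X]))) (dA K) := by
  classical
  have hba : b - a ≠ 0 := sub_ne_zero.2 hab.symm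
  have e : (X * (X - 1) : ℚ[X]) = ∏ r ∈ ({0, 1} : Finset ℚ), (X - C r : ℚ[X]) := by
    rw [Finset.prod_pair (by norm_num)]
    simp
  rw [← dQ_three, e]
  set f : ℚ[X] := C (b - a)⁻¹ * X + C (-(b - a)⁻¹ * a) with hf
  have hfd : f.natDegree = 1 := natDegree_linear (inv_ne_zero hba)
  refine elk (f := f) (by omega) ?_ (squarefree_lin _) ?_ (lin_dvd_comp ?_) ?_
  · rw [natDegree_lin]
    simp
  · rw [natDegree_lin, Finset.card_pair hab]
  · intro s hs
    simp only [Finset.mem_insert, Finset.mem_singleton] at hs ⊢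
    rcases hs with rfl | rfl
    · left
      rw [hf]
      simp
    · right
      rw [hf]
      simp
      field_simp
      ring
  · intro x hx
    exfalso
    rw [hf] at hx
    simp at hx
    exact hba (by exact_mod_cast hx)

theorem dom_lin (n : ℕ) : ∀ S : Finset ℚ, S.card = n → 2 ≤ n →
    Dom (dQ K (∏ r ∈ S, (X - C r : ℚ[X]))) (dA K) := by
  classical
  induction n using Nat.strong_induction_on with
  | _ n ih =>
  intro S hS hn
  rcases Nat.eq_or_lt_of_le hn with h2 | h2
  · obtain ⟨a, b, hab, rfl⟩ := Finset.card_eq_two.1 (hS.trans h2.symm)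
    exact dom_two K hab
  have hne : S.Nonempty := Finset.card_pos.1 (by omega)
  obtain ⟨a, ha⟩ : ∃ a, a = S.min' hne := ⟨_, rfl⟩
  obtain ⟨c, hc⟩ : ∃ c, c = S.max' hne := ⟨_, rfl⟩
  have haS : a ∈ S := by rw [ha]; exact S.min'_mem hne
  have hcS : c ∈ S := by rw [hc]; exact S.max'_mem hne
  obtain ⟨b, hbS, hba, hbc⟩ : ∃ b ∈ S, b ≠ a ∧ b ≠ c := by
    by_contra hcon
    push Not at hcon
    have h3 : S ⊆ {a, c} := by
      intro s hs
      rw [Finset.mem_insert, Finset.mem_singleton]
      by_cases h4 : s = a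
      · exact Or.inl h4
      · exact Or.inr (hcon s hs h4)
    have h4 := (Finset.card_le_card h3).trans Finset.card_le_two
    omega
  have hab : a < b := lt_of_le_of_ne (by rw [ha]; exact S.min'_le b hbS) hba.symm
  have hbc' : b < c := lt_of_le_of_ne (by rw [hc]; exact S.le_max' b hbS) hbc
  have hac : 0 < c - a := by linarith
  -- the ratio
  set r : ℚ := (b - a) / (c - a) with hr
  have hr0 : 0 < r := div_pos (by linarith) hac
  have hr1 : r < 1 := by rw [hr, div_lt_one hac]; linarith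
  have hnum : 0 < r.num := Rat.num_pos.2 hr0
  have hlt : r.num < r.den := by
    have h3 : (r.num : ℚ) / r.den < 1 := by rw [Rat.num_div_den]; exact hr1
    have h4 : (0 : ℚ) < r.den := by exact_mod_cast r.den_pos
    rw [div_lt_one h4] at h3
    exact_mod_cast h3
  obtain ⟨m, hm⟩ : ∃ m : ℕ, r.num = m + 1 := ⟨(r.num - 1).toNat, by omega⟩
  obtain ⟨k, hk⟩ : ∃ k : ℕ, (r.den : ℤ) = m + 1 + (k + 1) := ⟨(r.den - r.num - 1).toNat, by omega⟩
  have hrm : r * ((m : ℚ) + 1 + (k + 1)) = m + 1 := by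
    have h3 : r * r.den = r.num := Rat.mul_den_eq_num r
    have h4 : (r.den : ℚ) = (m : ℚ) + 1 + (k + 1) := by exact_mod_cast hk
    have h5 : (r.num : ℚ) = (m : ℚ) + 1 := by rw [hm]; push_cast; ring
    rw [h4, h5] at h3
    exact h3
  set κ : ℚ := (r ^ (m + 1) * (1 - r) ^ (k + 1))⁻¹ with hκ
  have hr1' : (1 : ℚ) - r ≠ 0 := by linarith
  have hκ0 : r ^ (m + 1) * (1 - r) ^ (k + 1) ≠ 0 := mul_ne_zero (pow_ne_zero _ hr0.ne')
    (pow_ne_zero _ hr1')
  set L : ℚ[X] := C (c - a)⁻¹ * (X - C a) with hL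
  set f : ℚ[X] := C κ * (L ^ (m + 1) * (1 - L) ^ (k + 1)) with hf
  have hLa : L.eval a = 0 := by rw [hL]; simp
  have hLc : L.eval c = 1 := by rw [hL]; simp [hac.ne']
  have hLb : L.eval b = r := by
    rw [hL, hr]; simp
    rw [inv_mul_eq_div]
  have hfa : f.eval a = 0 := by rw [hf]; simp [hLa]
  have hfc : f.eval c = 0 := by rw [hf]; simp [hLc]
  have hfb : f.eval b = 1 := by
    rw [hf]
    simp only [eval_mul, eval_C, eval_pow, eval_sub, eval_one, hLb]
    rw [hκ]
    exact inv_mul_cancel₀ hκ0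
  have hfd : 1 ≤ f.natDegree := by
    by_contra h3
    have h4 : f.natDegree = 0 := by omega
    rw [eq_C_of_natDegree_eq_zero h4, eval_C] at hfa hfb
    rw [hfa] at hfb
    exact zero_ne_one hfb
  obtain ⟨S', hS'⟩ : ∃ S', S' = S.image (fun s => f.eval s) := ⟨_, rfl⟩
  have h0S : (0 : ℚ) ∈ S' := by rw [hS', Finset.mem_image]; exact ⟨a, haS, hfa⟩
  have h1S : (1 : ℚ) ∈ S' := by rw [hS', Finset.mem_image]; exact ⟨b, hbS, hfb⟩
  have hcard2 : 2 ≤ S'.card := Finset.one_lt_card.2 ⟨0, h0S, 1, h1S, zero_ne_one⟩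
  have hcard : S'.card < n := by
    have h3 : S' ⊆ (S.erase a).image (fun s => f.eval s) := by
      rw [hS']
      intro t ht
      rw [Finset.mem_image] at ht ⊢
      obtain ⟨s, hs, hst⟩ := ht
      by_cases h4 : s = a
      · refine ⟨c, Finset.mem_erase.2 ⟨by linarith, hcS⟩, ?_⟩
        rw [← hst, h4, hfa, hfc]
      · exact ⟨s, Finset.mem_erase.2 ⟨h4, hs⟩, hst⟩
    have h4 := (Finset.card_le_card h3).trans Finset.card_image_le
    rw [Finset.card_erase_of_mem haS] at h4
    omega
  refine Dom.trans (elk (f := f) hfd ?_ (squarefree_lin S) ?_ (lin_dvd_comp (S' := S') ?_) ?_)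
    (ih _ hcard S' rfl hcard2)
  · rw [natDegree_lin]; omega
  · rw [natDegree_lin]; omega
  · intro s hs
    rw [hS', Finset.mem_image]
    exact ⟨s, hs, rfl⟩
  · intro x hx
    have hz : ∀ t ∈ S', aeval x f = algebraMap ℚ (AlgebraicClosure ℚ) t →
        aeval (aeval x f) (∏ r ∈ S', (X - C r : ℚ[X])) = 0 := by
      intro t ht h3
      rw [map_prod]
      refine Finset.prod_eq_zero ht ?_
      rw [h3]
      simp
    have hder : derivative f = C κ * (C (c - a)⁻¹ * (L ^ m * (1 - L) ^ k *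
        (C ((m : ℚ) + 1) - C ((m : ℚ) + 1 + (k + 1)) * L))) := by
      have hL' : derivative L = C (c - a)⁻¹ := by
        rw [hL]
        simp
      rw [hf, derivative_C_mul, derivative_mul, derivative_pow, derivative_pow, derivative_sub,
        derivative_one, hL']
      simp only [C_add, C_1, Nat.add_sub_cancel, Nat.cast_add, Nat.cast_one, pow_succ]
      simp only [map_natCast, map_add, map_one]
      ring
    rw [hder] at hx
    simp only [map_mul, map_pow, map_sub, map_one] at hx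
    have hκK : aeval x (C κ : ℚ[X]) ≠ 0 := by
      rw [aeval_C]
      intro h3
      have : κ = 0 := (map_eq_zero _).1 h3
      rw [hκ] at this
      exact hκ0 (inv_eq_zero.1 this)
    have hcK : aeval x (C (c - a)⁻¹ : ℚ[X]) ≠ 0 := by
      rw [aeval_C]
      intro h3
      have : (c - a)⁻¹ = 0 := (map_eq_zero _).1 h3
      exact hac.ne' (inv_eq_zero.1 this)
    have hfx : aeval x f = aeval x (C κ : ℚ[X]) * (aeval x L ^ (m + 1) * (1 - aeval x L) ^ (k + 1)) := by
      rw [hf]
      simp only [map_mul, map_pow, map_sub, map_one]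
    rcases mul_eq_zero.1 hx with h3 | h3
    · exact absurd h3 hκK
    rcases mul_eq_zero.1 h3 with h4 | h4
    · exact absurd h4 hcK
    rcases mul_eq_zero.1 h4 with h5 | h5
    · have h6 : aeval x f = algebraMap ℚ (AlgebraicClosure ℚ) 0 := by
        rw [map_zero, hfx]
        rcases mul_eq_zero.1 h5 with h7 | h7
        · have h8 : aeval x L = 0 := by
            by_contra h9
            exact pow_ne_zero _ h9 h7
          rw [h8, zero_pow (by omega), zero_mul, mul_zero]
        · have h8 : 1 - aeval x L = 0 := by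
            by_contra h9
            exact pow_ne_zero _ h9 h7
          rw [h8, zero_pow (by omega), mul_zero, mul_zero]
      exact hz 0 h0S h6
    · have h6 : aeval x L = algebraMap ℚ (AlgebraicClosure ℚ) r := by
        rw [aeval_C, aeval_C] at h5
        have h7 : algebraMap ℚ (AlgebraicClosure ℚ) ((m : ℚ) + 1 + (k + 1)) ≠ 0 := by
          intro h8
          have h9 : (m : ℚ) + 1 + (k + 1) = 0 := (map_eq_zero _).1 h8
          have : (0 : ℚ) ≤ m := Nat.cast_nonneg _
          have : (0 : ℚ) ≤ k := Nat.cast_nonneg _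
          linarith
        have h8 : algebraMap ℚ (AlgebraicClosure ℚ) r *
            algebraMap ℚ (AlgebraicClosure ℚ) ((m : ℚ) + 1 + (k + 1)) =
            algebraMap ℚ (AlgebraicClosure ℚ) ((m : ℚ) + 1) := by
          rw [← map_mul, hrm]
        apply mul_left_cancel₀ h7
        rw [mul_comm (algebraMap ℚ (AlgebraicClosure ℚ) ((m : ℚ) + 1 + (k + 1)))
          (algebraMap ℚ (AlgebraicClosure ℚ) r), h8]
        linear_combination -h5
      refine hz 1 h1S ?_
      rw [hfx, h6, aeval_C, ← map_one (algebraMap ℚ (AlgebraicClosure ℚ)), ← map_sub, ← map_pow,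
        ← map_pow, ← map_mul, ← map_mul]
      congr 1
      rw [hκ]
      exact inv_mul_cancel₀ hκ0

end Pool.Agent.N746.GR
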