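import Pool.Agent.N746.GR.Belyi

/-!
# Belyi's theorem: reduction of the degree
-/

set_option autoImplicit false

namespace Pool.Agent.N746.GR

open NumberField IsDedekindDomain Height Real Polynomial Pool.Agent.N757.RD Pool.Agent.N757.TL
open Pool.Agent.N746.RK Pool.Agent.N746.UR

/-- monic irreducible polynomials -/
def Good (T : Finset ℚ[X]) : Prop := ∀ M ∈ T, M.Monic ∧ Irreducible M

theorem Good.coprime {T : Finset ℚ[X]} (h : Good T) : (T : Set ℚ[X]).Pairwise
    (Function.onFun IsCoprime fun M => M) := by
  intro M hM N hN hMN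
  obtain ⟨m1, i1⟩ := h M hM
  obtain ⟨m2, i2⟩ := h N hN
  refine (Irreducible.coprime_iff_not_dvd i1).2 fun hdvd => hMN ?_
  exact eq_of_monic_of_associated m1 m2 ((i1.dvd_irreducible_iff_associated i2).1 hdvd)

theorem Good.squarefree {T : Finset ℚ[X]} (h : Good T) : Squarefree (∏ M ∈ T, M) :=
  Finset.squarefree_prod_of_pairwise_isCoprime
    (fun _ ha _ hb hab => (h.coprime ha hb hab).isRelPrime) fun M hM => (h M hM).2.squarefree

theorem alg0 : Algebra.IsAlgebraic ℚ (AlgebraicClosure ℚ) := by
  have h := (AlgebraicClosure.isAlgebraic ℚ)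
  have e : (DivisionRing.toRatAlgebra : Algebra ℚ (AlgebraicClosure ℚ)) =
    AlgebraicClosure.instAlgebra ℚ := Subsingleton.elim _ _
  rw [e]
  exact h

theorem alg (x : AlgebraicClosure ℚ) : IsIntegral ℚ x := by
  have := alg0
  exact Algebra.IsIntegral.isIntegral x

theorem good_min (x : AlgebraicClosure ℚ) : (minpoly ℚ x).Monic ∧ Irreducible (minpoly ℚ x) :=
  ⟨minpoly.monic (alg x), minpoly.irreducible (alg x)⟩

/-- the degree of a value -/
theorem deg_value (f : ℚ[X]) (x : AlgebraicClosure ℚ) :
    (minpoly ℚ (aeval x f)).natDegree ≤ (minpoly ℚ x).natDegree := by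
  have hfd : FiniteDimensional ℚ (IntermediateField.adjoin ℚ {x}) :=
    IntermediateField.adjoin.finiteDimensional (alg x)
  rw [← IntermediateField.adjoin.finrank (alg x)]
  set y : IntermediateField.adjoin ℚ {x} := aeval (IntermediateField.AdjoinSimple.gen ℚ x) f with hy
  have e : aeval x f = algebraMap (IntermediateField.adjoin ℚ {x}) (AlgebraicClosure ℚ) y := by
    rw [hy, ← aeval_algebraMap_apply, IntermediateField.AdjoinSimple.algebraMap_gen]
  rw [e, minpoly.algebraMap_eq (algebraMap (IntermediateField.adjoin ℚ {x})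
    (AlgebraicClosure ℚ)).injective]
  exact minpoly.natDegree_le y

theorem exists_root {M : ℚ[X]} (hM : M.Monic) (hi : Irreducible M) :
    ∃ x : AlgebraicClosure ℚ, minpoly ℚ x = M := by
  obtain ⟨x, hx⟩ := IsAlgClosed.exists_aeval_eq_zero (AlgebraicClosure ℚ) M
    (by rw [degree_eq_natDegree hi.ne_zero]; exact_mod_cast hi.natDegree_pos.ne')
  exact ⟨x, (minpoly.eq_of_irreducible_of_monic hi hx hM).symm⟩

theorem dvd_comp {f M : ℚ[X]} {x : AlgebraicClosure ℚ} (hx : minpoly ℚ x = M) :
    M ∣ (minpoly ℚ (aeval x f)).comp f := by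
  rw [← hx]
  apply minpoly.dvd
  rw [aeval_comp]
  exact minpoly.aeval ℚ _

variable (K : Type) [Field K] [NumberField K]

theorem dom_deg_one {T : Finset ℚ[X]} (hT : Good T) (h1 : ∀ M ∈ T, M.natDegree ≤ 1)
    (h2 : 2 ≤ (∏ M ∈ T, M).natDegree) : Dom (dQ K (∏ M ∈ T, M)) (dA K) := by
  classical
  have e0 : ∀ M ∈ T, M = X - C (-M.coeff 0) := by
    intro M hM
    obtain ⟨hm, hi⟩ := hT M hM
    have hd : M.natDegree = 1 := le_antisymm (h1 M hM) hi.natDegree_pos
    have h3 := eq_X_add_C_of_natDegree_le_one (h1 M hM)
    have h4 : M.coeff 1 = 1 := by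
      rw [← hd]; exact hm
    rw [h4, C_1, one_mul] at h3
    rw [C_neg, sub_neg_eq_add]
    exact h3
  have e : (∏ M ∈ T, M) = ∏ r ∈ T.image (fun M => -M.coeff 0), (X - C r : ℚ[X]) := by
    rw [Finset.prod_image]
    · exact Finset.prod_congr rfl e0
    · intro M hM N hN hMN
      rw [e0 M hM, e0 N hN]
      simp only at hMN
      rw [hMN]
  rw [e] at h2 ⊢
  rw [natDegree_lin] at h2
  exact dom_lin K _ _ rfl h2

theorem dom_deg (d : ℕ) (hd : 1 ≤ d) : ∀ n : ℕ, ∀ T : Finset ℚ[X], Good T →
    (∀ M ∈ T, M.natDegree ≤ d) → (T.filter fun M => M.natDegree = d).card ≤ n →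
    2 ≤ (∏ M ∈ T, M).natDegree → Dom (dQ K (∏ M ∈ T, M)) (dA K) := by
  classical
  induction d, hd using Nat.le_induction with
  | base =>
    intro n T hT h1 _ h2
    exact dom_deg_one K hT h1 h2
  | succ e he ihe =>
    intro n
    induction n with
    | zero =>
      intro T hT h1 h3 h2
      refine ihe _ T hT (fun M hM => ?_) le_rfl h2
      have h4 : (T.filter fun M => M.natDegree = e + 1) = ∅ := Finset.card_eq_zero.1 (by omega)
      have h5 := h1 M hM
      by_contra h6
      have h7 : M ∈ T.filter fun M => M.natDegree = e + 1 :=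
        Finset.mem_filter.2 ⟨hM, by omega⟩
      rw [h4] at h7
      exact absurd h7 (Finset.notMem_empty _)
    | succ n ihn =>
      intro T hT h1 h3 h2
      by_cases hex : ∃ M ∈ T, M.natDegree = e + 1
      swap
      · push Not at hex
        refine ihe _ T hT (fun M hM => ?_) le_rfl h2
        have h5 := h1 M hM
        have h6 := hex M hM
        omega
      obtain ⟨M, hM, hMd⟩ := hex
      obtain ⟨hMm, hMi⟩ := hT M hM
      -- the roots
      have hrt : ∀ N : ℚ[X], ∃ x : AlgebraicClosure ℚ, N ∈ T → minpoly ℚ x = N := by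
        intro N
        by_cases hN : N ∈ T
        · obtain ⟨x, hx⟩ := exists_root (hT N hN).1 (hT N hN).2
          exact ⟨x, fun _ => hx⟩
        · exact ⟨0, fun h => absurd h hN⟩
      choose rt hrt using hrt
      have hM' : derivative M ≠ 0 := by
        intro h0
        have := derivative_eq_zero.1 h0
        omega
      set crit : Finset (AlgebraicClosure ℚ) := ((derivative M).aroots
        (AlgebraicClosure ℚ)).toFinset with hcrit
      set T' : Finset ℚ[X] := (T.image fun N => minpoly ℚ (aeval (rt N) M)) ∪
        ((crit.image fun c => minpoly ℚ (aeval c M)) ∪ {X, X - 1}) with hT'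
      have hX1 : (X : ℚ[X]) ≠ X - 1 := by
        intro h0
        have := congrArg (eval 0) h0
        simp at this
      have hgood : Good T' := by
        intro N hN
        rw [hT'] at hN
        simp only [Finset.mem_union, Finset.mem_image, Finset.mem_insert,
          Finset.mem_singleton] at hN
        rcases hN with ⟨N', _, rfl⟩ | ⟨c, _, rfl⟩ | rfl | rfl
        · exact good_min _
        · exact good_min _
        · exact ⟨monic_X, irreducible_X⟩
        · have : (X - 1 : ℚ[X]) = X - C 1 := by rw [C_1]
          rw [this]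
          exact ⟨monic_X_sub_C _, irreducible_X_sub_C _⟩
      have hdX : (X : ℚ[X]).natDegree = 1 := natDegree_X
      have hdX1 : (X - 1 : ℚ[X]).natDegree = 1 := by
        rw [← C_1]; exact natDegree_X_sub_C _
      have hc_deg : ∀ c ∈ crit, (minpoly ℚ (aeval c M)).natDegree ≤ e := by
        intro c hc
        refine (deg_value M c).trans ?_
        rw [hcrit, Multiset.mem_toFinset, mem_aroots] at hc
        have h5 := natDegree_le_of_dvd (minpoly.dvd ℚ c hc.2) hM'
        rw [natDegree_derivative, hMd] at h5
        omega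
      have h_deg : ∀ N ∈ T', N.natDegree ≤ e + 1 := by
        intro N hN
        rw [hT'] at hN
        simp only [Finset.mem_union, Finset.mem_image, Finset.mem_insert,
          Finset.mem_singleton] at hN
        rcases hN with ⟨N', hN', rfl⟩ | ⟨c, hc, rfl⟩ | rfl | rfl
        · refine (deg_value M _).trans ?_
          rw [hrt N' hN']
          exact h1 N' hN'
        · exact (hc_deg c hc).trans (by omega)
        · omega
        · omega
      have hMrt : aeval (rt M) M = 0 := by
        conv_lhs => rw [← hrt M hM]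
        have := minpoly.aeval ℚ (rt M)
        rw [hrt M hM] at this ⊢
        exact this
      have h_count : (T'.filter fun N => N.natDegree = e + 1).card ≤ n := by
        have h5 : (T'.filter fun N => N.natDegree = e + 1) ⊆
            ((T.erase M).filter fun N => N.natDegree = e + 1).image
              fun N => minpoly ℚ (aeval (rt N) M) := by
          intro N hN
          rw [Finset.mem_filter, hT'] at hN
          obtain ⟨hN, hNd⟩ := hN
          simp only [Finset.mem_union, Finset.mem_image, Finset.mem_insert,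
            Finset.mem_singleton] at hN
          rcases hN with ⟨N', hN', rfl⟩ | ⟨c, hc, rfl⟩ | rfl | rfl
          · rw [Finset.mem_image]
            refine ⟨N', ?_, rfl⟩
            have h6 := deg_value M (rt N')
            rw [hrt N' hN', hNd] at h6
            have h7 := h1 N' hN'
            rw [Finset.mem_filter, Finset.mem_erase]
            refine ⟨⟨?_, hN'⟩, by omega⟩
            rintro rfl
            rw [hMrt, minpoly.zero, natDegree_X] at hNd
            omega
          · have := hc_deg c hc
            omega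
          · omega
          · omega
        have h6 := (Finset.card_le_card h5).trans Finset.card_image_le
        have h7 : ((T.erase M).filter fun N => N.natDegree = e + 1) =
            (T.filter fun N => N.natDegree = e + 1).erase M := Finset.filter_erase _ _ _
        have h8 : M ∈ T.filter fun N => N.natDegree = e + 1 := Finset.mem_filter.2 ⟨hM, hMd⟩
        rw [h7, Finset.card_erase_of_mem h8] at h6
        omega
      have h0' : (∏ N ∈ T', N) ≠ 0 := Finset.prod_ne_zero_iff.2 fun N hN => (hgood N hN).2.ne_zero
      have h_two : 2 ≤ (∏ N ∈ T', N).natDegree := by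
        have h5 : ({X, X - 1} : Finset ℚ[X]) ⊆ T' := by
          intro N hN
          rw [hT']
          exact Finset.mem_union_right _ (Finset.mem_union_right _ hN)
        have h6 := natDegree_le_of_dvd (Finset.prod_dvd_prod_of_subset _ _ (fun N => N) h5) h0'
        rw [Finset.prod_pair hX1, natDegree_mul X_ne_zero (by rw [← C_1]; exact X_sub_C_ne_zero _),
          hdX, hdX1] at h6
        exact h6
      refine Dom.trans (elk (f := M) (by omega) (by omega) hT.squarefree h2 ?_ ?_)
        (ihn T' hgood h_deg h_count h_two)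
      · refine Finset.prod_dvd_of_coprime hT.coprime fun N hN => ?_
        refine (dvd_comp (f := M) (hrt N hN)).trans ?_
        have h5 : minpoly ℚ (aeval (rt N) M) ∈ T' := by
          rw [hT']
          exact Finset.mem_union_left _ (Finset.mem_image_of_mem _ hN)
        obtain ⟨W', hW'⟩ := Finset.dvd_prod_of_mem (fun N : ℚ[X] => N) h5
        rw [hW', mul_comp]
        exact dvd_mul_right _ _
      · intro x hx
        have h5 : minpoly ℚ (aeval x M) ∈ T' := by
          rw [hT']
          refine Finset.mem_union_right _ (Finset.mem_union_left _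
            (Finset.mem_image.2 ⟨x, ?_, rfl⟩))
          rw [hcrit, Multiset.mem_toFinset, mem_aroots]
          exact ⟨hM', hx⟩
        rw [map_prod]
        exact Finset.prod_eq_zero h5 (minpoly.aeval ℚ _)

/-- **Belyi's theorem**, for the inequalities. -/
theorem dom_all {P : K[X]} (hP : Squarefree P) (h2 : 2 ≤ P.natDegree) : Dom (dP P) (dA K) := by
  classical
  have hP0 : P ≠ 0 := by rintro rfl; simp at h2
  set Ω := AlgebraicClosure K with hΩ
  have hint : ∀ x : Ω, IsIntegral ℚ x := by
    intro x
    have : Algebra.IsIntegral ℚ Ω := Algebra.IsIntegral.trans K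
    exact Algebra.IsIntegral.isIntegral x
  set T : Finset ℚ[X] := (P.aroots Ω).toFinset.image (minpoly ℚ) with hT
  have hgood : Good T := by
    intro M hM
    rw [hT, Finset.mem_image] at hM
    obtain ⟨x, _, rfl⟩ := hM
    exact ⟨minpoly.monic (hint x), minpoly.irreducible (hint x)⟩
  have h0 : (∏ M ∈ T, M) ≠ 0 := Finset.prod_ne_zero_iff.2 fun N hN => (hgood N hN).2.ne_zero
  have hdvd : P ∣ (∏ M ∈ T, M).map (algebraMap ℚ K) := by
    rw [← Polynomial.map_dvd_map' (algebraMap K Ω), Polynomial.map_map,
      ← IsScalarTower.algebraMap_eq ℚ K Ω]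
    have hsplit : (P.map (algebraMap K Ω)).Splits := IsAlgClosed.splits _
    have hne : (∏ M ∈ T, M).map (algebraMap ℚ Ω) ≠ 0 :=
      (Polynomial.map_ne_zero_iff (algebraMap ℚ Ω).injective).2 h0
    have hPne : P.map (algebraMap K Ω) ≠ 0 :=
      (Polynomial.map_ne_zero_iff (algebraMap K Ω).injective).2 hP0
    have hnd : (P.map (algebraMap K Ω)).roots.Nodup := by
      have hsep : P.Separable := PerfectField.separable_iff_squarefree.2 hP
      exact nodup_roots hsep.map
    rw [hsplit.dvd_iff_roots_le_roots hPne hne]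
    rw [Multiset.le_iff_subset hnd]
    intro x hx
    rw [mem_roots hne, IsRoot, eval_map, ← aeval_def, map_prod]
    refine Finset.prod_eq_zero (i := minpoly ℚ x) ?_ (minpoly.aeval ℚ x)
    rw [hT]
    refine Finset.mem_image_of_mem _ ?_
    rw [Multiset.mem_toFinset]
    exact hx
  obtain ⟨R, hR⟩ := hdvd
  have hd : P.natDegree ≤ (∏ M ∈ T, M).natDegree := by
    have h3 := natDegree_le_of_dvd ⟨R, hR⟩
      ((Polynomial.map_ne_zero_iff (algebraMap ℚ K).injective).2 h0)
    rwa [natDegree_map] at h3
  have hR0 : R ≠ 0 := by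
    rintro rfl
    rw [mul_zero] at hR
    exact (Polynomial.map_ne_zero_iff (algebraMap ℚ K).injective).2 h0 hR
  have h3 : Mapp (dP P) (dQ K (∏ M ∈ T, M)) := by
    unfold dQ
    rw [hR]
    exact map_dvd h2 hR0
  obtain ⟨d, hdd⟩ : ∃ d, d = T.sup natDegree + 1 := ⟨_, rfl⟩
  refine (h3.dom (fin_dP h2)).trans (dom_deg K d (by omega) _ T hgood (fun M hM => ?_) le_rfl
    (h2.trans hd))
  have := Finset.le_sup (f := natDegree) hM
  omega

end Pool.Agent.N746.GR
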