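import Pool.Agent.N746.GR.Fin

/-!
# Chains of maps
-/

set_option autoImplicit false

namespace Pool.Agent.N746.GR

open NumberField IsDedekindDomain Height Real Polynomial Pool.Agent.N757.RD Pool.Agent.N757.TL
open Pool.Agent.N746.RK Pool.Agent.N746.UR

variable {K : Type} [Field K] [NumberField K]

/-- chains of maps -/
def Dom (A A' : Dat K) : Prop := Relation.ReflTransGen (fun A B => Fin' A ∧ Mapp A B) A A'

theorem Dom.trans {A B C : Dat K} (h : Dom A B) (h' : Dom B C) : Dom A C :=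
  Relation.ReflTransGen.trans h h'

theorem Mapp.dom {A B : Dat K} (h : Mapp A B) (hA : Fin' A) : Dom A B :=
  Relation.ReflTransGen.single ⟨hA, h⟩

theorem dom_scale {n : ℕ} (hn : 2 ≤ n) (k : K) {α : K} (hα : α ≠ 0) :
    Dom (dR n k) (dR n (k * α ^ n)) := by
  have e : (X ^ n - C k : K[X]) * C (α ^ n) = (X ^ n - C (k * α ^ n)).comp (C α * X + C 0) := by
    simp [mul_pow]
    ring
  have hd : 2 ≤ (X ^ n - C k : K[X]).natDegree := by rw [natDegree_X_pow_sub_C]; exact hn
  have hd' : 2 ≤ (X ^ n - C (k * α ^ n) : K[X]).natDegree := by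
    rw [natDegree_X_pow_sub_C]; exact hn
  have h1 := map_dvd hd (C_ne_zero.2 (pow_ne_zero n hα))
  rw [e] at h1
  have h2 := map_affine (β := 0) hd' hα
  have hd2 : 2 ≤ ((X ^ n - C (k * α ^ n)).comp (C α * X + C 0) : K[X]).natDegree := by
    rw [natDegree_comp, natDegree_linear hα, mul_one]; exact hd'
  rw [← dP_root, ← dP_root]
  exact (h1.dom (fin_dP hd)).trans (h2.dom (fin_dP hd2))

theorem comp_shift (P : K[X]) (c : K) : (P.comp (X - C c)).comp (C 1 * X + C c) = P := by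
  rw [comp_assoc]
  simp

theorem dom_shift {P : K[X]} (hP : 2 ≤ P.natDegree) (c : K) : Dom (dP P) (dP (P.comp (X - C c))) := by
  have hd : 2 ≤ (P.comp (X - C c)).natDegree := by
    rw [natDegree_comp, natDegree_X_sub_C, mul_one]; exact hP
  have h := map_affine (α := 1) (β := c) hd one_ne_zero
  rw [comp_shift] at h
  exact h.dom (fin_dP hP)

theorem dom_shift' {P : K[X]} (hP : 2 ≤ P.natDegree) (c : K) :
    Dom (dP (P.comp (X - C c))) (dP P) := by
  have h := map_affine (α := 1) (β := -c) hP one_ne_zero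
  have e : (C 1 * X + C (-c) : K[X]) = X - C c := by simp [sub_eq_add_neg]
  rw [e] at h
  refine h.dom (fin_dP ?_)
  rw [natDegree_comp, natDegree_X_sub_C, mul_one]; exact hP

theorem root_comp {n : ℕ} (k c : K) : ((X ^ n - C k : K[X])).comp (X - C c) = (X - C c) ^ n - C k := by
  simp

/-- an integer `k ≠ 1`, congruent to `1` modulo `n` -/
theorem dom_one {n : ℕ} (hn : 2 ≤ n) {k : ℤ} (hk1 : k ≠ 1) (hmod : (n : ℤ) ∣ k - 1) :
    Dom (dA K) (dR n ((k : ℤ) : K)) := by
  have hn' : (2 : ℤ) ≤ n := by exact_mod_cast hn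
  have hk0 : k ≠ 0 := by
    rintro rfl
    have h1 : (n : ℤ) ∣ 1 := by
      have := (dvd_neg (α := ℤ)).2 hmod
      simpa using this
    have := Int.le_of_dvd (by norm_num) h1
    omega
  have hB : Dom (dB n ((k : ℤ) : K)) (dR n ((k : ℤ) : K)) := by
    obtain ⟨m, rfl⟩ : ∃ m, n = m + 2 := ⟨n - 2, by omega⟩
    exact (map_newton hk0).dom (fin_dB hn _)
  refine Dom.trans ?_ hB
  obtain ⟨t, ht⟩ := hmod
  rcases lt_or_gt_of_ne hk0 with hneg | hpos
  · have ht0 : t < 0 := by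
      by_contra h0
      have : 0 ≤ (n : ℤ) * t := mul_nonneg (by omega) (by omega)
      omega
    obtain ⟨s, hs⟩ : ∃ s : ℕ, t = -(s : ℤ) := ⟨t.natAbs, by omega⟩
    have hs1 : 1 ≤ s := by omega
    have hks : k = 1 - ((n * s : ℕ) : ℤ) := by
      push_cast
      rw [hs] at ht
      linarith
    rw [hks]
    exact (map_neg hn hs1).dom fin_dA
  · have ht0 : 0 < t := by
      by_contra h0
      have : (n : ℤ) * t ≤ 0 := mul_nonpos_of_nonneg_of_nonpos (by omega) (by omega)
      have : k = 1 := by omega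
      exact hk1 this
    obtain ⟨s, hs⟩ : ∃ s : ℕ, t = (s : ℤ) := ⟨t.natAbs, by omega⟩
    have hs1 : 1 ≤ s := by omega
    have hks : k = ((n * s : ℕ) : ℤ) + 1 := by
      push_cast
      rw [hs] at ht
      linarith
    rw [hks]
    exact (map_pos hn hs1).dom fin_dA

theorem dom_int {n : ℕ} (hn : 2 ≤ n) {m : ℤ} (hc : Cong n m) :
    Dom (dA K) (dR n ((m : ℤ) : K)) := by
  have hn' : (2 : ℤ) ≤ n := by exact_mod_cast hn
  have key : ∀ (u : ℤ), u ≠ 0 → (n : ℤ) ∣ m * u ^ n - 1 → m * u ^ n ≠ 1 →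
      Dom (dA K) (dR n ((m : ℤ) : K)) := by
    intro u hu h1 h2
    have hu' : ((u : ℤ) : K) ≠ 0 := by exact_mod_cast hu
    have h3 := dom_one (K := K) hn h2 h1
    have h4 := dom_scale (K := K) hn ((m * u ^ n : ℤ) : K) (inv_ne_zero hu')
    have e : ((m * u ^ n : ℤ) : K) * ((u : ℤ) : K)⁻¹ ^ n = ((m : ℤ) : K) := by
      push_cast
      rw [inv_pow, mul_inv_cancel_right₀ (pow_ne_zero _ hu')]
    rw [e] at h4
    exact h3.trans h4
  have key2 : ∀ (u : ℤ), u ≠ 0 → (n : ℤ) ∣ m * u ^ n - 1 →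
      Dom (dA K) (dR n ((m : ℤ) : K)) := by
    intro u hu h1
    by_cases h2 : m * u ^ n = 1
    swap
    · exact key u hu h1 h2
    refine key (u * (n + 1)) (mul_ne_zero hu (by omega)) ?_ ?_
    · have h4 := sub_dvd_pow_sub_pow ((n : ℤ) + 1) 1 n
      rw [one_pow, add_sub_cancel_right] at h4
      have e1 : m * (u * ((n : ℤ) + 1)) ^ n - 1 = (m * u ^ n) * ((n : ℤ) + 1) ^ n - 1 := by
        rw [mul_pow]; ring
      rw [e1, h2, one_mul]
      exact h4
    · have e1 : m * (u * ((n : ℤ) + 1)) ^ n = (m * u ^ n) * ((n : ℤ) + 1) ^ n := by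
        rw [mul_pow]; ring
      rw [e1, h2, one_mul]
      have : (1 : ℤ) < ((n : ℤ) + 1) ^ n := one_lt_pow₀ (by omega) (by omega)
      exact this.ne'
  rcases hc with h1 | ⟨hp, h1⟩
  · refine key2 1 one_ne_zero ?_
    rwa [one_pow, mul_one]
  · have : Fact n.Prime := ⟨hp⟩
    have hnP : Prime (n : ℤ) := Nat.prime_iff_prime_int.1 hp
    obtain ⟨u, v, huv⟩ := (Int.isCoprime_iff_gcd_eq_one.2
      (Int.isCoprime_iff_gcd_eq_one.1 ((Prime.coprime_iff_not_dvd hnP).2 h1).symm) :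
        IsCoprime m (n : ℤ))
    refine key2 u ?_ ?_
    · rintro rfl
      have : (n : ℤ) ∣ 1 := ⟨v, by linarith⟩
      exact hnP.not_isUnit (isUnit_of_dvd_one this)
    · rw [← ZMod.intCast_eq_intCast_iff_dvd_sub]
      push_cast
      rw [ZMod.pow_card]
      have : ((u * m + v * (n : ℤ) : ℤ) : ZMod n) = ((1 : ℤ) : ZMod n) := by rw [huv]
      push_cast at this
      rw [ZMod.natCast_self, mul_zero, add_zero] at this
      rw [mul_comm, this]

/-- **From abc to a set which contains `∞` and the roots.** -/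
theorem dom_to {n : ℕ} (hn : 2 ≤ n) {m : ℤ} (hc : Cong n m) {z : K} (hz : z ≠ 0) (c : K) {P : K[X]}
    (hP : P ≠ 0) (h : ((X - C c) ^ n - C ((m : K) * z ^ n)) ∣ P) : Dom (dA K) (dP P) := by
  have hd : 2 ≤ (X ^ n - C ((m : K) * z ^ n) : K[X]).natDegree := by
    rw [natDegree_X_pow_sub_C]; exact hn
  obtain ⟨R, rfl⟩ := h
  have h1 := (dom_int (K := K) hn hc).trans (dom_scale hn _ hz)
  rw [← dP_root] at h1
  have h2 := h1.trans (dom_shift hd c)
  rw [root_comp] at h2
  have hd' : 2 ≤ ((X - C c) ^ n - C ((m : K) * z ^ n) : K[X]).natDegree := by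
    rw [← root_comp, natDegree_comp, natDegree_X_sub_C, mul_one]; exact hd
  exact h2.trans ((map_dvd hd' (right_ne_zero_of_mul hP)).dom (fin_dP hd'))

/-- **From `∞` and the roots to abc.** -/
theorem dom_from {n : ℕ} (hn : 2 ≤ n) {k : K} (hk : k ≠ 0) (c : K) :
    Dom (dP ((X - C c) ^ n - C k)) (dA K) := by
  have hd : 2 ≤ (X ^ n - C k : K[X]).natDegree := by
    rw [natDegree_X_pow_sub_C]; exact hn
  have h2 := dom_shift' hd c
  rw [root_comp, dP_root] at h2
  exact h2.trans ((map_root_abc hn hk).dom (fin_dR hn k))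

end Pool.Agent.N746.GR
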