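import Pool.Agent.N746.GR.Chain

/-!
# Pairs of points
-/

set_option autoImplicit false

namespace Pool.Agent.N746.GR

open NumberField IsDedekindDomain Height Real Polynomial Pool.Agent.N757.RD Pool.Agent.N757.TL
open Pool.Agent.N746.RK Pool.Agent.N746.UR

section pull

variable {K : Type} [Field K] [Infinite K]

theorem eval_aX (F : K[X]) (x y : K) :
    MvPolynomial.eval ![x, y] (aeval (MvPolynomial.X 0 : MvPolynomial (Fin 2) K) F) = F.eval x := by
  rw [← MvPolynomial.coe_aeval_eq_eval]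
  have h : (MvPolynomial.aeval ![x, y]) (aeval (MvPolynomial.X 0 : MvPolynomial (Fin 2) K) F) =
      aeval ((MvPolynomial.aeval ![x, y]) (MvPolynomial.X 0 : MvPolynomial (Fin 2) K)) F :=
    (Polynomial.aeval_algHom_apply (MvPolynomial.aeval ![x, y])
      (MvPolynomial.X 0 : MvPolynomial (Fin 2) K) F).symm
  change (MvPolynomial.aeval ![x, y]) (aeval (MvPolynomial.X 0 : MvPolynomial (Fin 2) K) F) = _
  rw [h, MvPolynomial.aeval_X]
  simp [Polynomial.aeval_def, eval₂_eq_eval_map]

theorem range_infinite {F G : K[X]} (hF : F ≠ 0) (hG : G ≠ 0) (hd : F.natDegree ≠ G.natDegree) :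
    ((fun x => F.eval x / G.eval x) '' {x | G.eval x ≠ 0}).Infinite := by
  classical
  intro hfin
  have hroots : ∀ P : K[X], P ≠ 0 → {x : K | P.eval x = 0}.Finite := by
    intro P hP
    refine (P.roots.toFinset.finite_toSet).subset fun x hx => ?_
    rw [Finset.mem_coe, Multiset.mem_toFinset, mem_roots hP]
    exact hx
  have h1 : {x : K | G.eval x ≠ 0} ⊆ ⋃ c ∈ ((fun x => F.eval x / G.eval x) '' {x | G.eval x ≠ 0}),
      {x : K | (F - C c * G).eval x = 0} := by
    intro x hx
    simp only [Set.mem_iUnion]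
    refine ⟨F.eval x / G.eval x, ⟨x, hx, rfl⟩, ?_⟩
    simp only [Set.mem_ofPred_eq, eval_sub, eval_mul, eval_C]
    rw [div_mul_cancel₀ _ hx, sub_self]
  have h2 : (⋃ c ∈ ((fun x => F.eval x / G.eval x) '' {x | G.eval x ≠ 0}),
      {x : K | (F - C c * G).eval x = 0}).Finite := by
    refine hfin.biUnion fun c _ => hroots _ ?_
    intro h0
    rw [sub_eq_zero] at h0
    by_cases hc : c = 0
    · rw [hc, C_0, zero_mul] at h0
      exact hF h0
    · apply hd
      rw [h0, natDegree_C_mul hc]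
  have h3 : {x : K | G.eval x ≠ 0}.Finite := h2.subset h1
  have h4 : {x : K | G.eval x ≠ 0} ∪ {x : K | G.eval x = 0} = Set.univ := by
    ext x
    simp only [Set.mem_union, Set.mem_ofPred_eq, Set.mem_univ, iff_true]
    exact (em (G.eval x = 0)).symm
  have h5 := h3.union (hroots G hG)
  rw [h4] at h5
  exact Set.infinite_univ h5

/-- the preimage of a proper closed subset -/
theorem pull {F G : K[X]} (hF : F ≠ 0) (hG : G ≠ 0) (hd : F.natDegree ≠ G.natDegree)
    {H : MvPolynomial (Fin 2) K} (hH : H ≠ 0) : ∃ H' : MvPolynomial (Fin 2) K, H' ≠ 0 ∧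
      ∀ x y : K, MvPolynomial.eval ![x, y] H' ≠ 0 →
        MvPolynomial.eval ![F.eval x / G.eval x, y] H ≠ 0 := by
  classical
  obtain ⟨M, hM⟩ : ∃ M, M = H.degreeOf 0 := ⟨_, rfl⟩
  set H' : MvPolynomial (Fin 2) K :=
    aeval (MvPolynomial.X 0 : MvPolynomial (Fin 2) K) G * ∑ s ∈ H.support,
      MvPolynomial.C (H.coeff s) * (aeval (MvPolynomial.X 0 : MvPolynomial (Fin 2) K) F) ^ (s 0) *
        (aeval (MvPolynomial.X 0 : MvPolynomial (Fin 2) K) G) ^ (M - s 0) *
        (MvPolynomial.X 1) ^ (s 1) with hH'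
  have key : ∀ x y : K, G.eval x ≠ 0 → MvPolynomial.eval ![x, y] H' =
      G.eval x * (G.eval x ^ M * MvPolynomial.eval ![F.eval x / G.eval x, y] H) := by
    intro x y hx
    rw [hH', map_mul, eval_aX, map_sum, MvPolynomial.eval_eq']
    congr 1
    rw [Finset.mul_sum]
    refine Finset.sum_congr rfl fun s hs => ?_
    have hle : s 0 ≤ M := by
      rw [hM]
      exact MvPolynomial.monomial_le_degreeOf 0 hs
    rw [map_mul, map_mul, map_mul, map_pow, map_pow, map_pow, eval_aX, eval_aX,
      MvPolynomial.eval_C, MvPolynomial.eval_X, Fin.prod_univ_two]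
    simp only [Matrix.cons_val_zero, Matrix.cons_val_one, Matrix.cons_val_fin_one]
    rw [div_pow]
    have e : G.eval x ^ M = G.eval x ^ (M - s 0) * G.eval x ^ (s 0) := by
      rw [← pow_add, Nat.sub_add_cancel hle]
    rw [e]
    have h0 : G.eval x ^ (s 0) ≠ 0 := pow_ne_zero _ hx
    field_simp
  refine ⟨H', ?_, ?_⟩
  · intro h0
    apply hH
    refine MvPolynomial.funext_set
      (fun i => if i = 0 then (fun x => F.eval x / G.eval x) '' {x | G.eval x ≠ 0} else Set.univ)
      (fun i => ?_) (fun z hz => ?_)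
    · by_cases hi : i = 0
      · simp only [hi, if_true]
        exact range_infinite hF hG hd
      · simp only [hi, if_false]
        exact Set.infinite_univ
    · have h1 := hz 0 (Set.mem_univ _)
      simp only [if_true] at h1
      obtain ⟨x, hx, hxz⟩ := h1
      have h2 := key x (z 1) hx
      rw [h0, map_zero] at h2
      have h3 : MvPolynomial.eval ![F.eval x / G.eval x, z 1] H = 0 := by
        rcases mul_eq_zero.1 h2.symm with h4 | h4
        · exact absurd h4 hx
        · rcases mul_eq_zero.1 h4 with h5 | h5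
          · exact absurd h5 (pow_ne_zero _ hx)
          · exact h5
      have e : z = ![F.eval x / G.eval x, z 1] := by
        funext i
        fin_cases i
        · exact hxz.symm
        · rfl
      rw [e, h3, map_zero]
  · intro x y h h0
    by_cases hx : G.eval x = 0
    · apply h
      rw [hH', map_mul, eval_aX, hx, zero_mul]
    · apply h
      rw [key x y hx, h0, mul_zero, mul_zero]

/-- a product which vanishes on finitely many vertical lines -/
theorem lines {T : Set K} (hT : T.Finite) {H : MvPolynomial (Fin 2) K} (hH : H ≠ 0) :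
    ∃ H' : MvPolynomial (Fin 2) K, H' ≠ 0 ∧ ∀ x y : K, MvPolynomial.eval ![x, y] H' ≠ 0 →
      x ∉ T ∧ MvPolynomial.eval ![x, y] H ≠ 0 := by
  classical
  refine ⟨H * ∏ t ∈ hT.toFinset, (MvPolynomial.X 0 - MvPolynomial.C t), ?_, ?_⟩
  · refine mul_ne_zero hH (Finset.prod_ne_zero_iff.2 fun t _ h0 => ?_)
    have h1 := congrArg (MvPolynomial.eval ![t + 1, 0]) h0
    simp at h1
  · intro x y h
    rw [map_mul] at h
    refine ⟨fun hx => ?_, left_ne_zero_of_mul h⟩
    apply right_ne_zero_of_mul h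
    rw [map_prod]
    refine Finset.prod_eq_zero (i := x) ((Set.Finite.mem_toFinset hT).2 hx) ?_
    simp

end pull

variable {K : Type} [Field K] [NumberField K]

/-- the inequality for pairs of points -/
def VV (A B : Dat K) : Prop :=
  ∀ ε : ℝ, 0 < ε → ∃ G : MvPolynomial (Fin 2) K, G ≠ 0 ∧ ∃ C : ℝ, ∀ x y : K, A.P x → B.P y →
    MvPolynomial.eval ![x, y] G ≠ 0 →
    A.h x + B.h y ≤ W (A.S x ∪ B.S y) + ε * (D x + D y) + C

theorem VV_map {A A' B : Dat K} (hA : Fin' A) (hB : Fin' B) (h : Mapp A A')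
    (hV : VV A' B) : VV A B := by
  have : Infinite K := inferInstance
  obtain ⟨N, C, F, G, B₀, hN, hC, hF, hG, hd, hB₀, hD, H⟩ := h
  intro ε hε
  obtain ⟨G₁, hG₁, C₁, h1⟩ := hV (ε / (C + 1)) (by positivity)
  obtain ⟨G₂, hG₂, h2⟩ := pull hF hG hd hG₁
  obtain ⟨G₃, hG₃, h3⟩ := lines (hA.nc C) hG₂
  refine ⟨G₃, hG₃, C + C + C₁ + ε, fun x y hx hy hxy => ?_⟩
  obtain ⟨h4, h5⟩ := h3 x y hxy
  rcases H x hx with h6 | ⟨h6, h7, h8, h9, E, hE, h10, h11⟩
  · exact absurd ⟨hx, h6⟩ h4
  have h12 := h1 _ y h7 hy (h2 x y h5)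
  have h13 : W (A'.S (F.eval x / G.eval x) ∪ B.S y) ≤ W (A.S x ∪ B.S y) + W E := by
    have f1 := (hA.fin x hx).union (hB.fin y hy)
    refine (W_mono ?_ (f1.union hE)).trans (W_union f1 hE)
    rintro p (hp | hp)
    · rcases h10 hp with hp | hp
      · exact Or.inl (Or.inl hp)
      · exact Or.inr hp
    · exact Or.inl (Or.inr hp)
  have h14 := hD x h6
  have h15 : ε / (C + 1) * D (F.eval x / G.eval x) ≤ ε * D x + ε := by
    have e1 : ε / (C + 1) * D (F.eval x / G.eval x) ≤ ε / (C + 1) * (C * D x + C) :=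
      mul_le_mul_of_nonneg_left h14 (by positivity)
    have e2 : ε / (C + 1) * (C * D x + C) ≤ ε * D x + ε := by
      have hDx := D_nonneg x
      rw [div_mul_eq_mul_div, div_le_iff₀ (by positivity)]
      nlinarith [mul_nonneg hε.le hDx, mul_nonneg (mul_nonneg hε.le hDx) hC]
    linarith
  have h16 : ε / (C + 1) * D y ≤ ε * D y := by
    refine mul_le_mul_of_nonneg_right ?_ (D_nonneg y)
    rw [div_le_iff₀ (by positivity)]
    nlinarith
  linarith

theorem VV_swap {A B : Dat K} (hV : VV A B) : VV B A := by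
  intro ε hε
  obtain ⟨G, hG, C, h⟩ := hV ε hε
  refine ⟨MvPolynomial.rename (Equiv.swap (0 : Fin 2) 1) G, ?_, C, fun x y hx hy hxy => ?_⟩
  · intro h0
    exact hG (MvPolynomial.rename_injective _ (Equiv.swap (0 : Fin 2) 1).injective
      (by rw [h0, map_zero]))
  · rw [MvPolynomial.eval_rename] at hxy
    have e : ![x, y] ∘ (Equiv.swap (0 : Fin 2) 1) = ![y, x] := by
      funext i
      fin_cases i <;> simp
    rw [e] at hxy
    have h1 := h y x hy hx hxy
    rw [Set.union_comm]
    linarith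

theorem VV_dom {A A' B : Dat K} (hB : Fin' B) (h : Dom A A') (hV : VV A' B) : VV A B := by
  induction h with
  | refl => exact hV
  | tail _ h2 ih => exact ih (VV_map h2.1 hB h2.2 hV)

theorem VV_dom2 {A A' B B' : Dat K} (hA' : Fin' A') (hB : Fin' B) (h : Dom A A') (h' : Dom B B')
    (hV : VV A' B') : VV A B :=
  VV_dom hB h (VV_swap (VV_dom hA' h' (VV_swap hV)))

end Pool.Agent.N746.GR
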