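import Pool.Agent.N746.GR.Belyi2
import Pool.Agent.N746.GR.Grid

/-!
# Divisors of the projective line, and the truncated counting function of a grid
-/

set_option autoImplicit false

namespace Pool.Agent.N746.GR

open NumberField IsDedekindDomain Height Real Polynomial Pool.Agent.N757.RD Pool.Agent.N757.TL
open Pool.Agent.N746.RK Pool.Agent.N746.UR

variable {K : Type} [Field K] [NumberField K]

/-- the zeros of `P`, and `∞` if `e ≠ 0` -/
noncomputable def dE (P : K[X]) (e : ℕ) : Dat K :=
  ⟨fun x => P.eval x ≠ 0, fun x => ((P.natDegree : ℝ) + e - 2) * D x,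
    fun x => {v | (e ≠ 0 ∧ 1 < FinitePlace.mk v x) ∨ FinitePlace.mk v (P.eval x) < 1}⟩

theorem dE_one (P : K[X]) : dE P 1 = dP P := by
  refine dat_ext (fun x => Iff.rfl) (fun x => ?_) fun x => ?_
  · simp only [dE, dP]
    push_cast
    ring
  · simp only [dE, dP, J, ne_eq, one_ne_zero, not_false_eq_true, true_and]

theorem fin_dE {P : K[X]} {e : ℕ} {x : K} (hx : P.eval x ≠ 0) : ((dE P e).S x).Finite := by
  refine ((finite_gt x).union (finite_lows hx)).subset ?_
  rintro v (hv | hv)
  · exact Or.inl hv.2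
  · exact Or.inr hv

/-- the local height of the divisor -/
noncomputable def lam (P : K[X]) (e : ℕ) (v : HeightOneSpectrum (𝓞 K)) (x : K) : ℝ :=
  ((P.natDegree : ℝ) + e) * Real.log (max (FinitePlace.mk v x) 1) -
    Real.log (FinitePlace.mk v (P.eval x))

theorem lam_add {P Q : K[X]} {e e' : ℕ} (v : HeightOneSpectrum (𝓞 K)) {x y : K}
    (hx : P.eval x ≠ 0) (hy : Q.eval y ≠ 0) :
    -Real.log (FinitePlace.mk v (P.eval x * Q.eval y) /
      (max (FinitePlace.mk v x) 1 ^ (P.natDegree + e) *
        max (FinitePlace.mk v y) 1 ^ (Q.natDegree + e'))) = lam P e v x + lam Q e' v y := by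
  have h1 : 0 < FinitePlace.mk v (P.eval x) := FinitePlace.pos_iff.2 hx
  have h2 : 0 < FinitePlace.mk v (Q.eval y) := FinitePlace.pos_iff.2 hy
  have h3 : 0 < max (FinitePlace.mk v x) 1 := lt_max_of_lt_right one_pos
  have h4 : 0 < max (FinitePlace.mk v y) 1 := lt_max_of_lt_right one_pos
  rw [map_mul, Real.log_div (by positivity) (by positivity), Real.log_mul h1.ne' h2.ne',
    Real.log_mul (by positivity) (by positivity), Real.log_pow, Real.log_pow]
  unfold lam
  push_cast
  ring

/-- the good primes -/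
def gd (P : K[X]) (v : HeightOneSpectrum (𝓞 K)) : Prop :=
  (∀ i, FinitePlace.mk v (P.coeff i) ≤ 1) ∧ FinitePlace.mk v P.leadingCoeff = 1

theorem finite_gd {P : K[X]} (hP : P ≠ 0) : {v : HeightOneSpectrum (𝓞 K) | ¬ gd P v}.Finite := by
  refine ((finite_coeff P).union (finite_ne_one (leadingCoeff_ne_zero.2 hP))).subset fun v hv => ?_
  by_contra h
  simp only [Set.mem_union, Set.mem_ofPred_eq, not_or, not_not] at h
  exact hv ⟨h.1, h.2⟩

theorem good_big {P : K[X]} {v : HeightOneSpectrum (𝓞 K)} (h : gd P v) {x : K}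
    (hx : 1 < FinitePlace.mk v x) :
    FinitePlace.mk v (P.eval x) = FinitePlace.mk v x ^ P.natDegree := by
  have e1 : P.eval x = P.leadingCoeff * x ^ P.natDegree +
      ∑ i ∈ Finset.range P.natDegree, P.coeff i * x ^ i := by
    rw [eval_eq_sum_range, Finset.sum_range_succ, add_comm]
    rfl
  have h2 : FinitePlace.mk v (P.leadingCoeff * x ^ P.natDegree) =
      FinitePlace.mk v x ^ P.natDegree := by
    rw [map_mul, map_pow, h.2, one_mul]
  have h3 : FinitePlace.mk v (∑ i ∈ Finset.range P.natDegree, P.coeff i * x ^ i) <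
      FinitePlace.mk v x ^ P.natDegree := by
    have hpos : 0 < FinitePlace.mk v x ^ P.natDegree := by positivity
    refine Finset.sum_induction _ (fun a => FinitePlace.mk v a < FinitePlace.mk v x ^ P.natDegree)
      ?_ ?_ ?_
    · intro a b ha hb
      exact (fin_add_le v a b).trans_lt (max_lt ha hb)
    · rw [map_zero]; exact hpos
    · intro i hi
      rw [map_mul, map_pow]
      have h5 : FinitePlace.mk v x ^ i < FinitePlace.mk v x ^ P.natDegree :=
        pow_lt_pow_right₀ hx (Finset.mem_range.1 hi)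
      have h6 := h.1 i
      have h7 : 0 ≤ FinitePlace.mk v (P.coeff i) := apply_nonneg _ _
      have h8 : 0 ≤ FinitePlace.mk v x ^ i := by positivity
      nlinarith
  rw [e1, fin_dom (by rw [h2]; exact h3), h2]

/-- the local height at a good prime -/
theorem lam_good {P : K[X]} {e : ℕ} {v : HeightOneSpectrum (𝓞 K)} (h : gd P v) {x : K}
    (hx : P.eval x ≠ 0) : 0 ≤ lam P e v x ∧
      (v ∈ (dE P e).S x → Real.log (Ideal.absNorm v.asIdeal : ℝ) ≤ lam P e v x) ∧
      (v ∉ (dE P e).S x → lam P e v x = 0) := by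
  have hpos : 0 < FinitePlace.mk v (P.eval x) := FinitePlace.pos_iff.2 hx
  by_cases h1 : 1 < FinitePlace.mk v x
  · have h2 := good_big h h1
    have h3 : lam P e v x = e * Real.log (FinitePlace.mk v x) := by
      unfold lam
      rw [h2, max_eq_left h1.le, Real.log_pow]
      ring
    have h4 : 0 < Real.log (FinitePlace.mk v x) := Real.log_pos h1
    rw [h3]
    refine ⟨by positivity, fun h5 => ?_, fun h5 => ?_⟩
    · rcases h5 with h5 | h5
      · have h6 : (1 : ℝ) ≤ e := by exact_mod_cast Nat.one_le_iff_ne_zero.2 h5.1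
        have hx0 : x ≠ 0 := by
          rintro rfl
          rw [map_zero] at h1
          linarith
        have h7 := logN_le v (inv_ne_zero hx0) (by
          rw [map_inv₀]
          exact inv_lt_one_of_one_lt₀ h1)
        rw [inv_inv] at h7
        nlinarith
      · rw [h2] at h5
        have := one_le_pow₀ (n := P.natDegree) h1.le
        linarith
    · have h6 : e = 0 := by
        by_contra h6
        exact h5 (Or.inl ⟨h6, h1⟩)
      rw [h6, Nat.cast_zero, zero_mul]
  · have h2 : max (FinitePlace.mk v x) 1 = 1 := max_eq_right (not_lt.1 h1)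
    have h3 : lam P e v x = - Real.log (FinitePlace.mk v (P.eval x)) := by
      unfold lam
      rw [h2, Real.log_one, mul_zero, zero_sub]
    have h4 := fin_eval_le_one h.1 (not_lt.1 h1)
    rw [h3]
    refine ⟨?_, fun h5 => ?_, fun h5 => ?_⟩
    · rw [neg_nonneg]
      exact Real.log_nonpos hpos.le h4
    · rcases h5 with h5 | h5
      · exact absurd h5.2 h1
      · have h7 := logN_le v hx h5
        rwa [map_inv₀, Real.log_inv] at h7
    · have h6 : FinitePlace.mk v (P.eval x) = 1 := by
        refine le_antisymm h4 (not_lt.1 fun h6 => h5 (Or.inr h6))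
      rw [h6, Real.log_one, neg_zero]

/-- the local height at a bad prime -/
theorem lam_bad (P : K[X]) (e : ℕ) (v : HeightOneSpectrum (𝓞 K)) :
    ∃ C : ℝ, 0 ≤ C ∧ ∀ x : K, P.eval x ≠ 0 → -C ≤ lam P e v x := by
  obtain ⟨M, hM1, hM⟩ : ∃ M : ℝ, 1 ≤ M ∧ ∀ i, FinitePlace.mk v (P.coeff i) ≤ M := by
    obtain ⟨M, hM⟩ := ((P.support.finite_toSet).image
      fun i => FinitePlace.mk v (P.coeff i)).bddAbove
    refine ⟨max M 1, le_max_right _ _, fun i => ?_⟩
    by_cases hi : i ∈ P.support
    · exact (hM ⟨i, hi, rfl⟩).trans (le_max_left _ _)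
    · rw [notMem_support_iff.1 hi, map_zero]
      exact zero_le_one.trans (le_max_right _ _)
  refine ⟨Real.log M, Real.log_nonneg hM1, fun x hx => ?_⟩
  have hpos : 0 < FinitePlace.mk v (P.eval x) := FinitePlace.pos_iff.2 hx
  have hmx : 1 ≤ max (FinitePlace.mk v x) 1 := le_max_right _ _
  have h1 : FinitePlace.mk v (P.eval x) ≤ M * max (FinitePlace.mk v x) 1 ^ P.natDegree := by
    rw [eval_eq_sum_range]
    have hr : ∀ i ∈ Finset.range (P.natDegree + 1), FinitePlace.mk v (P.coeff i * x ^ i) ≤
        M * max (FinitePlace.mk v x) 1 ^ P.natDegree := by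
      intro i hi
      rw [map_mul, map_pow]
      refine mul_le_mul (hM i) ?_ (by positivity) (by linarith)
      refine (pow_le_pow_left₀ (apply_nonneg _ _) (le_max_left _ _) i).trans
        (pow_le_pow_right₀ hmx ?_)
      have := Finset.mem_range.1 hi
      omega
    refine Finset.sum_induction _ (fun a => FinitePlace.mk v a ≤
      M * max (FinitePlace.mk v x) 1 ^ P.natDegree) ?_ ?_ hr
    · intro a b ha hb
      exact (fin_add_le v a b).trans (max_le ha hb)
    · rw [map_zero]; positivity
  have h2 := Real.log_le_log hpos h1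
  rw [Real.log_mul (by positivity) (by positivity), Real.log_pow] at h2
  have h3 : 0 ≤ Real.log (max (FinitePlace.mk v x) 1) := Real.log_nonneg hmx
  have h4 : (0 : ℝ) ≤ e * Real.log (max (FinitePlace.mk v x) 1) := by positivity
  unfold lam
  linarith

/-- the truncated counting function of a grid -/
noncomputable def cnt (P Q : K[X]) (e e' : ℕ) (x y : K) : ℝ :=
  ∑ᶠ v : HeightOneSpectrum (𝓞 K),
    min (Real.log (Ideal.absNorm v.asIdeal : ℝ)) (lam P e v x + lam Q e' v y)

/-- The counting function is, up to a bounded error, the sum over the primes at which one of the two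
coordinates meets the divisor. -/
theorem cnt_close {P Q : K[X]} (hP : P ≠ 0) (hQ : Q ≠ 0) (e e' : ℕ) : ∃ C : ℝ, 0 ≤ C ∧
    ∀ x y : K, P.eval x ≠ 0 → Q.eval y ≠ 0 →
      |cnt P Q e e' x y - W ((dE P e).S x ∪ (dE Q e').S y)| ≤ C := by
  classical
  choose c hc0 hc using lam_bad P e
  choose c' hc0' hc' using lam_bad Q e'
  set B := (finite_gd hP).toFinset ∪ (finite_gd hQ).toFinset with hB
  have hBm : ∀ v, v ∉ B → gd P v ∧ gd Q v := by
    intro v hv
    rw [hB, Finset.mem_union, not_or, Set.Finite.mem_toFinset, Set.Finite.mem_toFinset] at hv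
    simpa using hv
  refine ⟨∑ v ∈ B, (Real.log (Ideal.absNorm v.asIdeal : ℝ) + c v + c' v), ?_, ?_⟩
  · exact Finset.sum_nonneg fun v _ => add_nonneg (add_nonneg (logN_pos v).le (hc0 v)) (hc0' v)
  intro x y hx hy
  have hfin := (fin_dE (e := e) hx).union (fin_dE (e := e') hy)
  set T := hfin.toFinset ∪ B with hT
  have h1 : cnt P Q e e' x y = ∑ v ∈ T, min (Real.log (Ideal.absNorm v.asIdeal : ℝ))
      (lam P e v x + lam Q e' v y) := by
    refine finsum_eq_sum_of_support_subset _ fun v hv => ?_
    rw [Function.mem_support] at hv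
    rw [Finset.mem_coe, hT, Finset.mem_union]
    by_contra hcon
    rw [not_or, Set.Finite.mem_toFinset, Set.mem_union, not_or] at hcon
    obtain ⟨g1, g2⟩ := hBm v hcon.2
    apply hv
    rw [(lam_good g1 hx).2.2 hcon.1.1, (lam_good g2 hy).2.2 hcon.1.2, add_zero]
    exact min_eq_right (logN_pos v).le
  have h2 : W ((dE P e).S x ∪ (dE Q e').S y) = ∑ v ∈ T,
      if v ∈ hfin.toFinset then Real.log (Ideal.absNorm v.asIdeal : ℝ) else 0 := by
    rw [W_eq hfin, Finset.sum_ite_mem, hT, Finset.union_inter_cancel_left]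
  rw [h1, h2, ← Finset.sum_sub_distrib]
  refine (Finset.abs_sum_le_sum_abs _ _).trans ?_
  have h3 : ∀ v ∈ T, |min (Real.log (Ideal.absNorm v.asIdeal : ℝ)) (lam P e v x + lam Q e' v y) -
      (if v ∈ hfin.toFinset then Real.log (Ideal.absNorm v.asIdeal : ℝ) else 0)| ≤
      if v ∈ B then Real.log (Ideal.absNorm v.asIdeal : ℝ) + c v + c' v else 0 := by
    intro v _
    have hN := logN_pos v
    by_cases hvB : v ∈ B
    · rw [if_pos hvB]
      have g1 := hc v x hx
      have g2 := hc' v y hy
      have g3 := hc0 v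
      have g4 := hc0' v
      have g5 : min (Real.log (Ideal.absNorm v.asIdeal : ℝ)) (lam P e v x + lam Q e' v y) ≤
        Real.log (Ideal.absNorm v.asIdeal : ℝ) := min_le_left _ _
      have g6 : -(c v + c' v) ≤ min (Real.log (Ideal.absNorm v.asIdeal : ℝ))
          (lam P e v x + lam Q e' v y) := le_min (by linarith) (by linarith)
      rw [abs_le]
      split_ifs <;> constructor <;> linarith
    · rw [if_neg hvB]
      obtain ⟨g1, g2⟩ := hBm v hvB
      obtain ⟨p1, p2, p3⟩ := lam_good (e := e) g1 hx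
      obtain ⟨q1, q2, q3⟩ := lam_good (e := e') g2 hy
      by_cases hv : v ∈ hfin.toFinset
      · rw [if_pos hv]
        rw [Set.Finite.mem_toFinset] at hv
        have : Real.log (Ideal.absNorm v.asIdeal : ℝ) ≤ lam P e v x + lam Q e' v y := by
          rcases hv with hv | hv
          · have := p2 hv
            linarith
          · have := q2 hv
            linarith
        rw [min_eq_left this, sub_self, abs_zero]
      · rw [if_neg hv]
        rw [Set.Finite.mem_toFinset, Set.mem_union, not_or] at hv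
        rw [p3 hv.1, q3 hv.2, add_zero, min_eq_right hN.le, sub_self, abs_zero]
  refine (Finset.sum_le_sum h3).trans ?_
  rw [Finset.sum_ite_mem, hT, Finset.inter_comm, Finset.inter_eq_left.2 Finset.subset_union_right]

/-- removing points from a divisor -/
theorem VV_less {A A' B : Dat K} (hB : ∀ y, B.P y → (B.S y).Finite) (hA : ∀ x, A.P x → (A.S x).Finite)
    {T : Set K} (hT : T.Finite) {r C : ℝ} (h : ∀ x, A.P x → x ∉ T → A'.P x ∧
      A.h x + r * D x ≤ A'.h x + C ∧ ∃ E, E.Finite ∧ A'.S x ⊆ A.S x ∪ E ∧ W E ≤ r * D x + C)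
    (hV : VV A' B) : VV A B := by
  have : Infinite K := inferInstance
  intro ε hε
  obtain ⟨G, hG, C₁, h1⟩ := hV ε hε
  obtain ⟨G', hG', h2⟩ := lines hT hG
  refine ⟨G', hG', C₁ + C + C, fun x y hx hy hxy => ?_⟩
  obtain ⟨h3, h4⟩ := h2 x y hxy
  obtain ⟨h5, h6, E, hE, h7, h8⟩ := h x hx h3
  have h9 := h1 x y h5 hy h4
  have h10 : W (A'.S x ∪ B.S y) ≤ W (A.S x ∪ B.S y) + W E := by
    have f1 := (hA x hx).union (hB y hy)
    refine (W_mono ?_ (f1.union hE)).trans (W_union f1 hE)
    rintro p (hp | hp)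
    · rcases h7 hp with hp | hp
      · exact Or.inl (Or.inl hp)
      · exact Or.inr hp
    · exact Or.inl (Or.inr hp)
  linarith

end Pool.Agent.N746.GR
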