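import Pool.Agent.N746.GR.Maps3

/-!
# Finiteness
-/

set_option autoImplicit false

namespace Pool.Agent.N746.GR

open NumberField IsDedekindDomain Height Real Polynomial Pool.Agent.N757.RD Pool.Agent.N757.TL
open Pool.Agent.N746.RK Pool.Agent.N746.UR

variable {K : Type} [Field K] [NumberField K]

/-- finiteness properties -/
structure Fin' (A : Dat K) : Prop where
  nc : ∀ C : ℝ, {x | A.P x ∧ A.h x ≤ C}.Finite
  fin : ∀ x, A.P x → (A.S x).Finite

theorem D_finite (C : ℝ) : {x : K | D x ≤ C}.Finite :=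
  NumberField.finite_setOfPred_logHeight₁_le K C

theorem fin_of_scale {P : K → Prop} {c : ℝ} (hc : 0 < c) {S : K → Set (HeightOneSpectrum (𝓞 K))}
    (hS : ∀ x, P x → (S x).Finite) : Fin' (⟨P, fun x => c * D x, S⟩ : Dat K) := by
  refine ⟨fun C => (D_finite (C / c)).subset fun x hx => ?_, hS⟩
  have h1 : c * D x ≤ C := hx.2
  change D x ≤ C / c
  rw [le_div_iff₀ hc]
  linarith

theorem fin_dA : Fin' (dA K) := by
  have e : dA K = ⟨fun x => x ≠ 0 ∧ x ≠ 1, fun x => 1 * D x, I⟩ := by
    unfold dA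
    congr
    funext x
    rw [one_mul]
  rw [e]
  exact fin_of_scale one_pos fun x hx => finite_I hx.1 hx.2

theorem fin_dP {P : K[X]} (hP : 2 ≤ P.natDegree) : Fin' (dP P) := by
  have h2 : (2 : ℝ) ≤ P.natDegree := by exact_mod_cast hP
  exact fin_of_scale (by linarith) fun x hx => finite_J hx

theorem fin_dR {n : ℕ} (hn : 2 ≤ n) (k : K) : Fin' (dR n k) := by
  have h2 : (2 : ℝ) ≤ n := by exact_mod_cast hn
  exact fin_of_scale (by linarith) fun x hx => finite_IR hx

theorem fin_dB {n : ℕ} (hn : 2 ≤ n) (k : K) : Fin' (dB n k) := by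
  have h2 : (2 : ℝ) ≤ n := by exact_mod_cast hn
  exact fin_of_scale (by linarith) fun x hx => finite_JR hx.1 hx.2

end Pool.Agent.N746.GR
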