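import Pool.Agent.N746.GR.FormH

/-!
# The inequality for all forms and for one form
-/

set_option autoImplicit false

namespace Pool.Agent.N746.GR

open NumberField IsDedekindDomain Height Real Polynomial Pool.Agent.N757.RD Pool.Agent.N757.TL
open Pool.Agent.N746.RK Pool.Agent.N746.UR

theorem fin_dE0 {K : Type} [Field K] [NumberField K] {P : K[X]} (hP : 3 ≤ P.natDegree) :
    Fin' (dE P 0) := by
  have h2 : (3 : ℝ) ≤ P.natDegree := by exact_mod_cast hP
  exact fin_of_scale (by push_cast; linarith) fun x hx => fin_dE hx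

/-- adding the point `∞` -/
theorem map_inf {K : Type} [Field K] [NumberField K] {P : K[X]} (hP : 3 ≤ P.natDegree) :
    Mapp (dE P 0) (dP P) := by
  have h2 : (3 : ℝ) ≤ P.natDegree := by exact_mod_cast hP
  have h3 : (0 : ℝ) < P.natDegree - 2 := by linarith
  refine ⟨((P.natDegree : ℝ) - 1) / (P.natDegree - 2), 1, X, 1, ∅, ?_, zero_le_one, X_ne_zero,
    one_ne_zero, ?_, Set.finite_empty, ?_, ?_⟩
  · rw [le_div_iff₀ h3]; linarith
  · rw [natDegree_X, natDegree_one]; omega
  · intro x _
    rw [eval_X, eval_one, div_one]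
    linarith
  intro x hx
  right
  rw [eval_X, eval_one, div_one]
  refine ⟨one_ne_zero, hx, ?_, ?_, {v | 1 < FinitePlace.mk v x}, finite_gt x, ?_, ?_⟩
  · simp only [dE, dP]
    push_cast
    have : ((P.natDegree : ℝ) - 1) / (P.natDegree - 2) * ((P.natDegree + 0 - 2) * D x) =
        (P.natDegree - 1) * D x := by
      rw [add_zero]
      field_simp
    rw [this]
    linarith
  · rintro v (hv | hv)
    · exact Or.inl (Or.inl hv.2)
    · exact Or.inl (Or.inr hv)
  · rintro v (hv | hv)
    · exact Or.inr hv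
    · exact Or.inl (Or.inr hv)
  · have h4 := W_gt_le x
    simp only [dE]
    push_cast
    have : (((P.natDegree : ℝ) - 1) / (P.natDegree - 2) - 1) * ((P.natDegree + 0 - 2) * D x) =
        D x := by
      rw [add_zero]
      field_simp
      ring
    rw [this]
    linarith

theorem bd_dA {K : Type} [Field K] [NumberField K] : Bd (dA K) := by
  rw [← dP_three, ← dE_one]
  exact bd_dE _ 1

theorem vh_all {K : Type} [Field K] [NumberField K] (h : VH (dA K)) {P : K[X]}
    (hP : Squarefree P) {e : ℕ} (he : e ≤ 1) (hd : 3 ≤ P.natDegree + e) : VH (dE P e) := by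
  have h2 : 2 ≤ P.natDegree := by omega
  have h1 := VH_dom (dom_all K hP h2) bd_dA h
  rcases (by omega : e = 0 ∨ e = 1) with rfl | rfl
  · exact VH_map (fin_dE0 (by omega)) (map_inf (by omega)) (bd_dE P 0) h1.2
  · rw [dE_one]
    exact h1.2

theorem vh_three {K : Type} [Field K] [NumberField K] :
    VH (dE ((X ^ 2 - X : ℤ[X]).map (Int.castRingHom K)) 1) ↔ VH (dA K) := by
  have e : (X ^ 2 - X : ℤ[X]).map (Int.castRingHom K) = X * (X - 1) := by
    rw [Polynomial.map_sub, Polynomial.map_pow, map_X]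
    ring
  rw [e, dE_one, dP_three]

/-- all forms -/
theorem all_forms (h : QH) {P : ℤ[X]} (hP : Squarefree (P.map (Int.castRingHom ℚ))) {e : ℕ}
    (he : e ≤ 1) (hd : 3 ≤ P.natDegree + e) : Ineq P e := by
  have hP0 : P ≠ 0 := by
    rintro rfl
    rw [Polynomial.map_zero] at hP
    exact hP.ne_zero rfl
  refine ineq_of hP0 hd ?_
  have h1 := vh_of three_ne (by rw [three_deg]) (qh_iff.1 h)
  rw [vh_three] at h1
  refine vh_all h1 hP he ?_
  rw [natDegree_map_eq_of_injective (Int.castRingHom ℚ).injective_int]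
  exact hd

theorem vh_e {K : Type} [Field K] [NumberField K] {P : K[X]} {e : ℕ} (he : 1 ≤ e)
    (h : VH (dE P e)) : VH (dE P 1) := by
  intro ε hε
  obtain ⟨C, hC⟩ := h ε hε
  refine ⟨C, fun x hx => ?_⟩
  have h1 := hC x hx
  have h2 : (dE P 1).S x = (dE P e).S x := by
    ext v
    simp only [dE, Set.mem_ofPred_eq]
    constructor
    · rintro (h | h)
      · exact Or.inl ⟨by omega, h.2⟩
      · exact Or.inr h
    · rintro (h | h)
      · exact Or.inl ⟨by omega, h.2⟩
      · exact Or.inr h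
  have h3 : (dE P 1).h x ≤ (dE P e).h x := by
    simp only [dE]
    refine mul_le_mul_of_nonneg_right ?_ (D_nonneg x)
    have : (1 : ℝ) ≤ e := by exact_mod_cast he
    push_cast
    linarith
  rw [h2]
  linarith

/-- one form -/
theorem one_form {n : ℕ} (hn : 2 ≤ n) {m : ℤ} (hm : Cong n m) {z : ℚ} (hz : z ≠ 0) (c : ℚ)
    {P : ℤ[X]} (hP : P ≠ 0) {e : ℕ} (he : 1 ≤ e)
    (hd : ((X - C c) ^ n - C ((m : ℚ) * z ^ n)) ∣ P.map (Int.castRingHom ℚ)) (h : Ineq P e) :
    QH := by
  have hP' : P.map (Int.castRingHom ℚ) ≠ 0 :=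
    (Polynomial.map_ne_zero_iff (Int.castRingHom ℚ).injective_int).2 hP
  have hdeg : 2 ≤ P.natDegree := by
    have h1 := natDegree_le_of_dvd hd hP'
    have h2 : ((X - C c) ^ n - C ((m : ℚ) * z ^ n) : ℚ[X]).natDegree = n := by
      rw [← root_comp, natDegree_comp, natDegree_X_sub_C, mul_one, natDegree_X_pow_sub_C]
    rw [natDegree_map_eq_of_injective (Int.castRingHom ℚ).injective_int] at h1
    omega
  rw [qh_iff]
  refine ineq_of three_ne (by rw [three_deg]) ?_
  rw [vh_three]
  have h1 := vh_e he (vh_of hP (by omega) h)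
  rw [dE_one] at h1
  have h2 := bd_dE (P.map (Int.castRingHom ℚ)) 1
  rw [dE_one] at h2
  exact (VH_dom (dom_to hn hm hz c hP' hd) h2 h1).2

end Pool.Agent.N746.GR
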