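import Pool.Agent.N746.GR.RatH

/-!
# The inequality for a form
-/

set_option autoImplicit false

namespace Pool.Agent.N746.GR

open NumberField IsDedekindDomain Height Real Polynomial Pool.Agent.N757.RD Pool.Agent.N757.TL
open Pool.Agent.N746.RK Pool.Agent.N746.UR

theorem LL_le_W {K : Type} [Field K] [NumberField K] {A : Set (HeightOneSpectrum (𝓞 K))}
    (hA : A.Finite) : LL A ≤ W A + 2 := by
  obtain ⟨a, ha⟩ : ∃ a, a = W A := ⟨_, rfl⟩
  obtain ⟨k, hk⟩ : ∃ k : ℝ, k = A.ncard := ⟨_, rfl⟩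
  have a0 : 0 ≤ a := by rw [ha]; exact W_nonneg A
  have k0 : 0 ≤ k := by rw [hk]; exact Nat.cast_nonneg _
  have hka : k ≤ 2 * a := by rw [hk, ha]; exact card_le hA
  unfold LL
  rw [← hk, ← ha]
  rcases a0.eq_or_lt with h | h
  · rw [← h]; simp
  have e1 := Real.log_le_sub_one_of_pos (inv_pos.2 h)
  rw [Real.log_inv] at e1
  by_cases h5 : 1 ≤ a
  · have := mul_nonneg k0 (Real.log_nonneg h5)
    linarith
  · have e2 : 0 ≤ a⁻¹ - 1 := by
      rw [sub_nonneg]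
      exact (one_le_inv₀ h).2 (by linarith)
    have e3 : k * -Real.log a ≤ k * (a⁻¹ - 1) := mul_le_mul_of_nonneg_left e1 k0
    have e4 : k * (a⁻¹ - 1) ≤ 2 * a * (a⁻¹ - 1) := mul_le_mul_of_nonneg_right hka e2
    have e5 : 2 * a * (a⁻¹ - 1) = 2 - 2 * a := by
      field_simp
    linarith

theorem bd_dE {K : Type} [Field K] [NumberField K] (P : K[X]) (e : ℕ) : Bd (dE P e) := by
  obtain ⟨C, hC, h⟩ := D_eval_le P.natDegree P le_rfl
  refine ⟨1 + P.natDegree + C, by positivity, fun x hx => ⟨fin_dE hx, ?_⟩⟩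
  have h1 : (dE P e).S x ⊆ {v | 1 < FinitePlace.mk v x} ∪ lows (P.eval x) := by
    rintro v (hv | hv)
    · exact Or.inl hv.2
    · exact Or.inr hv
  have h2 := (W_mono h1 ((finite_gt x).union (finite_lows hx))).trans
    (W_union (finite_gt x) (finite_lows hx))
  have h3 := W_gt_le x
  have h4 := W_lows_le hx
  have h5 := h x
  have h6 := D_nonneg x
  have h7 : 0 ≤ C * D x := mul_nonneg hC h6
  have h8 : (0 : ℝ) ≤ P.natDegree := Nat.cast_nonneg _
  nlinarith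

/-- the height of a quotient -/
theorem D_div {x y : ℤ} (hy : y ≠ 0) (hxy : IsCoprime x y) :
    D ((x : ℚ) / y) = Real.log (max |(x : ℝ)| |(y : ℝ)|) := by
  have key : ∀ x y : ℤ, 0 < y → IsCoprime x y →
      D ((x : ℚ) / y) = Real.log (max |(x : ℝ)| |(y : ℝ)|) := by
    intro x y hy hxy
    have hc : Nat.Coprime x.natAbs y.natAbs := Int.isCoprime_iff_nat_coprime.1 hxy
    have h1 := Rat.num_div_eq_of_coprime hy hc
    have h2 := Rat.den_div_eq_of_coprime hy hc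
    change Height.logHeight₁ ((x : ℚ) / y) = _
    rw [Rat.logHeight₁_eq_log_max, h1]
    have h3 : (((x : ℚ) / y).den : ℤ) = y := h2
    have h4 : (((x : ℚ) / y).den : ℝ) = |(y : ℝ)| := by
      rw [abs_of_pos (by exact_mod_cast hy)]
      exact_mod_cast h3
    push_cast
    rw [h4, Nat.cast_natAbs, Int.cast_abs]
  rcases lt_or_gt_of_ne hy with h | h
  · have h1 := key (-x) (-y) (by omega) hxy.neg_neg
    rw [Int.cast_neg, Int.cast_neg, neg_div_neg_eq] at h1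
    rw [h1, Int.cast_neg, Int.cast_neg, abs_neg, abs_neg]
  · exact key x y h hxy

theorem form_ne {P : ℤ[X]} {e : ℕ} {x y : ℤ} (hy : y ≠ 0) :
    form P e x y ≠ 0 ↔ (P.map (Int.castRingHom ℚ)).eval ((x : ℚ) / y) ≠ 0 := by
  have hy' : (y : ℚ) ≠ 0 := by exact_mod_cast hy
  have h1 : form P e x y ≠ 0 ↔ ((form P e x y : ℤ) : ℚ) ≠ 0 := by
    rw [ne_eq, ne_eq, Int.cast_eq_zero]
  rw [h1, form_cast P e hy]
  constructor
  · exact right_ne_zero_of_mul
  · exact mul_ne_zero (pow_ne_zero _ hy')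

theorem form_close {P : ℤ[X]} (hP : P ≠ 0) (e : ℕ) {ε : ℝ} (hε : 0 < ε) : ∃ C : ℝ, 0 ≤ C ∧
    ∀ x y : ℤ, y ≠ 0 → IsCoprime x y → form P e x y ≠ 0 →
      |LL ((dE (P.map (Int.castRingHom ℚ)) e).S ((x : ℚ) / y)) -
        Real.log (HH (form P e x y).natAbs)| ≤ ε * D ((x : ℚ) / y) + C := by
  have hP' : P.map (Int.castRingHom ℚ) ≠ 0 :=
    (Polynomial.map_ne_zero_iff (Int.castRingHom ℚ).injective_int).2 hP
  obtain ⟨B, hB⟩ : ∃ B : Set (HeightOneSpectrum (𝓞 ℚ)),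
    B = {v | ¬ gd (P.map (Int.castRingHom ℚ)) v} := ⟨_, rfl⟩
  have hBf : B.Finite := by rw [hB]; exact finite_gd hP'
  obtain ⟨c, hc, hbd⟩ := bd_dE (P.map (Int.castRingHom ℚ)) e
  obtain ⟨γ, hγ⟩ : ∃ γ : ℝ, γ = 4 * W B + B.ncard + 6 := ⟨_, rfl⟩
  have hWB := W_nonneg B
  have hγ0 : 0 < γ := by
    rw [hγ]
    positivity
  obtain ⟨C₂, hC₂, h2⟩ := log_small (show 0 ≤ c + W B by positivity) (show 0 < ε / γ by positivity)
  refine ⟨W B + γ * (1 + C₂), by positivity, fun x y hy hxy hf => ?_⟩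
  have hx := (form_ne hy).1 hf
  have hf' : ((form P e x y : ℤ) : ℚ) ≠ 0 := by exact_mod_cast hf
  have hmem : ∀ v, v ∉ B → (v ∈ lows ((form P e x y : ℤ) : ℚ) ↔
      v ∈ (dE (P.map (Int.castRingHom ℚ)) e).S ((x : ℚ) / y)) := by
    intro v hv
    rw [hB, Set.mem_ofPred_eq, not_not] at hv
    exact form_mem P e hy hxy v hv
  obtain ⟨f1, f2⟩ := hbd _ hx
  have f3 := finite_lows hf'
  obtain ⟨S, hS⟩ : ∃ S, S = (dE (P.map (Int.castRingHom ℚ)) e).S ((x : ℚ) / y) := ⟨_, rfl⟩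
  rw [← hS] at f1 f2 hmem ⊢
  have i1 : S ⊆ lows ((form P e x y : ℤ) : ℚ) ∪ B := by
    intro v hv
    by_cases hvB : v ∈ B
    · exact Or.inr hvB
    · exact Or.inl ((hmem v hvB).2 hv)
  have i2 : lows ((form P e x y : ℤ) : ℚ) ⊆ S ∪ B := by
    intro v hv
    by_cases hvB : v ∈ B
    · exact Or.inr hvB
    · exact Or.inl ((hmem v hvB).1 hv)
  have g1 := LL_le f1 f3 hBf hBf i1 i2
  have g2 := LL_le f3 f1 hBf hBf i2 i1
  rw [LL_lows hf, ← hγ] at g1 g2
  have hD := D_nonneg ((x : ℚ) / y)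
  have w1 : W (lows ((form P e x y : ℤ) : ℚ)) ≤ W S + W B :=
    (W_mono i2 (f1.union hBf)).trans (W_union f1 hBf)
  have w2 := mul_nonneg hWB hD
  have k1 := h2 (D ((x : ℚ) / y)) (W S) hD (W_nonneg _) (by nlinarith)
  have k2 := h2 (D ((x : ℚ) / y)) (W (lows ((form P e x y : ℤ) : ℚ))) hD (W_nonneg _)
    (by nlinarith)
  have l1 := mul_le_mul_of_nonneg_left k1 hγ0.le
  have l2 := mul_le_mul_of_nonneg_left k2 hγ0.le
  have l3 : γ * (ε / γ * D ((x : ℚ) / y) + C₂) = ε * D ((x : ℚ) / y) + γ * C₂ := by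
    field_simp
  rw [l3] at l1 l2
  rw [abs_le]
  constructor
  · nlinarith
  · nlinarith

/-- the inequality for a form -/
def Ineq (P : ℤ[X]) (e : ℕ) : Prop :=
  ∀ ε : ℝ, 0 < ε → ∃ C : ℝ, ∀ x y : ℤ, IsCoprime x y → form P e x y ≠ 0 →
    (max |(x : ℝ)| |(y : ℝ)|) ^ (P.natDegree + e - 2) < C * HH (form P e x y).natAbs ^ (1 + ε)

theorem max_ge {x y : ℤ} (hy : y ≠ 0) : (1 : ℝ) ≤ max |(x : ℝ)| |(y : ℝ)| := by
  refine le_max_of_le_right ?_
  have : (1 : ℤ) ≤ |y| := Int.one_le_abs hy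
  exact_mod_cast this

theorem ineq_of {P : ℤ[X]} (hP : P ≠ 0) {e : ℕ} (hd : 3 ≤ P.natDegree + e)
    (hV : VH (dE (P.map (Int.castRingHom ℚ)) e)) : Ineq P e := by
  have hdeg : (P.map (Int.castRingHom ℚ)).natDegree = P.natDegree :=
    natDegree_map_eq_of_injective (Int.castRingHom ℚ).injective_int P
  obtain ⟨k, hk⟩ : ∃ k, k = P.natDegree + e - 2 := ⟨_, rfl⟩
  have hk1 : (1 : ℝ) ≤ k := by
    have : 1 ≤ k := by omega
    exact_mod_cast this
  have hkR : (P.natDegree : ℝ) + e - 2 = k := by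
    have : P.natDegree + e = k + 2 := by omega
    have h2 : (P.natDegree : ℝ) + e = k + 2 := by exact_mod_cast this
    linarith
  intro ε hε
  obtain ⟨ε', hε'⟩ : ∃ ε' : ℝ, ε' = k * ε / (2 * (1 + ε)) := ⟨_, rfl⟩
  have hε'0 : 0 < ε' := by rw [hε']; positivity
  have hε'1 : (1 + ε) * (k - 2 * ε') = k := by
    rw [hε']
    field_simp
    ring
  obtain ⟨C₁, h1⟩ := hV ε' hε'0
  obtain ⟨C₂, hC₂, h2⟩ := form_close hP e hε'0
  have hH : ∀ n : ℕ, 0 < HH n ^ (1 + ε) := fun n => Real.rpow_pos_of_pos (HH_pos n) _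
  have hH1 := hH (form P e 1 0).natAbs
  have hH2 := hH (form P e (-1) 0).natAbs
  have hE : 0 < Real.exp ((1 + ε) * (C₁ + C₂)) := Real.exp_pos _
  refine ⟨Real.exp ((1 + ε) * (C₁ + C₂)) + 1 + (HH (form P e 1 0).natAbs ^ (1 + ε))⁻¹ +
    (HH (form P e (-1) 0).natAbs ^ (1 + ε))⁻¹, fun x y hxy hf => ?_⟩
  rw [← hk]
  have hHx := hH (form P e x y).natAbs
  have i1 := inv_pos.2 hH1
  have i2 := inv_pos.2 hH2
  by_cases hy : y = 0
  · subst hy
    have hx := hxy.isUnit_of_dvd' dvd_rfl (dvd_zero x)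
    rcases Int.isUnit_iff.1 hx with rfl | rfl
    · have e1 := mul_inv_cancel₀ hH1.ne'
      have e2 : (max |((1 : ℤ) : ℝ)| |((0 : ℤ) : ℝ)|) ^ k = 1 := by simp
      rw [e2]
      nlinarith [mul_pos hE hH1, mul_pos i2 hH1]
    · have e1 := mul_inv_cancel₀ hH2.ne'
      have e2 : (max |((-1 : ℤ) : ℝ)| |((0 : ℤ) : ℝ)|) ^ k = 1 := by simp
      rw [e2]
      nlinarith [mul_pos hE hH2, mul_pos i1 hH2]
  · have h3 := h1 ((x : ℚ) / y) ((form_ne hy).1 hf)
    have h4 := (abs_le.1 (h2 x y hy hxy hf)).2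
    have h5 : (dE (P.map (Int.castRingHom ℚ)) e).h ((x : ℚ) / y) = k * D ((x : ℚ) / y) := by
      simp only [dE]
      rw [hdeg, hkR]
    rw [h5] at h3
    have h6 : (k - 2 * ε') * D ((x : ℚ) / y) ≤
        Real.log (HH (form P e x y).natAbs) + (C₁ + C₂) := by linarith
    have h7 : (1 + ε) * ((k - 2 * ε') * D ((x : ℚ) / y)) ≤
        (1 + ε) * (Real.log (HH (form P e x y).natAbs) + (C₁ + C₂)) :=
      mul_le_mul_of_nonneg_left h6 (by linarith)
    rw [← mul_assoc, hε'1] at h7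
    have hm := max_ge (x := x) hy
    have h8 : (max |(x : ℝ)| |(y : ℝ)|) ^ k = Real.exp (k * D ((x : ℚ) / y)) := by
      rw [D_div hy hxy, mul_comm, Real.exp_mul, Real.exp_log (by linarith), Real.rpow_natCast]
    have h9 : Real.exp ((1 + ε) * (Real.log (HH (form P e x y).natAbs) + (C₁ + C₂))) =
        Real.exp ((1 + ε) * (C₁ + C₂)) * HH (form P e x y).natAbs ^ (1 + ε) := by
      rw [mul_add, Real.exp_add, mul_comm (1 + ε) (Real.log _), Real.exp_mul,
        Real.exp_log (HH_pos _), mul_comm]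
    rw [h8]
    refine (Real.exp_le_exp.2 h7).trans_lt ?_
    rw [h9]
    have : 0 < (1 + (HH (form P e 1 0).natAbs ^ (1 + ε))⁻¹ +
      (HH (form P e (-1) 0).natAbs ^ (1 + ε))⁻¹) * HH (form P e x y).natAbs ^ (1 + ε) := by
      positivity
    nlinarith

theorem vh_of {P : ℤ[X]} (hP : P ≠ 0) {e : ℕ} (hd : 3 ≤ P.natDegree + e) (h : Ineq P e) :
    VH (dE (P.map (Int.castRingHom ℚ)) e) := by
  have hdeg : (P.map (Int.castRingHom ℚ)).natDegree = P.natDegree :=
    natDegree_map_eq_of_injective (Int.castRingHom ℚ).injective_int P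
  obtain ⟨k, hk⟩ : ∃ k, k = P.natDegree + e - 2 := ⟨_, rfl⟩
  have hkR : (P.natDegree : ℝ) + e - 2 = k := by
    have : P.natDegree + e = k + 2 := by omega
    have h2 : (P.natDegree : ℝ) + e = k + 2 := by exact_mod_cast this
    linarith
  obtain ⟨c, hc, hbd⟩ := bd_dE (P.map (Int.castRingHom ℚ)) e
  obtain ⟨C₂, hC₂, h2⟩ := form_close hP e one_pos
  intro ε hε
  obtain ⟨C₃, hC₃, h3⟩ := form_close hP e (half_pos hε)
  obtain ⟨c', hc'⟩ : ∃ c', c' = c + 1 + C₂ + 2 := ⟨_, rfl⟩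
  have hc'0 : 0 < c' := by rw [hc']; positivity
  obtain ⟨C, hC⟩ := h (ε / 2 / c') (by positivity)
  refine ⟨Real.log C + C₃ + ε, fun t ht => ?_⟩
  obtain ⟨x, y, hy0, hxy, rfl⟩ : ∃ x y : ℤ, y ≠ 0 ∧ IsCoprime x y ∧ (x : ℚ) / y = t := by
    refine ⟨t.num, t.den, by exact_mod_cast t.den_nz, ?_, ?_⟩
    · rw [Int.isCoprime_iff_nat_coprime, Int.natAbs_natCast]
      exact t.reduced
    · rw [Int.cast_natCast]
      exact t.num_div_den
  have hf := (form_ne (e := e) hy0).2 ht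
  have h4 := hC x y hxy hf
  rw [← hk] at h4
  have hm := max_ge (x := x) hy0
  have hHp := HH_pos (form P e x y).natAbs
  have hHe := Real.rpow_pos_of_pos hHp (1 + ε / 2 / c')
  have hmk : 0 < (max |(x : ℝ)| |(y : ℝ)|) ^ k := by positivity
  have hC0 : 0 < C := by
    by_contra hcon
    have := mul_nonpos_of_nonpos_of_nonneg (not_lt.1 hcon) hHe.le
    linarith
  have h5 := Real.log_le_log hmk h4.le
  rw [Real.log_pow, Real.log_mul hC0.ne' hHe.ne', Real.log_rpow hHp, ← D_div hy0 hxy] at h5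
  have h6 := (abs_le.1 (h2 x y hy0 hxy hf)).1
  have h7 := (abs_le.1 (h3 x y hy0 hxy hf)).1
  obtain ⟨f1, f2⟩ := hbd _ ht
  have h8 := LL_le_W f1
  have hD := D_nonneg ((x : ℚ) / y)
  have h9 : Real.log (HH (form P e x y).natAbs) ≤ c' * D ((x : ℚ) / y) + c' := by
    rw [hc']
    have : 0 ≤ (C₂ + 2) * D ((x : ℚ) / y) := by positivity
    nlinarith
  have h10 : ε / 2 / c' * Real.log (HH (form P e x y).natAbs) ≤
      ε / 2 * D ((x : ℚ) / y) + ε / 2 := by
    have e1 : ε / 2 / c' * Real.log (HH (form P e x y).natAbs) ≤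
        ε / 2 / c' * (c' * D ((x : ℚ) / y) + c') :=
      mul_le_mul_of_nonneg_left h9 (by positivity)
    have e2 : ε / 2 / c' * (c' * D ((x : ℚ) / y) + c') = ε / 2 * D ((x : ℚ) / y) + ε / 2 := by
      field_simp
    linarith
  have h11 : (dE (P.map (Int.castRingHom ℚ)) e).h ((x : ℚ) / y) = k * D ((x : ℚ) / y) := by
    simp only [dE]
    rw [hdeg, hkR]
  rw [h11]
  nlinarith

/-- The inequality of the problem. -/
def QH : Prop :=
  ∀ ε : ℝ, 0 < ε → ∃ C : ℝ, ∀ a b c : ℕ, 0 < a → 0 < b → a + b = c → Nat.gcd (Nat.gcd a b) c = 1 →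
    (c : ℝ) < C * HH (a * b * c) ^ (1 + ε)

theorem form_three (x y : ℤ) : form (X ^ 2 - X) 1 x y = x * y * (x - y) := by
  have hd : (X ^ 2 - X : ℤ[X]).natDegree = 2 := by
    rw [natDegree_sub_eq_left_of_natDegree_lt, natDegree_X_pow]
    rw [natDegree_X, natDegree_X_pow]
    norm_num
  rw [form, hd]
  simp only [Finset.sum_range_succ, Finset.sum_range_zero, coeff_sub, coeff_X_pow, coeff_X]
  norm_num
  ring

theorem three_ne : (X ^ 2 - X : ℤ[X]) ≠ 0 := by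
  intro h
  have := congrArg (fun P : ℤ[X] => P.eval 2) h
  simp at this

theorem three_deg : (X ^ 2 - X : ℤ[X]).natDegree = 2 := by
  rw [natDegree_sub_eq_left_of_natDegree_lt, natDegree_X_pow]
  rw [natDegree_X, natDegree_X_pow]
  norm_num

theorem qh_iff : QH ↔ Ineq (X ^ 2 - X) 1 := by
  constructor
  · intro h ε hε
    obtain ⟨C, hC⟩ := h ε hε
    refine ⟨C, fun x y hxy hf => ?_⟩
    rw [three_deg]
    rw [form_three] at hf ⊢
    have hx : x ≠ 0 := by rintro rfl; simp at hf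
    have hy : y ≠ 0 := by rintro rfl; simp at hf
    have hd : x - y ≠ 0 := by intro h0; rw [h0] at hf; simp at hf
    have hcop : Nat.Coprime x.natAbs y.natAbs := Int.isCoprime_iff_nat_coprime.1 hxy
    have e1 : |(x : ℝ)| = (x.natAbs : ℝ) := by rw [Nat.cast_natAbs, Int.cast_abs]
    have e2 : |(y : ℝ)| = (y.natAbs : ℝ) := by rw [Nat.cast_natAbs, Int.cast_abs]
    have e3 : (x * y * (x - y)).natAbs = x.natAbs * y.natAbs * (x - y).natAbs := by
      rw [Int.natAbs_mul, Int.natAbs_mul]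
    rw [e1, e2, e3, show 2 + 1 - 2 = 1 from rfl, pow_one]
    have hx0 : 0 < x.natAbs := Int.natAbs_pos.2 hx
    have hy0 : 0 < y.natAbs := Int.natAbs_pos.2 hy
    have hd0 : 0 < (x - y).natAbs := Int.natAbs_pos.2 hd
    have hgcd : ∀ a b c : ℕ, Nat.Coprime a b → Nat.gcd (Nat.gcd a b) c = 1 := by
      intro a b c h
      rw [h, Nat.gcd_one_left]
    obtain ⟨p, hp⟩ : ∃ p, p = x.natAbs := ⟨_, rfl⟩
    obtain ⟨q, hq⟩ : ∃ q, q = y.natAbs := ⟨_, rfl⟩
    obtain ⟨r, hr⟩ : ∃ r, r = (x - y).natAbs := ⟨_, rfl⟩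
    have hor : x.natAbs + y.natAbs = (x - y).natAbs ∨ y.natAbs + (x - y).natAbs = x.natAbs ∨
        x.natAbs + (x - y).natAbs = y.natAbs := by omega
    rw [← hp, ← hq, ← hr] at hor
    rw [← hp, ← hq, ← hr]
    rw [← hp] at hx0 hcop
    rw [← hq] at hy0 hcop
    rw [← hr] at hd0
    rcases hor with h1 | h1 | h1
    · have h2 := hC p q r hx0 hy0 h1 (hgcd _ _ _ hcop)
      refine lt_of_le_of_lt (max_le ?_ ?_) h2
      · exact_mod_cast (by omega : p ≤ r)
      · exact_mod_cast (by omega : q ≤ r)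
    · have hc2 : Nat.gcd (Nat.gcd q r) p = 1 := by
        rw [Nat.gcd_assoc, Nat.gcd_comm r p, ← Nat.gcd_assoc, hcop.symm, Nat.gcd_one_left]
      have h2 := hC q r p hy0 hd0 h1 hc2
      rw [show q * r * p = p * q * r by ring] at h2
      refine lt_of_le_of_lt (max_le le_rfl ?_) h2
      exact_mod_cast (by omega : q ≤ p)
    · have hc2 : Nat.gcd (Nat.gcd p r) q = 1 := by
        rw [Nat.gcd_assoc, Nat.gcd_comm r q, ← Nat.gcd_assoc, hcop, Nat.gcd_one_left]
      have h2 := hC p r q hx0 hd0 h1 hc2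
      rw [show p * r * q = p * q * r by ring] at h2
      refine lt_of_le_of_lt (max_le ?_ le_rfl) h2
      exact_mod_cast (by omega : p ≤ q)
  · intro h ε hε
    obtain ⟨C, hC⟩ := h ε hε
    refine ⟨C, fun a b c ha hb habc hg => ?_⟩
    have hcop : Nat.Coprime c a := by
      rw [Nat.Coprime]
      rw [← habc] at hg ⊢
      have h1 : (a + b).gcd a = b.gcd a := by
        rw [add_comm, Nat.gcd_add_self_left]
      have h2 : (Nat.gcd a b) ∣ a + b := Nat.dvd_add (Nat.gcd_dvd_left _ _) (Nat.gcd_dvd_right _ _)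
      rw [Nat.gcd_eq_left h2] at hg
      rw [h1, Nat.gcd_comm, hg]
    have h1 := hC c a (Int.isCoprime_iff_nat_coprime.2 (by simpa using hcop)) (by
      rw [form_three]
      have : (c : ℤ) - a = b := by omega
      rw [this]
      have : 0 < (c : ℤ) * a * b := by
        have : 0 < c := by omega
        positivity
      exact this.ne')
    rw [form_three, three_deg, show 2 + 1 - 2 = 1 from rfl, pow_one] at h1
    have e1 : ((c : ℤ) * a * (c - a)).natAbs = a * b * c := by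
      have : (c : ℤ) - a = b := by omega
      rw [this]
      have e2 : (c : ℤ) * a * b = ((a * b * c : ℕ) : ℤ) := by push_cast; ring
      rw [e2, Int.natAbs_natCast]
    rw [e1] at h1
    refine lt_of_le_of_lt ?_ h1
    refine le_max_of_le_left ?_
    simp

end Pool.Agent.N746.GR
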