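import Pool.Agent.N746.GR.Belyi2
import Pool.Agent.N746.GR.Any

/-!
# Radicals divided by a power of their logarithm
-/

set_option autoImplicit false

namespace Pool.Agent.N746.GR

open NumberField IsDedekindDomain Height Real Polynomial Pool.Agent.N757.RD Pool.Agent.N757.TL
open Pool.Agent.N746.RK Pool.Agent.N746.UR

variable {K : Type} [Field K] [NumberField K]

/-- the logarithm of `γ / (log γ) ^ ω` -/
noncomputable def LL (A : Set (HeightOneSpectrum (𝓞 K))) : ℝ := W A - A.ncard * Real.log (W A)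

theorem card_le {A : Set (HeightOneSpectrum (𝓞 K))} (hA : A.Finite) : (A.ncard : ℝ) ≤ 2 * W A := by
  rw [W_eq hA, Set.ncard_eq_toFinset_card A hA, Finset.mul_sum]
  rw [← nsmul_one, ← Finset.sum_const]
  refine Finset.sum_le_sum fun p _ => ?_
  have h1 : (2 : ℝ) ≤ (Ideal.absNorm p.asIdeal : ℝ) := by
    have := HeightOneSpectrum.one_lt_absNorm p
    exact_mod_cast this
  have h2 := Real.log_le_log (by norm_num) h1
  have h3 := Real.log_two_gt_d9
  linarith

theorem LL_le {A A' B E : Set (HeightOneSpectrum (𝓞 K))} (hA : A.Finite) (hA' : A'.Finite)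
    (hB : B.Finite) (hE : E.Finite) (h1 : A ⊆ A' ∪ B) (h2 : A' ⊆ A ∪ E) :
    LL A' ≤ LL A + W E + (4 * W B + B.ncard + 6) * (1 + Real.log (1 + W A)) := by
  obtain ⟨a, ha⟩ : ∃ a, a = W A := ⟨_, rfl⟩
  obtain ⟨a', ha'⟩ : ∃ a', a' = W A' := ⟨_, rfl⟩
  obtain ⟨b, hb⟩ : ∃ b, b = W B := ⟨_, rfl⟩
  obtain ⟨k, hk⟩ : ∃ k : ℝ, k = A.ncard := ⟨_, rfl⟩
  obtain ⟨k', hk'⟩ : ∃ k' : ℝ, k' = A'.ncard := ⟨_, rfl⟩
  obtain ⟨β, hβ⟩ : ∃ β : ℝ, β = B.ncard := ⟨_, rfl⟩
  have a0 : 0 ≤ a := by rw [ha]; exact W_nonneg A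
  have a0' : 0 ≤ a' := by rw [ha']; exact W_nonneg A'
  have b0 : 0 ≤ b := by rw [hb]; exact W_nonneg B
  have k0 : 0 ≤ k := by rw [hk]; exact Nat.cast_nonneg _
  have k0' : 0 ≤ k' := by rw [hk']; exact Nat.cast_nonneg _
  have β0 : 0 ≤ β := by rw [hβ]; exact Nat.cast_nonneg _
  have hka : k ≤ 2 * a := by rw [hk, ha]; exact card_le hA
  have hka' : k' ≤ 2 * a' := by rw [hk', ha']; exact card_le hA'
  have hkk : k ≤ k' + β := by
    rw [hk, hk', hβ]
    have h3 := (Set.ncard_le_ncard h1 (hA'.union hB)).trans (Set.ncard_union_le A' B)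
    exact_mod_cast h3
  have haa : a ≤ a' + b := by
    rw [ha, ha', hb]
    exact (W_mono h1 (hA'.union hB)).trans (W_union hA' hB)
  have haa' : a' ≤ a + W E := by
    rw [ha, ha']
    exact (W_mono h2 (hA.union hE)).trans (W_union hA hE)
  have hl0 : 0 ≤ Real.log (1 + a) := Real.log_nonneg (by linarith)
  unfold LL
  rw [← hk, ← hk', ← ha, ← ha', ← hb, ← hβ]
  suffices h : k * Real.log a - k' * Real.log a' ≤ (4 * b + β + 6) * (1 + Real.log (1 + a)) by
    linarith
  have hla : Real.log a ≤ Real.log (1 + a) := by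
    rcases a0.eq_or_lt with h | h
    · rw [← h]; simp
    · exact Real.log_le_log h (by linarith)
  rcases le_or_gt (2 * b + 2) a with hc | hc
  · have h3 : a / 2 ≤ a - b := by linarith
    have h4 : 0 < a - b := by linarith
    have h5 : 1 ≤ a - b := by linarith
    have h6 : 0 ≤ Real.log (a - b) := Real.log_nonneg h5
    have h7 : Real.log (a - b) ≤ Real.log a' := Real.log_le_log h4 (by linarith)
    have h8 : Real.log (a - b) ≤ Real.log (1 + a) := Real.log_le_log h4 (by linarith)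
    have h9 : Real.log a ≤ Real.log (a - b) + 2 * b / a := by
      have e1 : Real.log a - Real.log (a - b) = Real.log (a / (a - b)) := by
        rw [Real.log_div (by linarith) h4.ne']
      have e2 := Real.log_le_sub_one_of_pos (div_pos (by linarith : 0 < a) h4)
      have e3 : a / (a - b) - 1 = b / (a - b) := by
        rw [div_sub_one h4.ne', sub_sub_cancel]
      have e4 : b / (a - b) ≤ 2 * b / a := by
        rw [div_le_div_iff₀ h4 (by linarith)]
        nlinarith
      linarith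
    have h10 : k * (2 * b / a) ≤ 4 * b := by
      have e1 : k * (2 * b / a) ≤ 2 * a * (2 * b / a) :=
        mul_le_mul_of_nonneg_right hka (by positivity)
      have ha0 : a ≠ 0 := by
        intro h
        linarith
      have e2 : 2 * a * (2 * b / a) = 4 * b := by
        field_simp
        ring
      linarith
    have h11 : (k - β) * Real.log (a - b) ≤ k' * Real.log a' := by
      calc (k - β) * Real.log (a - b) ≤ k' * Real.log (a - b) :=
            mul_le_mul_of_nonneg_right (by linarith) h6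
        _ ≤ k' * Real.log a' := mul_le_mul_of_nonneg_left h7 k0'
    have h12 : k * Real.log a ≤ k * (Real.log (a - b) + 2 * b / a) :=
      mul_le_mul_of_nonneg_left h9 k0
    have h13 : β * Real.log (a - b) ≤ β * Real.log (1 + a) := mul_le_mul_of_nonneg_left h8 β0
    have h14 : 0 ≤ b * Real.log (1 + a) := mul_nonneg b0 hl0
    nlinarith
  · have h3 : k * Real.log a ≤ (4 * b + 4) * Real.log (1 + a) := by
      calc k * Real.log a ≤ k * Real.log (1 + a) := mul_le_mul_of_nonneg_left hla k0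
        _ ≤ _ := mul_le_mul_of_nonneg_right (by linarith) hl0
    have h4 : -(k' * Real.log a') ≤ 2 := by
      rcases a0'.eq_or_lt with h | h
      · rw [← h]; simp
      have e1 := Real.log_le_sub_one_of_pos (inv_pos.2 h)
      rw [Real.log_inv] at e1
      by_cases h5 : 1 ≤ a'
      · have := mul_nonneg k0' (Real.log_nonneg h5)
        linarith
      · have e2 : 0 ≤ a'⁻¹ - 1 := by
          rw [sub_nonneg]
          exact (one_le_inv₀ h).2 (by linarith)
        have e3 : k' * -Real.log a' ≤ k' * (a'⁻¹ - 1) := mul_le_mul_of_nonneg_left e1 k0'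
        have e4 : k' * (a'⁻¹ - 1) ≤ 2 * a' * (a'⁻¹ - 1) := mul_le_mul_of_nonneg_right hka' e2
        have e5 : 2 * a' * (a'⁻¹ - 1) = 2 - 2 * a' := by
          field_simp
        linarith
    have h14 : 0 ≤ β * Real.log (1 + a) := mul_nonneg β0 hl0
    nlinarith

/-- the radical is bounded by the height -/
def Bd (A : Dat K) : Prop := ∃ c : ℝ, 0 ≤ c ∧ ∀ x, A.P x → (A.S x).Finite ∧ W (A.S x) ≤ c * D x + c

/-- the inequality for `γ / (log γ) ^ ω` -/
def VH (A : Dat K) : Prop :=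
  ∀ ε : ℝ, 0 < ε → ∃ C : ℝ, ∀ x, A.P x → A.h x ≤ LL (A.S x) + ε * D x + C

theorem log_small {c ε : ℝ} (hc : 0 ≤ c) (hε : 0 < ε) : ∃ C : ℝ, 0 ≤ C ∧ ∀ d w : ℝ, 0 ≤ d → 0 ≤ w →
    w ≤ c * d + c → Real.log (1 + w) ≤ ε * d + C := by
  refine ⟨max (Real.log (1 + c) + ε - 1 - Real.log ε) 0, le_max_right _ _, fun d w hd hw h => ?_⟩
  have h1 : Real.log (1 + w) ≤ Real.log ((1 + c) * (1 + d)) := by
    apply Real.log_le_log (by linarith)
    nlinarith
  rw [Real.log_mul (by linarith) (by linarith)] at h1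
  have h2 := Real.log_le_sub_one_of_pos (mul_pos (by linarith : (0 : ℝ) < 1 + d) hε)
  rw [Real.log_mul (by linarith) hε.ne'] at h2
  have h3 := le_max_left (Real.log (1 + c) + ε - 1 - Real.log ε) 0
  nlinarith

theorem Bd_map {A A' : Dat K} (hA : Fin' A) (h : Mapp A A') (hV : Bd A') : Bd A := by
  obtain ⟨N, C, F, G, B, hN, hC, hF, hG, hd, hB, hD, H⟩ := h
  obtain ⟨c, hc, h1⟩ := hV
  obtain ⟨M, hM⟩ := ((hA.nc C).image fun x => W (A.S x)).bddAbove
  obtain ⟨c', hc'⟩ : ∃ c', c' = max M 0 + (c * C + c + W B) := ⟨_, rfl⟩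
  have hWB := W_nonneg B
  have h0 : 0 ≤ max M 0 := le_max_right _ _
  have hcC : 0 ≤ c * C := mul_nonneg hc hC
  refine ⟨c', by rw [hc']; positivity, fun x hx => ⟨hA.fin x hx, ?_⟩⟩
  have hDx := D_nonneg x
  have hc'0 : 0 ≤ c' := by rw [hc']; positivity
  rcases H x hx with h6 | ⟨h6, h7, h8, h9, E, hE, h10, h11⟩
  · have h2 : W (A.S x) ≤ M := hM ⟨x, ⟨hx, h6⟩, rfl⟩
    have h3 := le_max_left M 0
    have h4 : 0 ≤ c' * D x := mul_nonneg hc'0 hDx
    linarith
  · obtain ⟨h2, h3⟩ := h1 _ h7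
    have h4 := (W_mono h9 (h2.union hB)).trans (W_union h2 hB)
    have h5 := hD x h6
    have h12 : c * D (F.eval x / G.eval x) ≤ c * (C * D x + C) := mul_le_mul_of_nonneg_left h5 hc
    have h13 : c * C * D x ≤ c' * D x := by
      refine mul_le_mul_of_nonneg_right ?_ hDx
      rw [hc']
      linarith
    have h14 : c * C + c + W B ≤ c' := by rw [hc']; linarith
    nlinarith

theorem VH_map {A A' : Dat K} (hA : Fin' A) (h : Mapp A A') (hBd : Bd A) (hV : VH A') : VH A := by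
  obtain ⟨N, C, F, G, B, hN, hC, hF, hG, hd, hB, hD, H⟩ := h
  obtain ⟨c, hc, hbd⟩ := hBd
  obtain ⟨γ, hγ⟩ : ∃ γ : ℝ, γ = 4 * W B + B.ncard + 6 := ⟨_, rfl⟩
  have hWB := W_nonneg B
  have hγ0 : 0 < γ := by
    rw [hγ]
    positivity
  intro ε hε
  obtain ⟨C₁, h1⟩ := hV (ε / 2 / (C + 1)) (by positivity)
  obtain ⟨C₂, hC₂, h2⟩ := log_small hc (show 0 < ε / 2 / γ by positivity)
  obtain ⟨M, hM⟩ := ((hA.nc C).image fun x => A.h x - LL (A.S x)).bddAbove
  refine ⟨max M (C + C + C₁ + ε + γ * (1 + C₂)), fun x hx => ?_⟩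
  have hDx := D_nonneg x
  rcases H x hx with h6 | ⟨h6, h7, h8, h9, E, hE, h10, h11⟩
  · have h3 : A.h x - LL (A.S x) ≤ M := hM ⟨x, ⟨hx, h6⟩, rfl⟩
    have h4 := le_max_left M (C + C + C₁ + ε + γ * (1 + C₂))
    have h5 : 0 ≤ ε * D x := by positivity
    linarith
  have hfin := hA.fin x hx
  have hfin' : (A'.S (F.eval x / G.eval x)).Finite := (hfin.union hE).subset h10
  have h12 := h1 _ h7
  have h13 := LL_le hfin hfin' hB hE h9 h10
  rw [← hγ] at h13
  have h14 := h2 (D x) (W (A.S x)) hDx (W_nonneg _) (hbd x hx).2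
  have h15 : γ * (1 + Real.log (1 + W (A.S x))) ≤ γ * (1 + (ε / 2 / γ * D x + C₂)) :=
    mul_le_mul_of_nonneg_left (by linarith) hγ0.le
  have h16 : γ * (1 + (ε / 2 / γ * D x + C₂)) = γ * (1 + C₂) + ε / 2 * D x := by
    field_simp
    ring
  have h17 := hD x h6
  have h18 : ε / 2 / (C + 1) * D (F.eval x / G.eval x) ≤ ε / 2 * D x + ε := by
    have e1 : ε / 2 / (C + 1) * D (F.eval x / G.eval x) ≤ ε / 2 / (C + 1) * (C * D x + C) :=
      mul_le_mul_of_nonneg_left h17 (by positivity)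
    have e2 : ε / 2 / (C + 1) * (C * D x + C) ≤ ε / 2 * D x + ε := by
      rw [div_mul_eq_mul_div, div_le_iff₀ (by positivity)]
      nlinarith [mul_nonneg hε.le hDx, mul_nonneg (mul_nonneg hε.le hDx) hC]
    linarith
  have h19 := le_max_right M (C + C + C₁ + ε + γ * (1 + C₂))
  linarith

theorem VH_dom {A A' : Dat K} (h : Dom A A') (hBd : Bd A') (hV : VH A') : Bd A ∧ VH A := by
  induction h with
  | refl => exact ⟨hBd, hV⟩
  | tail _ h2 ih =>
    have h3 := Bd_map h2.1 h2.2 hBd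
    exact ih h3 (VH_map h2.1 h2.2 h3 hV)

end Pool.Agent.N746.GR
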