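import Pool.Agent.N746.GR.Basic
import Pool.Agent.N746.UR.Newton
import Pool.Agent.N746.UR.Pos
import Pool.Agent.N746.UR.Neg
import Pool.Agent.N746.RK.Glue

/-!
# The maps
-/

set_option autoImplicit false

namespace Pool.Agent.N746.GR

open NumberField IsDedekindDomain Height Real Polynomial Pool.Agent.N757.RD Pool.Agent.N757.TL
open Pool.Agent.N746.RK

variable {K : Type} [Field K] [NumberField K]

theorem fin_dom {p : HeightOneSpectrum (𝓞 K)} {a b : K}
    (h : FinitePlace.mk p b < FinitePlace.mk p a) :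
    FinitePlace.mk p (a + b) = FinitePlace.mk p a := by
  apply le_antisymm
  · exact (fin_add_le p a b).trans (max_le le_rfl h.le)
  · have h1 := fin_add_le p (a + b) (-b)
    rw [add_neg_cancel_right, map_neg_eq_map] at h1
    rcases le_max_iff.1 h1 with h2 | h2
    · exact h2
    · exact absurd h (not_lt.2 h2)

theorem fin_one_sub_of_lt {p : HeightOneSpectrum (𝓞 K)} {a : K}
    (h : FinitePlace.mk p a < 1) : FinitePlace.mk p (1 - a) = 1 := by
  have h1 : FinitePlace.mk p (-a) < FinitePlace.mk p (1 : K) := by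
    rwa [map_neg_eq_map, map_one]
  have h2 := fin_dom h1
  rwa [← sub_eq_add_neg, map_one] at h2

theorem fin_one_sub_of_gt {p : HeightOneSpectrum (𝓞 K)} {a : K}
    (h : 1 < FinitePlace.mk p a) : FinitePlace.mk p (1 - a) = FinitePlace.mk p a := by
  have h1 : FinitePlace.mk p (1 : K) < FinitePlace.mk p (-a) := by
    rwa [map_neg_eq_map, map_one]
  have h2 := fin_dom h1
  rwa [neg_add_eq_sub, map_neg_eq_map] at h2

/-- **The Newton map.** -/
theorem map_newton {m : ℕ} {k : ℤ} (hk : k ≠ 0) :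
    Mapp (dB (m + 2) ((k : ℤ) : K)) (dR (m + 2) ((k : ℤ) : K)) := by
  set F : ℤ[X] := C ((m : ℤ) + 1) * X ^ (m + 2) + C k with hF
  set G₀ : ℤ[X] := C ((m : ℤ) + 2) * X ^ (m + 1) with hG₀
  have dF : F.natDegree ≤ m + 2 := by
    rw [hF]
    refine (natDegree_add_le _ _).trans (max_le (natDegree_C_mul_X_pow_le _ _) ?_)
    rw [natDegree_C]; omega
  have cF : F.coeff (m + 2) ≠ 0 := by
    rw [hF, coeff_add, coeff_C_mul_X_pow, if_pos rfl, coeff_C_of_ne_zero (by omega), add_zero]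
    omega
  have hBez : (C ((m : ℤ) + 2)) * F + (-(C ((m : ℤ) + 1) * X)) * G₀ = C (((m : ℤ) + 2) * k) := by
    rw [hF, hG₀, C_mul]
    ring
  have hc₀ : ((m : ℤ) + 2) * k ≠ 0 := mul_ne_zero (by omega) hk
  obtain ⟨C1, hC1, hge⟩ := D_ratio_ge dF (by omega) cF hc₀ hBez
  -- the double root
  obtain ⟨G, hG1, hG2⟩ := dneg (C k) (X ^ (m + 2)) (m + 2) (by rw [natDegree_C]; omega)
    (natDegree_X_pow_le _) (m + 2) (by omega)
  simp only [show m + 2 - 1 = m + 1 by omega, show m + 2 - 2 = m by omega] at hG1 hG2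
  have hn0 : ((m : ℤ) + 2) ≠ 0 := by omega
  have hn1 : ((m : ℤ) + 1) ≠ 0 := by omega
  have hd := dg_pos (K := K)
  have hF0 : F ≠ 0 := by intro h; rw [h, coeff_zero] at cF; exact cF rfl
  have hG0 : G₀ ≠ 0 := by
    rw [hG₀]; exact mul_ne_zero (C_ne_zero.2 hn0) (pow_ne_zero _ X_ne_zero)
  have hdeg : F.natDegree ≠ G₀.natDegree := by
    have h1 : m + 2 ≤ F.natDegree := le_natDegree_of_ne_zero cF
    have h2 : G₀.natDegree ≤ m + 1 := natDegree_C_mul_X_pow_le _ _
    omega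
  have l3 : 0 ≤ Real.log (nrm G) := log_nrm_nonneg G
  have hDk := D_nonneg (((k : ℤ) : K))
  have hbad1 := bad_finite (K := K) hn0
  have hbad2 := bad_finite (K := K) hn1
  have hbad3 := bad_finite (K := K) hk
  obtain ⟨w0, hw0⟩ : ∃ w, w = W {p : HeightOneSpectrum (𝓞 K) |
      FinitePlace.mk p (((m : ℤ) + 2 : ℤ) : K) ≠ 1} := ⟨_, rfl⟩
  have hWb : 0 ≤ w0 := by rw [hw0]; exact W_nonneg _
  refine mapp_of F G₀ hF0 hG0 hdeg ((m : ℝ) + 1)
    (((m : ℝ) + 2) * D (((k : ℤ) : K)) + ((m : ℝ) + 1) * (C1 * dg K) + C1 * dg K +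
      Real.log (nrm G) * dg K + w0)
    ({p : HeightOneSpectrum (𝓞 K) | FinitePlace.mk p (((m : ℤ) + 2 : ℤ) : K) ≠ 1} ∪
      ({p : HeightOneSpectrum (𝓞 K) | FinitePlace.mk p (((m : ℤ) + 1 : ℤ) : K) ≠ 1} ∪
      {p : HeightOneSpectrum (𝓞 K) | FinitePlace.mk p ((k : ℤ) : K) ≠ 1}))
    (by have : (0 : ℝ) ≤ m := Nat.cast_nonneg _; linarith) (by positivity)
    (hbad1.union (hbad2.union hbad3)) ?_
  rintro x ⟨hx0, hxk⟩
  have hC1d : 0 ≤ C1 * dg K := by positivity
  have hm1 : 0 ≤ ((m : ℝ) + 1) * (C1 * dg K) := by positivity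
  have hm2 : 0 ≤ ((m : ℝ) + 2) * D (((k : ℤ) : K)) := by positivity
  have hl3 : 0 ≤ Real.log (nrm G) * dg K := mul_nonneg l3 hd.le
  simp only [dB, dR]
  have hFx : aeval x F = ((m : K) + 1) * x ^ (m + 2) + ((k : ℤ) : K) := by
    rw [hF]; simp
  have hGx : aeval x G₀ = ((m : K) + 2) * x ^ (m + 1) := by
    rw [hG₀]; simp [map_ofNat]
  have hnK : ((m : K) + 2) ≠ 0 := by exact_mod_cast hn0
  have hGx0 : aeval x G₀ ≠ 0 := by
    rw [hGx]; exact mul_ne_zero hnK (pow_ne_zero _ hx0)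
  have hgex := hge K x hGx0
  push_cast at hgex
  set y : K := aeval x F / aeval x G₀ with hy
  by_cases hyk : y ^ (m + 2) = ((k : ℤ) : K)
  · left
    have h1 := root_D_le (by omega) hyk
    have h2 := D_nonneg y
    push_cast
    have h3 : D y ≤ ((m : ℝ) + 2) * D (((k : ℤ) : K)) := by
      have : (0 : ℝ) ≤ m := Nat.cast_nonneg _
      nlinarith
    linarith
  right
  have hid : y ^ (m + 2) - ((k : ℤ) : K) =
      (x ^ (m + 2) - ((k : ℤ) : K)) ^ 2 * aeval x G / (aeval x G₀) ^ (m + 2) := by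
    have h1 := congrArg (aeval x) hG1
    simp only [eq_intCast, map_intCast, map_sub, map_mul, map_pow, map_add, aeval_X, map_natCast,
      map_one] at h1
    rw [eq_div_iff (pow_ne_zero _ hGx0), hy, sub_mul, div_pow, div_mul_cancel₀ _ (pow_ne_zero _ hGx0)]
    have e1 : (aeval x F) ^ (m + 2) =
        (((k : ℤ) : K) + (((m + 2 : ℕ) : K) - 1) * x ^ (m + 2)) ^ (m + 2) := by
      rw [hFx]; push_cast; ring
    have e2 : ((k : ℤ) : K) * (aeval x G₀) ^ (m + 2) =
        ((m + 2 : ℕ) : K) ^ (m + 2) * ((k : ℤ) : K) * (x ^ (m + 2)) ^ (m + 1) := by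
      rw [hGx, mul_pow, ← pow_mul, ← pow_mul, mul_comm (m + 1) (m + 2)]; push_cast; ring
    rw [e1, e2, h1]
    ring
  have hGG : aeval x G ≠ 0 := by
    intro h0
    rw [h0, mul_zero, zero_div] at hid
    exact hyk (sub_eq_zero.1 hid)
  refine ⟨hGx0, hyk, ?_, ?_, lows (aeval x G) ∪
    {p : HeightOneSpectrum (𝓞 K) | FinitePlace.mk p (((m : ℤ) + 2 : ℤ) : K) ≠ 1},
    (finite_lows hGG).union hbad1, ?_, ?_⟩
  · push_cast
    have h1 : ((m : ℝ) + 1) * (((m : ℝ) + 2) * D x) ≤ ((m : ℝ) + 1) * (D y + C1 * dg K) :=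
      mul_le_mul_of_nonneg_left hgex (by positivity)
    have : (m : ℝ) + 2 - 1 = m + 1 := by ring
    rw [this]
    linarith
  · intro p hp
    by_cases hpn : FinitePlace.mk p (((m : ℤ) + 2 : ℤ) : K) = 1
    swap
    · exact Or.inr (Or.inl hpn)
    by_cases hpn1 : FinitePlace.mk p (((m : ℤ) + 1 : ℤ) : K) = 1
    swap
    · exact Or.inr (Or.inr (Or.inl hpn1))
    by_cases hpk : FinitePlace.mk p ((k : ℤ) : K) = 1
    swap
    · exact Or.inr (Or.inr (Or.inr hpk))
    left
    have e1 : (((m : ℤ) + 2 : ℤ) : K) = (m : K) + 2 := by push_cast; ring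
    have e2 : (((m : ℤ) + 1 : ℤ) : K) = (m : K) + 1 := by push_cast; ring
    rw [e1] at hpn
    rw [e2] at hpn1
    have hG0v : FinitePlace.mk p (aeval x G₀) = FinitePlace.mk p x ^ (m + 1) := by
      rw [hGx, map_mul, map_pow, hpn, one_mul]
    have ht : FinitePlace.mk p (((m : K) + 1) * x ^ (m + 2)) = FinitePlace.mk p x ^ (m + 2) := by
      rw [map_mul, map_pow, hpn1, one_mul]
    have hxp : 0 < FinitePlace.mk p x := FinitePlace.pos_iff.2 hx0
    rcases lt_trichotomy (FinitePlace.mk p x) 1 with h1 | h1 | h1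
    · left
      have h2 : FinitePlace.mk p (((m : K) + 1) * x ^ (m + 2)) < FinitePlace.mk p ((k : ℤ) : K) := by
        rw [ht, hpk]
        exact pow_lt_one₀ hxp.le h1 (by omega)
      have h3 := fin_dom h2
      rw [add_comm, ← hFx, hpk] at h3
      rw [hy, map_div₀, h3, hG0v]
      exact (one_lt_div (pow_pos hxp _)).2 (pow_lt_one₀ hxp.le h1 (by omega))
    · right
      rcases hp with h2 | h2
      · exact absurd h1 h2
      rw [hid, map_div₀, map_pow, hG0v, h1, one_pow, one_pow, div_one, map_mul, map_pow]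
      have h4 := fin_aeval_le p x G
      rw [h1, max_self, one_pow] at h4
      have h5 : FinitePlace.mk p (x ^ (m + 2) - ((k : ℤ) : K)) ^ 2 < 1 :=
        pow_lt_one₀ (apply_nonneg _ _) h2 (by omega)
      have h6 : 0 ≤ FinitePlace.mk p (x ^ (m + 2) - ((k : ℤ) : K)) ^ 2 := by positivity
      have h7 : 0 ≤ FinitePlace.mk p (aeval x G) := apply_nonneg _ _
      nlinarith
    · left
      have h2 : FinitePlace.mk p ((k : ℤ) : K) < FinitePlace.mk p (((m : K) + 1) * x ^ (m + 2)) := by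
        rw [ht, hpk]
        exact one_lt_pow₀ h1 (by omega)
      have h3 := fin_dom h2
      rw [← hFx, ht] at h3
      rw [hy, map_div₀, h3, hG0v, pow_succ (FinitePlace.mk p x) (m + 1), mul_div_assoc,
        mul_comm, div_mul_cancel₀ _ (pow_pos hxp _).ne']
      exact h1
  · intro p hp
    by_cases hpn : FinitePlace.mk p (((m : ℤ) + 2 : ℤ) : K) = 1
    swap
    · exact Or.inr (Or.inr hpn)
    by_cases hpJ : p ∈ JR (m + 2) ((k : ℤ) : K) x
    · exact Or.inl hpJ
    right; left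
    simp only [JR, Set.mem_ofPred_eq, not_or, not_lt, not_not] at hpJ
    obtain ⟨hx1, hxk1⟩ := hpJ
    have hmax : max 1 (FinitePlace.mk p x) = 1 := max_eq_left hx1.le
    have hint : ∀ P : ℤ[X], FinitePlace.mk p (aeval x P) ≤ 1 := by
      intro P
      have := fin_aeval_le p x P
      rwa [hmax, one_pow] at this
    have hG01 : FinitePlace.mk p (aeval x G₀) = 1 := by
      rw [hGx, map_mul, map_pow, hx1, one_pow, mul_one]
      have : (((m : ℤ) + 2 : ℤ) : K) = (m : K) + 2 := by push_cast; ring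
      rwa [this] at hpn
    rcases hp with h3 | h3
    · rw [hy, map_div₀, hG01, div_one] at h3
      have := hint F
      linarith
    · rw [hid, map_div₀, map_pow, hG01, one_pow, div_one, map_mul, map_pow] at h3
      change FinitePlace.mk p (aeval x G) < 1
      by_contra hcon
      push Not at hcon
      have h4 : 1 ≤ FinitePlace.mk p (x ^ (m + 2) - ((k : ℤ) : K)) ^ 2 := one_le_pow₀ hxk1
      have := one_le_mul_of_one_le_of_one_le h4 hcon
      linarith
  · have f2 := finite_lows hGG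
    have h5 := W_union f2 hbad1
    have h6 := W_lows_le hGG
    have h7 := D_aeval_le x G
    have h8 : (G.natDegree : ℝ) * D x ≤ ((m : ℝ) * ((m : ℝ) + 2)) * D x := by
      refine mul_le_mul_of_nonneg_right ?_ (D_nonneg x)
      exact_mod_cast hG2
    rw [← hw0] at h5
    refine h5.trans ?_
    push_cast
    have e3 : ((m : ℝ) + 1 - 1) * (((m : ℝ) + 2) * D x) = ((m : ℝ) * ((m : ℝ) + 2)) * D x := by ring
    rw [e3]
    linarith

end Pool.Agent.N746.GR
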