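import Pool.Agent.N746.GR.Maps2

/-!
# Affine maps, divisors, and the map to the abc conjecture
-/

set_option autoImplicit false

namespace Pool.Agent.N746.GR

open NumberField IsDedekindDomain Height Real Polynomial Pool.Agent.N757.RD Pool.Agent.N757.TL
open Pool.Agent.N746.RK Pool.Agent.N746.UR

variable {K : Type} [Field K] [NumberField K]

/-- `∞` and the zeros of `P` -/
noncomputable def dP (P : K[X]) : Dat K :=
  ⟨fun x => P.eval x ≠ 0, fun x => ((P.natDegree : ℝ) - 1) * D x, J P⟩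

theorem dat_ext {A B : Dat K} (h1 : ∀ x, A.P x ↔ B.P x) (h2 : ∀ x, A.h x = B.h x)
    (h3 : ∀ x, A.S x = B.S x) : A = B := by
  cases A
  cases B
  simp only at h1 h2 h3
  congr
  · funext x; exact propext (h1 x)
  · funext x; exact h2 x
  · funext x; exact h3 x

theorem dP_three : dP (X * (X - 1) : K[X]) = dA K := by
  refine dat_ext (fun x => ?_) (fun x => ?_) fun x => ?_
  · simp only [dP, dA, eval_mul, eval_sub, eval_X, eval_one, mul_ne_zero_iff, ne_eq, sub_eq_zero]
  · simp only [dP, dA, natDegree_three]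
    norm_num
  · simp only [dP, dA, J_three]

theorem dP_root {n : ℕ} (k : K) : dP (X ^ n - C k : K[X]) = dR n k := by
  refine dat_ext (fun x => ?_) (fun x => ?_) fun x => ?_
  · simp only [dP, dR, eval_sub, eval_pow, eval_X, eval_C, sub_ne_zero]
  · simp only [dP, dR, natDegree_X_pow_sub_C]
  · simp only [dP, dR, J, IR, eval_sub, eval_pow, eval_X, eval_C]

theorem fin_eval_le_one {p : HeightOneSpectrum (𝓞 K)} {R : K[X]} {x : K}
    (hR : ∀ i, FinitePlace.mk p (R.coeff i) ≤ 1) (hx : FinitePlace.mk p x ≤ 1) :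
    FinitePlace.mk p (R.eval x) ≤ 1 := by
  rw [eval_eq_sum_range]
  refine Finset.sum_induction _ (fun a => FinitePlace.mk p a ≤ 1) ?_ ?_ ?_
  · intro a b ha hb
    exact (fin_add_le p a b).trans (max_le ha hb)
  · rw [map_zero]; exact zero_le_one
  · intro i _
    rw [map_mul, map_pow]
    exact mul_le_one₀ (hR i) (pow_nonneg (apply_nonneg _ _) _) (pow_le_one₀ (apply_nonneg _ _) hx)

theorem finite_coeff (R : K[X]) :
    {p : HeightOneSpectrum (𝓞 K) | ¬ ∀ i, FinitePlace.mk p (R.coeff i) ≤ 1}.Finite := by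
  have h : {p : HeightOneSpectrum (𝓞 K) | ¬ ∀ i, FinitePlace.mk p (R.coeff i) ≤ 1} ⊆
      ⋃ i ∈ R.support, {p : HeightOneSpectrum (𝓞 K) | 1 < FinitePlace.mk p (R.coeff i)} := by
    intro p hp
    simp only [Set.mem_ofPred_eq, not_forall, not_le] at hp
    obtain ⟨i, hi⟩ := hp
    simp only [Set.mem_iUnion]
    refine ⟨i, ?_, hi⟩
    rw [mem_support_iff]
    intro h0
    rw [h0, map_zero] at hi
    linarith
  exact (Set.Finite.biUnion (Finset.finite_toSet _) fun i _ => finite_gt _).subset h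

/-- **Affine maps.** -/
theorem map_affine {P : K[X]} (hP : 2 ≤ P.natDegree) {α β : K} (hα : α ≠ 0) :
    Mapp (dP (P.comp (C α * X + C β))) (dP P) := by
  have hd := dg_pos (K := K)
  have hl2 : 0 ≤ Real.log 2 := Real.log_nonneg (by norm_num)
  have hdeg : (P.comp (C α * X + C β)).natDegree = P.natDegree := by
    rw [natDegree_comp, natDegree_linear hα, mul_one]
  obtain ⟨q, hq⟩ : ∃ q : ℝ, q = (P.natDegree : ℝ) - 1 := ⟨_, rfl⟩
  have hq1 : 0 ≤ q := by
    have : (2 : ℝ) ≤ P.natDegree := by exact_mod_cast hP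
    linarith
  obtain ⟨c, hc⟩ : ∃ c : ℝ, c = D α + D β + Real.log 2 * dg K := ⟨_, rfl⟩
  have h1 := D_nonneg α
  have h2 := D_nonneg β
  have hc0 : 0 ≤ c := by rw [hc]; positivity
  have e : ∀ x : K, (C α * X + C β : K[X]).eval x / (1 : K[X]).eval x = α * x + β := by
    intro x
    simp
  obtain ⟨B, hB⟩ : ∃ B : Set (HeightOneSpectrum (𝓞 K)), B = {p | FinitePlace.mk p α ≠ 1} ∪
    {p | 1 < FinitePlace.mk p β} := ⟨_, rfl⟩
  have hBf : B.Finite := by rw [hB]; exact (finite_ne_one hα).union (finite_gt β)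
  have hWB := W_nonneg B
  have key : ∀ (x : K) (p : HeightOneSpectrum (𝓞 K)), p ∉ B →
      (1 < FinitePlace.mk p x ↔ 1 < FinitePlace.mk p (α * x + β)) := by
    intro x p hp
    rw [hB] at hp
    simp only [Set.mem_union, Set.mem_ofPred_eq, not_or, not_not, not_lt] at hp
    obtain ⟨hp1, hp2⟩ := hp
    have h3 : FinitePlace.mk p (α * x) = FinitePlace.mk p x := by rw [map_mul, hp1, one_mul]
    constructor
    · intro h4
      rw [fin_dom (by rw [h3]; linarith), h3]
      exact h4
    · intro h4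
      by_contra h5
      have h6 := fin_add_le p (α * x) β
      rw [h3] at h6
      have := h6.trans (max_le (not_lt.1 h5) hp2)
      linarith
  refine ⟨1, c + q * c + W B + 1, C α * X + C β, 1, B, le_rfl, by positivity, ?_, one_ne_zero, ?_, hBf,
    ?_, ?_⟩
  · intro h
    have := natDegree_linear (a := α) (b := β) hα
    rw [h, natDegree_zero] at this
    omega
  · rw [natDegree_linear hα, natDegree_one]
    omega
  · intro x _
    rw [e]
    have h3 := D_add_le (α * x) β
    have h4 : D (α * x) ≤ D α + D x := logHeight₁_mul_le _ _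
    have h5 := D_nonneg x
    have h6 : 0 ≤ q * c := mul_nonneg hq1 hc0
    have h7 : 0 ≤ (c + q * c + W B) * D x := by positivity
    nlinarith
  · intro x hx
    right
    rw [e]
    simp only [dP] at hx ⊢
    rw [eval_comp] at hx
    have e2 : (C α * X + C β : K[X]).eval x = α * x + β := by simp
    rw [e2] at hx
    refine ⟨by simp, hx, ?_, ?_, B, hBf, ?_, ?_⟩
    · rw [hdeg, one_mul, ← hq]
      have h3 : D x ≤ D (α * x + β) + c := by
        have h4 : x = α⁻¹ * ((α * x + β) + (-β)) := by field_simp; ring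
        have h5 : D (α⁻¹ * ((α * x + β) + (-β))) ≤ D α⁻¹ + D ((α * x + β) + (-β)) :=
          logHeight₁_mul_le _ _
        have h6 := D_add_le (α * x + β) (-β)
        have h7 : D (-β) = D β := by
          unfold D
          exact logHeight₁_neg β
        rw [← h4, D_inv] at h5
        rw [h7] at h6
        linarith
      have h4 := mul_le_mul_of_nonneg_left h3 hq1
      linarith
    · intro p hp
      by_cases hpB : p ∈ B
      · exact Or.inr hpB
      left
      rcases hp with h3 | h3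
      · exact Or.inl ((key x p hpB).1 h3)
      · rw [eval_comp, e2] at h3
        exact Or.inr h3
    · intro p hp
      by_cases hpB : p ∈ B
      · exact Or.inr hpB
      left
      rcases hp with h3 | h3
      · exact Or.inl ((key x p hpB).2 h3)
      · right
        rw [eval_comp, e2]
        exact h3
    · rw [sub_self, zero_mul, zero_add]
      have : 0 ≤ q * c := mul_nonneg hq1 hc0
      linarith

/-- **Divisors.** -/
theorem map_dvd {Q R : K[X]} (hQ : 2 ≤ Q.natDegree) (hR0 : R ≠ 0) : Mapp (dP Q) (dP (Q * R)) := by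
  have hQ0 : Q ≠ 0 := by
    rintro rfl
    simp at hQ
  obtain ⟨r, hr⟩ : ∃ r, r = R.natDegree := ⟨_, rfl⟩
  obtain ⟨q, hq⟩ : ∃ q, q = Q.natDegree := ⟨_, rfl⟩
  have hdeg : (Q * R).natDegree = q + r := by rw [natDegree_mul hQ0 hR0, hq, hr]
  have hq2 : (2 : ℝ) ≤ q := by rw [hq]; exact_mod_cast hQ
  have hr0 : (0 : ℝ) ≤ r := Nat.cast_nonneg _
  have hq1 : (0 : ℝ) < (q : ℝ) - 1 := by linarith
  obtain ⟨C₁, hC₁, h1⟩ := D_eval_le r R hr.ge
  -- the zeros of `R`
  obtain ⟨C₂, hC₂, h2⟩ : ∃ C₂ : ℝ, 0 ≤ C₂ ∧ ∀ x : K, R.eval x = 0 → D x ≤ C₂ := by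
    have hfin : {x : K | R.eval x = 0}.Finite := by
      classical
      refine (R.roots.toFinset.finite_toSet).subset fun x hx => ?_
      rw [Finset.mem_coe, Multiset.mem_toFinset, mem_roots hR0]
      exact hx
    obtain ⟨C, hC⟩ := (hfin.image D).bddAbove
    exact ⟨max C 0, le_max_right _ _, fun x hx => (hC ⟨x, hx, rfl⟩).trans (le_max_left _ _)⟩
  have hq0 : 0 ≤ ((q : ℝ) - 1) * C₂ := mul_nonneg hq1.le hC₂
  refine ⟨((q : ℝ) + r - 1) / ((q : ℝ) - 1), C₁ + ((q : ℝ) - 1) * C₂ + 1, X, 1,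
    {p : HeightOneSpectrum (𝓞 K) | ¬ ∀ i, FinitePlace.mk p (R.coeff i) ≤ 1}, ?_, by positivity,
    X_ne_zero, one_ne_zero, ?_, finite_coeff R, ?_, ?_⟩
  · rw [le_div_iff₀ hq1]; linarith
  · rw [natDegree_X, natDegree_one]; omega
  · intro x _
    rw [eval_X, eval_one, div_one]
    have h3 := D_nonneg x
    have h4 : 0 ≤ (C₁ + ((q : ℝ) - 1) * C₂) * D x := by positivity
    nlinarith
  intro x hx
  rw [eval_X, eval_one, div_one]
  simp only [dP] at hx ⊢
  rw [hdeg, ← hq]
  have eN : ((q : ℝ) + r - 1) / ((q : ℝ) - 1) * (((q : ℝ) - 1) * D x) = ((q : ℝ) + r - 1) * D x := by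
    field_simp
  have eN1 : (((q : ℝ) + r - 1) / ((q : ℝ) - 1) - 1) * (((q : ℝ) - 1) * D x) = r * D x := by
    field_simp
    ring
  rw [eN, eN1]
  by_cases hRx : R.eval x = 0
  · left
    have := mul_le_mul_of_nonneg_left (h2 x hRx) hq1.le
    linarith
  right
  refine ⟨one_ne_zero, by rw [eval_mul]; exact mul_ne_zero hx hRx, ?_, ?_, lows (R.eval x),
    finite_lows hRx, ?_, ?_⟩
  · push_cast
    linarith
  · intro p hp
    by_cases hpB : ∀ i, FinitePlace.mk p (R.coeff i) ≤ 1
    swap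
    · exact Or.inr hpB
    left
    by_cases hx1 : 1 < FinitePlace.mk p x
    · exact Or.inl hx1
    rcases hp with h3 | h3
    · exact Or.inl h3
    · right
      rw [eval_mul, map_mul]
      have h4 := fin_eval_le_one hpB (not_lt.1 hx1)
      have h5 : 0 ≤ FinitePlace.mk p (Q.eval x) := apply_nonneg _ _
      have h6 : 0 ≤ FinitePlace.mk p (R.eval x) := apply_nonneg _ _
      nlinarith
  · intro p hp
    rcases hp with h3 | h3
    · exact Or.inl (Or.inl h3)
    · by_cases h4 : FinitePlace.mk p (Q.eval x) < 1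
      · exact Or.inl (Or.inr h4)
      · right
        change FinitePlace.mk p (R.eval x) < 1
        by_contra hcon
        rw [eval_mul, map_mul] at h3
        have := one_le_mul_of_one_le_of_one_le (not_lt.1 h4) (not_lt.1 hcon)
        linarith
  · have g3 := W_lows_le hRx
    have g4 := h1 x
    linarith

/-- **From abc to the roots.** -/
theorem map_root_abc {n : ℕ} (hn : 2 ≤ n) {c : K} (hc : c ≠ 0) : Mapp (dR n c) (dA K) := by
  have hn0 : (2 : ℝ) ≤ n := by exact_mod_cast hn
  have hn1 : (0 : ℝ) < (n : ℝ) - 1 := by linarith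
  have hDc := D_nonneg c
  have hfc := finite_ne_one hc
  obtain ⟨w0, hw0⟩ : ∃ w, w = W {p : HeightOneSpectrum (𝓞 K) | FinitePlace.mk p c ≠ 1} := ⟨_, rfl⟩
  have hw : 0 ≤ w0 := by rw [hw0]; exact W_nonneg _
  refine ⟨(n : ℝ) / ((n : ℝ) - 1), D c + w0 + n, C c, X ^ n,
    {p : HeightOneSpectrum (𝓞 K) | FinitePlace.mk p c ≠ 1}, ?_, by positivity, C_ne_zero.2 hc,
    pow_ne_zero _ X_ne_zero, ?_, hfc, ?_, ?_⟩
  · rw [le_div_iff₀ hn1]; linarith
  · rw [natDegree_C, natDegree_X_pow]; omega
  · intro x _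
    rw [eval_C, eval_pow, eval_X]
    have h1 : D (c * (x ^ n)⁻¹) ≤ D c + D ((x ^ n)⁻¹) := logHeight₁_mul_le _ _
    rw [D_inv, D_pow, ← div_eq_mul_inv] at h1
    have h2 := D_nonneg x
    have h3 : 0 ≤ (D c + w0) * D x := by positivity
    nlinarith
  intro x hx
  rw [eval_C, eval_pow, eval_X]
  simp only [dR, dA] at hx ⊢
  by_cases hx0 : x = 0
  · left
    rw [hx0]
    have : D (0 : K) = 0 := logHeight₁_zero
    rw [this, mul_zero]; positivity
  right
  have hxn : x ^ n ≠ 0 := pow_ne_zero n hx0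
  have e1 : 1 - c / x ^ n = (x ^ n - c) / x ^ n := by field_simp
  have hxc : x ^ n - c ≠ 0 := sub_ne_zero.2 hx
  have eN : (n : ℝ) / ((n : ℝ) - 1) * (((n : ℝ) - 1) * D x) = n * D x := by
    field_simp
  have eN1 : ((n : ℝ) / ((n : ℝ) - 1) - 1) * (((n : ℝ) - 1) * D x) = D x := by
    field_simp
    ring
  rw [eN, eN1]
  refine ⟨hxn, ⟨div_ne_zero hc hxn, ?_⟩, ?_, ?_, lows x ∪
    {p : HeightOneSpectrum (𝓞 K) | FinitePlace.mk p c ≠ 1}, (finite_lows hx0).union hfc, ?_, ?_⟩
  · intro h1
    rw [h1, sub_self] at e1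
    exact div_ne_zero hxc hxn e1.symm
  · have h1 : D (x ^ n) ≤ D c + D (c / x ^ n) := by
      have e2 : x ^ n = c * (c / x ^ n)⁻¹ := by field_simp
      have h3 : D (c * (c / x ^ n)⁻¹) ≤ D c + D ((c / x ^ n)⁻¹) := logHeight₁_mul_le _ _
      rw [← e2, D_inv] at h3
      exact h3
    rw [D_pow] at h1
    linarith
  · intro p hp
    by_cases hpc : FinitePlace.mk p c = 1
    swap
    · exact Or.inr hpc
    left
    have hxp : 0 < FinitePlace.mk p x := FinitePlace.pos_iff.2 hx0
    by_cases h1 : 1 < FinitePlace.mk p x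
    · left
      rw [map_div₀, map_pow, hpc]
      have h2 : 1 < FinitePlace.mk p x ^ n := one_lt_pow₀ h1 (by omega)
      exact ne_of_lt ((div_lt_one (by positivity)).2 h2)
    · rcases hp with h2 | h2
      · exact absurd h2 h1
      have h3 : FinitePlace.mk p (x ^ n) = 1 := by
        have h4 : FinitePlace.mk p (x ^ n - c) < FinitePlace.mk p c := by rw [hpc]; exact h2
        have h5 := fin_dom (p := p) (a := c) (b := x ^ n - c) h4
        rwa [add_sub_cancel, hpc] at h5
      right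
      rw [e1, map_div₀, h3, div_one]
      exact ne_of_lt h2
  · intro p hp
    by_cases hpc : FinitePlace.mk p c = 1
    swap
    · exact Or.inr (Or.inr hpc)
    by_cases hpI : p ∈ IR n c x
    · exact Or.inl hpI
    right; left
    simp only [IR, Set.mem_ofPred_eq, not_or, not_lt] at hpI
    obtain ⟨h1, h2⟩ := hpI
    by_contra hcon
    have hx1 : FinitePlace.mk p x = 1 := le_antisymm h1 (not_lt.1 hcon)
    have h3 : FinitePlace.mk p (x ^ n - c) = 1 := by
      refine le_antisymm ?_ h2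
      have := fin_add_le p (x ^ n) (-c)
      rwa [← sub_eq_add_neg, map_neg_eq_map, map_pow, hx1, hpc, one_pow, max_self] at this
    rcases hp with h4 | h4
    · rw [map_div₀, map_pow, hpc, hx1] at h4
      norm_num at h4
    · rw [e1, map_div₀, map_pow, h3, hx1] at h4
      norm_num at h4
  · have f2 := finite_lows hx0
    have h5 := W_union f2 hfc
    have h6 := W_lows_le hx0
    rw [← hw0] at h5
    have : (0 : ℝ) ≤ n := Nat.cast_nonneg _
    linarith

end Pool.Agent.N746.GR
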