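import Mathlib

/-!
# Degrees of radicals
-/

set_option autoImplicit false

namespace Pool.Agent.N746.GR

open Polynomial UniqueFactorizationMonoid

/-- the roots of `A` are counted with their multiplicities by the derivative -/
theorem radical_degree {A d : ℚ[X]} (hA : A ≠ 0) (hd0 : d ≠ 0) (hd : d ∣ derivative A)
    (hroots : ∀ x : AlgebraicClosure ℚ, aeval x d = 0 → aeval x A = 0) :
    (radical A).natDegree + d.natDegree ≤ A.natDegree := by
  classical
  set φ := algebraMap ℚ (AlgebraicClosure ℚ) with hφ
  have hinj : Function.Injective φ := φ.injective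
  set a := A.map φ with ha
  set dd := d.map φ with hdd
  set r := (radical A).map φ with hr
  have ha0 : a ≠ 0 := (Polynomial.map_ne_zero_iff hinj).2 hA
  have hdd0 : dd ≠ 0 := (Polynomial.map_ne_zero_iff hinj).2 hd0
  have hr0 : r ≠ 0 := (Polynomial.map_ne_zero_iff hinj).2 radical_ne_zero
  have card : ∀ p : (AlgebraicClosure ℚ)[X], p.roots.card = p.natDegree := fun p =>
    (IsAlgClosed.splits p).natDegree_eq_card_roots.symm
  have e1 : A.natDegree = a.roots.card := by rw [card, ha, natDegree_map]
  have e2 : d.natDegree = dd.roots.card := by rw [card, hdd, natDegree_map]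
  have e3 : (radical A).natDegree = r.roots.card := by rw [card, hr, natDegree_map]
  -- the radical
  have h1 : r.roots.card ≤ a.roots.toFinset.card := by
    have hsep : (radical A).Separable := PerfectField.separable_iff_squarefree.2 squarefree_radical
    have hnd : r.roots.Nodup := nodup_roots (hsep.map)
    rw [← Multiset.toFinset_card_of_nodup hnd]
    refine Finset.card_le_card fun x hx => ?_
    rw [Multiset.mem_toFinset] at hx ⊢
    have hdvd : r ∣ a := Polynomial.map_dvd φ radical_dvd_self
    exact Multiset.mem_of_le (roots.le_of_dvd ha0 hdvd) hx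
  -- the derivative
  have hda : derivative a = (derivative A).map φ := by rw [ha, derivative_map]
  have hsub : dd.roots.toFinset ⊆ a.roots.toFinset := by
    intro x hx
    rw [Multiset.mem_toFinset, mem_roots hdd0, IsRoot, hdd, eval_map, ← aeval_def] at hx
    rw [Multiset.mem_toFinset, mem_roots ha0, IsRoot, ha, eval_map, ← aeval_def]
    exact hroots x hx
  have h2 : dd.roots.card ≤ ∑ x ∈ a.roots.toFinset, (a.roots.count x - 1) := by
    have h3 : dd.roots.card = ∑ x ∈ dd.roots.toFinset, dd.roots.count x :=
      (Multiset.toFinset_sum_count_eq _).symm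
    rw [h3]
    refine (Finset.sum_le_sum_of_subset hsub).trans (Finset.sum_le_sum fun x hx => ?_)
    rw [Multiset.mem_toFinset, mem_roots ha0] at hx
    rw [count_roots, count_roots, ← derivative_rootMultiplicity_of_root hx]
    have hda0 : derivative a ≠ 0 := by
      intro h0
      have h4 := natDegree_eq_zero_of_derivative_eq_zero h0
      rw [eq_C_of_natDegree_eq_zero h4] at hx ha0
      rw [IsRoot, eval_C] at hx
      exact ha0 (by rw [hx, C_0])
    refine rootMultiplicity_le_rootMultiplicity_of_dvd hda0 ?_ x
    rw [hda, hdd]
    exact Polynomial.map_dvd φ hd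
  have h3 : ∑ x ∈ a.roots.toFinset, (a.roots.count x - 1) + a.roots.toFinset.card =
      a.roots.card := by
    rw [Finset.card_eq_sum_ones, ← Finset.sum_add_distrib, ← Multiset.toFinset_sum_count_eq a.roots]
    refine Finset.sum_congr rfl fun x hx => ?_
    rw [Multiset.mem_toFinset] at hx
    have := Multiset.one_le_count_iff_mem.2 hx
    omega
  rw [e1, e2, e3]
  omega

end Pool.Agent.N746.GR
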