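import Pool.Agent.N746.GR.Fin
import Pool.Agent.N746.GR.Chain
import Pool.Agent.N746.GR.Rad

/-!
# Polynomial maps
-/

set_option autoImplicit false

namespace Pool.Agent.N746.GR

open NumberField IsDedekindDomain Height Real Polynomial Pool.Agent.N757.RD Pool.Agent.N757.TL
open Pool.Agent.N746.RK Pool.Agent.N746.UR

variable {K : Type} [Field K] [NumberField K]

/-- the data of a polynomial over `ℚ` -/
noncomputable def dQ (K : Type) [Field K] [NumberField K] (P : ℚ[X]) : Dat K :=
  dP (P.map (algebraMap ℚ K))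

/-- the value at a point where `x` is large -/
theorem fin_eval_top {p : HeightOneSpectrum (𝓞 K)} {f : K[X]} {x : K}
    (hf : ∀ i, FinitePlace.mk p (f.coeff i) ≤ 1) (hl : FinitePlace.mk p f.leadingCoeff = 1)
    (hx : 1 < FinitePlace.mk p x) (hd : 1 ≤ f.natDegree) : 1 < FinitePlace.mk p (f.eval x) := by
  have hx0 : x ≠ 0 := by
    rintro rfl
    rw [map_zero] at hx
    linarith
  have h1 : FinitePlace.mk p (f.eraseLead.eval x * x⁻¹ ^ f.natDegree) < 1 := by
    rw [eval_eq_sum_range' (n := f.natDegree) (lt_of_le_of_lt f.eraseLead_natDegree_le (by omega)),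
      Finset.sum_mul]
    refine Finset.sum_induction _ (fun a => FinitePlace.mk p a < 1) ?_ ?_ ?_
    · intro a b ha hb
      exact (fin_add_le p a b).trans_lt (max_lt ha hb)
    · rw [map_zero]; exact zero_lt_one
    · intro i hi
      rw [Finset.mem_range] at hi
      have e : x ^ i * x⁻¹ ^ f.natDegree = x⁻¹ ^ (f.natDegree - i) := by
        obtain ⟨j, hj⟩ : ∃ j, f.natDegree = i + j := ⟨f.natDegree - i, by omega⟩
        rw [hj, Nat.add_sub_cancel_left, pow_add, ← mul_assoc, ← mul_pow, mul_inv_cancel₀ hx0,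
          one_pow, one_mul]
      rw [mul_assoc, e, map_mul, map_pow, map_inv₀]
      have h2 : FinitePlace.mk p (f.eraseLead.coeff i) ≤ 1 := by
        by_cases h3 : i = f.natDegree
        · omega
        · rw [eraseLead_coeff_of_ne _ h3]; exact hf i
      have h3 : (FinitePlace.mk p x)⁻¹ ^ (f.natDegree - i) < 1 :=
        pow_lt_one₀ (by positivity) (inv_lt_one_of_one_lt₀ hx) (by omega)
      have h4 : 0 ≤ (FinitePlace.mk p x)⁻¹ ^ (f.natDegree - i) := by positivity
      have h5 : 0 ≤ FinitePlace.mk p (f.eraseLead.coeff i) := apply_nonneg _ _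
      nlinarith
  have h2 : f.eval x * x⁻¹ ^ f.natDegree = f.leadingCoeff + f.eraseLead.eval x * x⁻¹ ^ f.natDegree := by
    have e0 : f.eval x = f.eraseLead.eval x + f.leadingCoeff * x ^ f.natDegree := by
      have := congrArg (eval x) f.eraseLead_add_C_mul_X_pow
      rw [eval_add, eval_mul, eval_C, eval_pow, eval_X] at this
      exact this.symm
    rw [e0, add_mul, mul_assoc f.leadingCoeff, ← mul_pow,
      mul_inv_cancel₀ hx0, one_pow, mul_one, add_comm]
  have h3 : FinitePlace.mk p (f.eval x * x⁻¹ ^ f.natDegree) = 1 := by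
    rw [h2, fin_dom (by rw [hl]; exact h1), hl]
  rw [map_mul, map_pow, map_inv₀] at h3
  have h4 : (FinitePlace.mk p x)⁻¹ ^ f.natDegree < 1 :=
    pow_lt_one₀ (by positivity) (inv_lt_one_of_one_lt₀ hx) (by omega)
  have h5 : 0 < (FinitePlace.mk p x)⁻¹ ^ f.natDegree := by positivity
  by_contra h6
  push Not at h6
  have h7 : 0 ≤ FinitePlace.mk p (f.eval x) := apply_nonneg _ _
  nlinarith

/-- a lower bound for the height of the value of a polynomial -/
theorem D_poly_ge {f : ℚ[X]} (hf : 1 ≤ f.natDegree) : ∃ C : ℝ, 0 ≤ C ∧ ∀ x : K,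
    (f.natDegree : ℝ) * D x ≤ D ((f.map (algebraMap ℚ K)).eval x) + C := by
  obtain ⟨b, hb, hbf⟩ := IsLocalization.integerNormalization_spec (nonZeroDivisors ℤ) f
  set F : ℤ[X] := IsLocalization.integerNormalization (nonZeroDivisors ℤ) f with hF
  have hb0 : b ≠ 0 := nonZeroDivisors.ne_zero hb
  have hbQ : ((b : ℤ) : ℚ) ≠ 0 := by exact_mod_cast hb0
  have hbf' : F.map (algebraMap ℤ ℚ) = C ((b : ℤ) : ℚ) * f := by
    rw [hbf, ← smul_eq_C_mul]
    ext i
    simp
  have hdeg : F.natDegree = f.natDegree := by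
    have h1 := congrArg natDegree hbf'
    rwa [natDegree_map_eq_of_injective (algebraMap ℤ ℚ).injective_int, natDegree_C_mul hbQ] at h1
  have hF0 : F ≠ 0 := by
    rintro h0
    rw [h0, natDegree_zero] at hdeg
    omega
  have hBez : (0 : ℤ[X]) * F + 1 * C b = C b := by rw [zero_mul, one_mul, zero_add]
  have hc : F.coeff f.natDegree ≠ 0 := by
    rw [← hdeg]
    exact leadingCoeff_ne_zero.2 hF0
  obtain ⟨C1, hC1, hge⟩ := D_ratio_ge hdeg.le hf hc hb0 hBez
  have hd := dg_pos (K := K)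
  refine ⟨C1 * dg K, by positivity, fun x => ?_⟩
  have hbK : ((b : ℤ) : K) ≠ 0 := by exact_mod_cast hb0
  have e1 : aeval x (C b : ℤ[X]) = ((b : ℤ) : K) := by simp
  have h1 := hge K x (by rw [e1]; exact hbK)
  have e2 : aeval x F = ((b : ℤ) : K) * (f.map (algebraMap ℚ K)).eval x := by
    have h2 : ((F.map (algebraMap ℤ ℚ)).map (algebraMap ℚ K)).eval x =
        ((C ((b : ℤ) : ℚ) * f).map (algebraMap ℚ K)).eval x := by rw [hbf']
    rw [Polynomial.map_map, Polynomial.map_mul, map_C, eval_mul, eval_C, map_intCast] at h2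
    rw [← h2, aeval_def, eval_map]
    congr 1
    exact RingHom.ext_int _ _
  rw [e1, e2, mul_div_cancel_left₀ _ hbK] at h1
  exact h1

/-- **Polynomial maps.** -/
theorem map_poly {f P R U V : ℚ[X]} (hf : 1 ≤ f.natDegree) (hP : 1 ≤ P.natDegree) (hR : R ≠ 0)
    {j : ℕ} (h1 : P.comp f = R * U) (h2 : R ^ j = P.comp f * V)
    (h3 : R.natDegree ≤ (P.natDegree - 1) * f.natDegree + 1) :
    Mapp (dQ K R) (dQ K P) := by
  set φ := algebraMap ℚ K with hφ
  have hinj : Function.Injective φ := φ.injective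
  obtain ⟨C₀, hC₀, hge⟩ := D_poly_ge (K := K) hf
  obtain ⟨C₁, hC₁, hle⟩ := D_eval_le f.natDegree (f.map φ) (natDegree_map_le)
  have hf0 : f ≠ 0 := by rintro rfl; simp at hf
  have hfK : f.map φ ≠ 0 := (Polynomial.map_ne_zero_iff hinj).2 hf0
  have hlc : (f.map φ).leadingCoeff ≠ 0 := leadingCoeff_ne_zero.2 hfK
  have hdK : (f.map φ).natDegree = f.natDegree := natDegree_map _
  obtain ⟨B, hB⟩ : ∃ B : Set (HeightOneSpectrum (𝓞 K)),
    B = {p | FinitePlace.mk p (f.map φ).leadingCoeff ≠ 1} ∪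
      ({p | ¬ ∀ i, FinitePlace.mk p ((f.map φ).coeff i) ≤ 1} ∪
      ({p | ¬ ∀ i, FinitePlace.mk p ((P.map φ).coeff i) ≤ 1} ∪
      ({p | ¬ ∀ i, FinitePlace.mk p ((U.map φ).coeff i) ≤ 1} ∪
      {p | ¬ ∀ i, FinitePlace.mk p ((V.map φ).coeff i) ≤ 1}))) := ⟨_, rfl⟩
  have hBf : B.Finite := by
    rw [hB]
    exact (finite_ne_one hlc).union ((finite_coeff _).union ((finite_coeff _).union
      ((finite_coeff _).union (finite_coeff _))))
  have hWB := W_nonneg B
  have hP1 : (1 : ℝ) ≤ P.natDegree := by exact_mod_cast hP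
  have e1 : ∀ x : K, (P.map φ).eval ((f.map φ).eval x) = (R.map φ).eval x * (U.map φ).eval x := by
    intro x
    rw [← eval_comp, ← Polynomial.map_comp, h1, Polynomial.map_mul, eval_mul]
  have e2 : ∀ x : K, (R.map φ).eval x ^ j =
      (P.map φ).eval ((f.map φ).eval x) * (V.map φ).eval x := by
    intro x
    rw [← eval_comp, ← Polynomial.map_comp, ← eval_pow, ← Polynomial.map_pow, h2,
      Polynomial.map_mul, eval_mul]
  refine ⟨1, ((P.natDegree : ℝ) - 1) * C₀ + W B + f.natDegree + C₁, f.map φ, 1, B, le_rfl, ?_, hfK,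
    one_ne_zero, ?_, hBf, ?_, ?_⟩
  · have : 0 ≤ ((P.natDegree : ℝ) - 1) * C₀ := mul_nonneg (by linarith) hC₀
    positivity
  · rw [hdK, natDegree_one]; omega
  · intro x _
    rw [eval_one, div_one]
    have h4 := hle x
    have h5 := D_nonneg x
    have h6 : 0 ≤ ((P.natDegree : ℝ) - 1) * C₀ := mul_nonneg (by linarith) hC₀
    have h7 : 0 ≤ (((P.natDegree : ℝ) - 1) * C₀ + W B + C₁) * D x := by positivity
    have h8 : (0 : ℝ) ≤ f.natDegree := Nat.cast_nonneg _
    nlinarith
  intro x hx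
  rw [eval_one, div_one]
  simp only [dQ, dP] at hx ⊢
  by_cases hPx : (P.map φ).eval ((f.map φ).eval x) = 0
  · exfalso
    have h4 := e2 x
    rw [hPx, zero_mul] at h4
    exact pow_ne_zero j hx h4
  right
  refine ⟨one_ne_zero, hPx, ?_, ?_, B, hBf, ?_, ?_⟩
  · rw [one_mul, natDegree_map, natDegree_map]
    have h4 := hge x
    have h5 := D_nonneg x
    have h6 : (R.natDegree : ℝ) - 1 ≤ ((P.natDegree : ℝ) - 1) * f.natDegree := by
      have : (R.natDegree : ℝ) ≤ (((P.natDegree - 1) * f.natDegree + 1 : ℕ) : ℝ) := by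
        exact_mod_cast h3
      push_cast [Nat.cast_sub hP] at this
      linarith
    have h7 := mul_le_mul_of_nonneg_right h6 h5
    have h8 : ((P.natDegree : ℝ) - 1) * ((f.natDegree : ℝ) * D x) ≤
        ((P.natDegree : ℝ) - 1) * (D ((f.map φ).eval x) + C₀) :=
      mul_le_mul_of_nonneg_left h4 (by linarith)
    have h9 : (0 : ℝ) ≤ f.natDegree := Nat.cast_nonneg _
    nlinarith
  · intro p hp
    by_cases hpB : p ∈ B
    · exact Or.inr hpB
    left
    rw [hB] at hpB
    simp only [Set.mem_union, Set.mem_ofPred_eq, not_or, not_not] at hpB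
    obtain ⟨b1, b2, b3, b4, b5⟩ := hpB
    by_cases hx1 : 1 < FinitePlace.mk p x
    · left
      exact fin_eval_top b2 b1 hx1 (by rw [hdK]; exact hf)
    rcases hp with h4 | h4
    · exact absurd h4 hx1
    · right
      rw [e1, map_mul]
      have h5 := fin_eval_le_one b4 (not_lt.1 hx1)
      have h6 : 0 ≤ FinitePlace.mk p ((R.map φ).eval x) := apply_nonneg _ _
      have h7 : 0 ≤ FinitePlace.mk p ((U.map φ).eval x) := apply_nonneg _ _
      nlinarith
  · intro p hp
    by_cases hpB : p ∈ B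
    · exact Or.inr hpB
    left
    rw [hB] at hpB
    simp only [Set.mem_union, Set.mem_ofPred_eq, not_or, not_not] at hpB
    obtain ⟨b1, b2, b3, b4, b5⟩ := hpB
    by_cases hx1 : 1 < FinitePlace.mk p x
    · exact Or.inl hx1
    right
    have hfx := fin_eval_le_one b2 (not_lt.1 hx1)
    rcases hp with h4 | h4
    · exact absurd h4 (not_lt.2 hfx)
    · by_contra h5
      push Not at h5
      have h6 := congrArg (FinitePlace.mk p) (e2 x)
      rw [map_pow, map_mul] at h6
      have h7 : 1 ≤ FinitePlace.mk p ((R.map φ).eval x) ^ j := one_le_pow₀ h5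
      have h8 := fin_eval_le_one b5 (not_lt.1 hx1)
      have h9 : 0 ≤ FinitePlace.mk p ((P.map φ).eval ((f.map φ).eval x)) := apply_nonneg _ _
      have h10 : 0 ≤ FinitePlace.mk p ((V.map φ).eval x) := apply_nonneg _ _
      nlinarith
  · rw [sub_self, zero_mul, zero_add]
    have h4 : 0 ≤ ((P.natDegree : ℝ) - 1) * C₀ := mul_nonneg (by linarith) hC₀
    have h9 : (0 : ℝ) ≤ f.natDegree := Nat.cast_nonneg _
    linarith

open UniqueFactorizationMonoid in
/-- **Composition.** -/
theorem elk {f P Q : ℚ[X]} (hf : 1 ≤ f.natDegree) (hP0 : 1 ≤ P.natDegree) (hQ : Squarefree Q)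
    (hQ2 : 2 ≤ Q.natDegree) (hdvd : Q ∣ P.comp f)
    (hcrit : ∀ x : AlgebraicClosure ℚ, aeval x (derivative f) = 0 → aeval (aeval x f) P = 0) :
    Dom (dQ K Q) (dQ K P) := by
  classical
  have hPne : P ≠ 0 := by rintro rfl; simp at hP0
  have hA : P.comp f ≠ 0 := by
    intro h0
    have h1 := congrArg natDegree h0
    rw [natDegree_comp, natDegree_zero] at h1
    rcases Nat.mul_eq_zero.1 h1 with h2 | h2 <;> omega
  have hf' : derivative f ≠ 0 := by
    intro h0
    have := natDegree_eq_zero_of_derivative_eq_zero h0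
    omega
  have hdeg := radical_degree hA hf' (by rw [derivative_comp]; exact dvd_mul_right _ _) (by
    intro x hx
    rw [aeval_comp]
    exact hcrit x hx)
  have hfd : (derivative f).natDegree = f.natDegree - 1 := by
    rw [natDegree_derivative]
  rw [natDegree_comp, hfd] at hdeg
  obtain ⟨R, hR⟩ : ∃ R, R = radical (P.comp f) := ⟨_, rfl⟩
  have hR0 : R ≠ 0 := by rw [hR]; exact radical_ne_zero
  obtain ⟨U, hU⟩ : R ∣ P.comp f := by rw [hR]; exact radical_dvd_self
  obtain ⟨j, V, hV⟩ : ∃ j, P.comp f ∣ R ^ j := by rw [hR]; exact exists_dvd_radical_self_pow hA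
  obtain ⟨T, hT⟩ : Q ∣ R := by
    rw [hR, dvd_radical_iff hQ.isRadical hA]
    exact hdvd
  have h3 : R.natDegree ≤ (P.natDegree - 1) * f.natDegree + 1 := by
    rw [← hR] at hdeg
    obtain ⟨q, hq⟩ : ∃ q, P.natDegree = q + 1 := ⟨P.natDegree - 1, by omega⟩
    rw [hq, Nat.add_sub_cancel]
    rw [hq, Nat.add_mul, one_mul] at hdeg
    omega
  have hinj : Function.Injective (algebraMap ℚ K) := (algebraMap ℚ K).injective
  have hT0 : T ≠ 0 := by rintro rfl; rw [mul_zero] at hT; exact hR0 hT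
  have hQ2' : 2 ≤ (Q.map (algebraMap ℚ K)).natDegree := by rw [natDegree_map]; exact hQ2
  have h4 : Mapp (dQ K Q) (dQ K R) := by
    unfold dQ
    rw [hT, Polynomial.map_mul]
    exact map_dvd hQ2' ((Polynomial.map_ne_zero_iff hinj).2 hT0)
  have hR2 : 2 ≤ (R.map (algebraMap ℚ K)).natDegree := by
    rw [natDegree_map]
    exact hQ2.trans (natDegree_le_of_dvd ⟨T, hT⟩ hR0)
  exact (h4.dom (fin_dP hQ2')).trans ((map_poly hf hP0 hR0 hU hV h3).dom (fin_dP hR2))

end Pool.Agent.N746.GR
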