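import Pool.Agent.N746.GR.LH

/-!
# The rational numbers: primes, radicals and forms
-/

set_option autoImplicit false

namespace Pool.Agent.N746.GR

open NumberField IsDedekindDomain Height Real Polynomial Pool.Agent.N757.RD Pool.Agent.N757.TL
open Pool.Agent.N746.RK Pool.Agent.N746.UR

/-- the prime number below a prime ideal -/
noncomputable def pr (v : HeightOneSpectrum (𝓞 ℚ)) : ℕ := Rat.HeightOneSpectrum.natGenerator v

theorem pr_prime (v : HeightOneSpectrum (𝓞 ℚ)) : (pr v).Prime :=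
  Rat.HeightOneSpectrum.prime_natGenerator v

theorem pr_inj : Function.Injective pr := by
  intro v w h
  apply (Rat.HeightOneSpectrum.primesEquiv (R := 𝓞 ℚ)).injective
  exact Subtype.ext h

theorem pr_surj {p : ℕ} (hp : p.Prime) : ∃ v, pr v = p := by
  obtain ⟨v, hv⟩ := (Rat.HeightOneSpectrum.primesEquiv (R := 𝓞 ℚ)).surjective ⟨p, hp⟩
  exact ⟨v, congrArg Subtype.val hv⟩

theorem pr_dvd_iff (v : HeightOneSpectrum (𝓞 ℚ)) (n : ℕ) : pr v ∣ n ↔ (n : 𝓞 ℚ) ∈ v.asIdeal := by
  unfold pr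
  rw [Rat.HeightOneSpectrum.natGenerator_dvd_iff,
    ← map_natCast (Rat.IsIntegralClosure.intEquiv (𝓞 ℚ)) n, Ideal.apply_mem_of_equiv_iff]

theorem absNorm_pr (v : HeightOneSpectrum (𝓞 ℚ)) : Ideal.absNorm v.asIdeal = pr v := by
  have h1 : ((pr v : ℕ) : 𝓞 ℚ) ∈ v.asIdeal := (pr_dvd_iff v (pr v)).1 dvd_rfl
  have h2 : Ideal.absNorm v.asIdeal ∣ Ideal.absNorm (Ideal.span {((pr v : ℕ) : 𝓞 ℚ)}) :=
    Ideal.absNorm_dvd_absNorm_of_le ((Ideal.span_singleton_le_iff_mem _).mpr h1)
  rw [Ideal.absNorm_span_natCast, RingOfIntegers.rank, Module.finrank_self, pow_one] at h2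
  rcases (Nat.dvd_prime (pr_prime v)).1 h2 with h | h
  · have := HeightOneSpectrum.one_lt_absNorm v
    omega
  · exact h

theorem fin_lt_iff (v : HeightOneSpectrum (𝓞 ℚ)) (z : ℤ) :
    FinitePlace.mk v (z : ℚ) < 1 ↔ (pr v : ℤ) ∣ z := by
  have h : FinitePlace.mk v (z : ℚ) < 1 ↔ (z : 𝓞 ℚ) ∈ v.asIdeal := by
    rw [FinitePlace.mk_apply]
    have h := FinitePlace.norm_lt_one_iff_mem ℚ v (z : 𝓞 ℚ)
    simpa using h
  rw [h, Int.natCast_dvd, pr_dvd_iff]
  rcases Int.natAbs_eq z with h2 | h2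
  · rw [h2]
    simp
  · rw [h2]
    simp

/-- `γ(n)`, the product of the primes dividing `n` -/
def gam (n : ℕ) : ℕ := ∏ p ∈ n.primeFactors, p

/-- `ω(n)`, the number of primes dividing `n` -/
def om (n : ℕ) : ℕ := n.primeFactors.card

/-- `H(n) = γ(n) / (log γ(n)) ^ ω(n)` -/
noncomputable def HH (n : ℕ) : ℝ := (gam n : ℝ) / Real.log (gam n : ℝ) ^ om n

theorem image_lows {n : ℤ} (hn : n ≠ 0) (h : (lows (n : ℚ)).Finite) :
    h.toFinset.image pr = n.natAbs.primeFactors := by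
  ext p
  simp only [Finset.mem_image, Set.Finite.mem_toFinset, Nat.mem_primeFactors, ne_eq,
    Int.natAbs_eq_zero]
  constructor
  · rintro ⟨v, hv, rfl⟩
    exact ⟨pr_prime v, Int.natCast_dvd.1 ((fin_lt_iff v n).1 hv), hn⟩
  · rintro ⟨hp, hd, _⟩
    obtain ⟨v, rfl⟩ := pr_surj hp
    exact ⟨v, (fin_lt_iff v n).2 (Int.natCast_dvd.2 hd), rfl⟩

theorem W_lows {n : ℤ} (hn : n ≠ 0) : W (lows (n : ℚ)) = Real.log (gam n.natAbs) := by
  classical
  have hn' : (n : ℚ) ≠ 0 := by exact_mod_cast hn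
  have h := finite_lows hn'
  rw [W_eq h]
  have e1 : ∀ v ∈ h.toFinset, Real.log (Ideal.absNorm v.asIdeal : ℝ) = Real.log (pr v : ℝ) := by
    intro v _
    rw [absNorm_pr]
  rw [Finset.sum_congr rfl e1, ← Finset.sum_image (f := fun p : ℕ => Real.log (p : ℝ))
    (fun a _ b _ hab => pr_inj hab), image_lows hn h, gam, Nat.cast_prod, Real.log_prod]
  intro p hp
  have := (Nat.prime_of_mem_primeFactors hp).pos
  positivity

theorem ncard_lows {n : ℤ} (hn : n ≠ 0) : (lows (n : ℚ)).ncard = om n.natAbs := by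
  classical
  have hn' : (n : ℚ) ≠ 0 := by exact_mod_cast hn
  have h := finite_lows hn'
  rw [Set.ncard_eq_toFinset_card _ h, om, ← image_lows hn h,
    Finset.card_image_of_injective _ pr_inj]

theorem gam_pos (n : ℕ) : 1 ≤ gam n :=
  Finset.prod_pos fun _ hr => (Nat.prime_of_mem_primeFactors hr).pos

theorem om_zero {n : ℕ} (h : gam n = 1) : om n = 0 := by
  unfold om
  rw [Finset.card_eq_zero]
  by_contra hne
  obtain ⟨p, hp⟩ := Finset.nonempty_iff_ne_empty.2 hne
  have h1 : p ∣ gam n := Finset.dvd_prod_of_mem (fun p => p) hp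
  rw [h, Nat.dvd_one] at h1
  exact (Nat.prime_of_mem_primeFactors hp).one_lt.ne' h1

theorem HH_pos (n : ℕ) : 0 < HH n := by
  have h1 := gam_pos n
  unfold HH
  rcases h1.eq_or_lt with h | h
  · rw [om_zero h.symm, ← h]
    simp
  · have h2 : (1 : ℝ) < gam n := by exact_mod_cast h
    have h3 := Real.log_pos h2
    positivity

theorem log_HH (n : ℕ) : Real.log (HH n) = Real.log (gam n) - om n * Real.log (Real.log (gam n)) := by
  have h1 := gam_pos n
  unfold HH
  rcases h1.eq_or_lt with h | h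
  · rw [om_zero h.symm, ← h]
    simp
  · have h2 : (1 : ℝ) < gam n := by exact_mod_cast h
    have h3 := Real.log_pos h2
    rw [Real.log_div (by positivity) (by positivity), Real.log_pow]

theorem LL_lows {n : ℤ} (hn : n ≠ 0) : LL (lows (n : ℚ)) = Real.log (HH n.natAbs) := by
  unfold LL
  rw [W_lows hn, ncard_lows hn, log_HH]

/-- the form `y ^ e * ∑ a_i x ^ i y ^ (d - i)` which belongs to `P = ∑ a_i X ^ i`, `d = deg P` -/
def form (P : ℤ[X]) (e : ℕ) (x y : ℤ) : ℤ :=
  y ^ e * ∑ i ∈ Finset.range (P.natDegree + 1), P.coeff i * x ^ i * y ^ (P.natDegree - i)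

theorem form_cast (P : ℤ[X]) (e : ℕ) {x y : ℤ} (hy : y ≠ 0) :
    ((form P e x y : ℤ) : ℚ) = (y : ℚ) ^ (e + P.natDegree) *
      (P.map (Int.castRingHom ℚ)).eval ((x : ℚ) / y) := by
  have hy' : (y : ℚ) ≠ 0 := by exact_mod_cast hy
  have key : (y : ℚ) ^ P.natDegree * (P.map (Int.castRingHom ℚ)).eval ((x : ℚ) / y) =
      ∑ i ∈ Finset.range (P.natDegree + 1),
        (P.coeff i : ℚ) * (x : ℚ) ^ i * (y : ℚ) ^ (P.natDegree - i) := by
    rw [eval_eq_sum_range, natDegree_map_eq_of_injective (Int.castRingHom ℚ).injective_int,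
      Finset.mul_sum]
    refine Finset.sum_congr rfl fun i hi => ?_
    have hi' : i ≤ P.natDegree := by
      have := Finset.mem_range.1 hi
      omega
    rw [coeff_map, eq_intCast, div_pow]
    have e1 : (y : ℚ) ^ P.natDegree = (y : ℚ) ^ (P.natDegree - i) * (y : ℚ) ^ i := by
      rw [← pow_add, Nat.sub_add_cancel hi']
    rw [e1]
    field_simp
  rw [pow_add, mul_assoc, key, form]
  push_cast
  rfl

/-- the primes of the form and of the divisor -/
theorem form_mem (P : ℤ[X]) (e : ℕ) {x y : ℤ} (hy : y ≠ 0) (hxy : IsCoprime x y)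
    (v : HeightOneSpectrum (𝓞 ℚ)) (hv : gd (P.map (Int.castRingHom ℚ)) v) :
    v ∈ lows ((form P e x y : ℤ) : ℚ) ↔
      v ∈ (dE (P.map (Int.castRingHom ℚ)) e).S ((x : ℚ) / y) := by
  have hy' : (y : ℚ) ≠ 0 := by exact_mod_cast hy
  have hd : (P.map (Int.castRingHom ℚ)).natDegree = P.natDegree :=
    natDegree_map_eq_of_injective (Int.castRingHom ℚ).injective_int P
  have hyv : 0 < FinitePlace.mk v (y : ℚ) := FinitePlace.pos_iff.2 hy'
  have e1 : FinitePlace.mk v ((form P e x y : ℤ) : ℚ) = FinitePlace.mk v (y : ℚ) ^ e *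
      (FinitePlace.mk v (y : ℚ) ^ P.natDegree *
        FinitePlace.mk v ((P.map (Int.castRingHom ℚ)).eval ((x : ℚ) / y))) := by
    rw [form_cast P e hy, map_mul, map_pow, pow_add, mul_assoc]
  change FinitePlace.mk v _ < 1 ↔ _
  rw [e1]
  rcases (fin_intCast_le v y).eq_or_lt with h1 | h1
  · have h2 : ¬ 1 < FinitePlace.mk v ((x : ℚ) / y) := by
      rw [map_div₀, h1, div_one, not_lt]
      exact fin_intCast_le v x
    rw [h1, one_pow, one_pow, one_mul, one_mul]
    constructor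
    · intro h; exact Or.inr h
    · rintro (h | h)
      · exact absurd h.2 h2
      · exact h
  · have hx1 : FinitePlace.mk v (x : ℚ) = 1 := by
      refine le_antisymm (fin_intCast_le v x) (not_lt.1 fun h => ?_)
      rw [fin_lt_iff] at h h1
      have h3 := hxy.isUnit_of_dvd' h h1
      have h4 := (pr_prime v).one_lt
      rw [Int.isUnit_iff] at h3
      omega
    have h2 : FinitePlace.mk v ((x : ℚ) / y) = (FinitePlace.mk v (y : ℚ))⁻¹ := by
      rw [map_div₀, hx1, one_div]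
    have h3 : 1 < FinitePlace.mk v ((x : ℚ) / y) := by
      rw [h2]
      exact (one_lt_inv₀ hyv).2 h1
    have h4 := good_big hv h3
    have h5 : FinitePlace.mk v (y : ℚ) ^ P.natDegree *
        FinitePlace.mk v ((P.map (Int.castRingHom ℚ)).eval ((x : ℚ) / y)) = 1 := by
      rw [h4, h2, hd, ← mul_pow, mul_inv_cancel₀ hyv.ne', one_pow]
    rw [h5, mul_one]
    constructor
    · intro h
      refine Or.inl ⟨?_, h3⟩
      rintro rfl
      rw [pow_zero] at h
      exact lt_irrefl _ h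
    · rintro (h | h)
      · exact pow_lt_one₀ hyv.le h1 h.1
      · rw [h4] at h
        have := one_le_pow₀ (n := (P.map (Int.castRingHom ℚ)).natDegree) h3.le
        linarith

end Pool.Agent.N746.GR
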